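import Mathlib

/-!
# Unit area triangles in plane sets (MP_fe0060_co): definitions

Everything here is elementary; see the note in table `h270_tasks`, row 0, for the paper proof.
-/

open MeasureTheory Set
open scoped ENNReal

namespace Pool.Agent.H270R2.UT

/-- energy of `g` at shift `t` : `∫ (g(y+t) - g(y))² dy` -/
noncomputable def En (g : ℝ → ℝ) (t : ℝ) : ℝ≥0∞ :=
  ∫⁻ y, ENNReal.ofReal ((g (y + t) - g y) ^ 2)

/-- average of `g` over the `n`-th interval `[L n, L (n+1))` of length `L` -/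
noncomputable def av (L : ℝ) (g : ℝ → ℝ) (n : ℤ) : ℝ :=
  (1 / L) * ∫ z in (L * (n : ℝ))..(L * ((n : ℝ) + 1)), g z

/-- index of the interval of length `L` containing `y` -/
noncomputable def ix (L y : ℝ) : ℤ := ⌊y / L⌋

/-- length of the part of the row `y` of `B` which lies in `[u, v)` -/
noncomputable def rowLen (B : Set (ℝ × ℝ)) (u v y : ℝ) : ℝ :=
  (volume {x : ℝ | u ≤ x ∧ x < v ∧ (x, y) ∈ B}).toReal

/-- scale of rows and columns at level `k` -/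
noncomputable def rho (k : ℕ) : ℝ := 2 / 16 ^ k

/-- scale of the blocks of rows at level `k` -/
noncomputable def rho' (k : ℕ) : ℝ := 2 / 4 ^ k

/-- `f_B(y) = |B_y|` -/
noncomputable def fB (B : Set (ℝ × ℝ)) (y : ℝ) : ℝ := rowLen B 0 4 y

/-- length of row `y` of `B` in the column number `γ` of level `k` -/
noncomputable def col (B : Set (ℝ × ℝ)) (k : ℕ) (γ : ℤ) (y : ℝ) : ℝ :=
  rowLen B (γ * rho k) ((γ + 1) * rho k) y

/-- the sets considered in the combinatorial part: no triangle with a horizontal base of area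
close to `1`, for base lengths in `[1, 2]` -/
structure Nice (B : Set (ℝ × ℝ)) (R η : ℝ) : Prop where
  meas : MeasurableSet B
  x0 : ∀ p ∈ B, 0 ≤ p.1
  x4 : ∀ p ∈ B, p.1 < 4
  bdd : ∀ p ∈ B, |p.2| ≤ R
  hη : 0 < η
  gap : ∀ x x' y x'' y'' : ℝ, (x, y) ∈ B → (x', y) ∈ B → 1 ≤ x' - x → x' - x ≤ 2 →
    (x'', y'') ∈ B → η ≤ |(x' - x) * (y'' - y) - 2|

/-- the set of pairs `(y, (x, x'))` on a common row at distance in `[1, 2]` -/
def Q (B : Set (ℝ × ℝ)) : Set (ℝ × ℝ × ℝ) :=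
  {p | (p.2.1, p.1) ∈ B ∧ (p.2.2, p.1) ∈ B ∧ 1 ≤ p.2.2 - p.2.1 ∧ p.2.2 - p.2.1 ≤ 2}

/-- good rows -/
def Good (f : ℝ → ℝ) (K : ℕ) : Set ℝ :=
  {y | 0 < av 2 f (ix 2 y) ∧ f y ≤ 2 * av 2 f (ix 2 y) ∧
    (∀ k ≤ K, av (rho' k) f (ix (rho' k) y) ≤ 2 * av 2 f (ix 2 y)) ∧
    av 2 f (ix 2 y) ≤ 2 * av 2 f (ix 2 y + 1) ∧
    av 2 f (ix 2 y + 1) ≤ 2 * av 2 f (ix 2 y)}

/-- the column `γ` is big at the row `y` (level `k`) -/
def Big (B : Set (ℝ × ℝ)) (k : ℕ) (γ : ℤ) (y : ℝ) : Prop :=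
  av 2 (fB B) (ix 2 y) / 2 ^ k < col B k γ y ∧
    2 * av (rho' k) (col B k γ) (ix (rho' k) y) < col B k γ y

/-- the X-ray transform restricted to the columns `a ∈ E`: length of
`{a ∈ E : (a, σ a + c) ∈ K}` -/
noncomputable def xray (K : Set (ℝ × ℝ)) (E : Set ℝ) (σ c : ℝ) : ℝ :=
  (volume {a : ℝ | a ∈ E ∧ (a, σ * a + c) ∈ K}).toReal

/-- left end point of the window number `(n, e)` of length `4·2^j` -/
noncomputable def win (j : ℕ) (i : ℤ × Fin 2) : ℝ :=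
  2 ^ j * (4 * (i.1 : ℝ) + 2 * ((i.2 : ℕ) : ℝ))

/-- the sheared and rescaled window set -/
def BB (K : Set (ℝ × ℝ)) (j : ℕ) (i : ℤ × Fin 2) (σ : ℝ) : Set (ℝ × ℝ) :=
  {p | 0 ≤ p.1 ∧ p.1 < 4 ∧
    (win j i + 2 ^ j * p.1, σ * (win j i + 2 ^ j * p.1) + p.2 / 2 ^ j) ∈ K}

/-- the area form -/
def dt (p q r : ℝ × ℝ) : ℝ := (q.1 - p.1) * (r.2 - p.2) - (r.1 - p.1) * (q.2 - p.2)

end Pool.Agent.H270R2.UT
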