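import Pool.Agent.H270R2.UT.Defs

/-! Task U: pairs in big columns. -/

open MeasureTheory Set
open scoped ENNReal

namespace Pool.Agent.H270R2.UT

namespace TaskU

theorem rowLen_meas {B : Set (ℝ × ℝ)} (hB : MeasurableSet B) (u v : ℝ) :
    Measurable (rowLen B u v) := by
  unfold rowLen
  have hs : MeasurableSet ({p : ℝ × ℝ | u ≤ p.1 ∧ p.1 < v ∧ p ∈ B}) := by
    refine (measurableSet_le measurable_const measurable_fst).inter
      ((measurableSet_lt measurable_fst measurable_const).inter hB)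
  exact (measurable_measure_prodMk_right hs).ennreal_toReal

theorem row_fin {B : Set (ℝ × ℝ)} (u v y : ℝ) :
    volume {x : ℝ | u ≤ x ∧ x < v ∧ (x, y) ∈ B} ≠ ∞ := by
  have : volume {x : ℝ | u ≤ x ∧ x < v ∧ (x, y) ∈ B} ≤ volume (Ico u v) :=
    measure_mono (fun x hx => ⟨hx.1, hx.2.1⟩)
  rw [Real.volume_Ico] at this
  exact (this.trans_lt ENNReal.ofReal_lt_top).ne

theorem row_ofReal {B : Set (ℝ × ℝ)} (u v y : ℝ) :
    ENNReal.ofReal (rowLen B u v y) = volume {x : ℝ | u ≤ x ∧ x < v ∧ (x, y) ∈ B} := by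
  unfold rowLen
  exact ENNReal.ofReal_toReal (row_fin u v y)

theorem rowLen_nonneg {B : Set (ℝ × ℝ)} (u v y : ℝ) : 0 ≤ rowLen B u v y :=
  ENNReal.toReal_nonneg

theorem av_meas (L : ℝ) (g : ℝ → ℝ) : Measurable (fun y => av L g (ix L y)) := by
  have h : Measurable (fun n : ℤ => av L g n) := measurable_from_top
  refine h.comp ?_
  unfold ix
  exact Int.measurable_floor.comp (measurable_id.div_const L)

theorem rowLen_le {B : Set (ℝ × ℝ)} {R η : ℝ} (h : Nice B R η) (u v y : ℝ) :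
    |rowLen B u v y| ≤ 4 := by
  rw [abs_of_nonneg (rowLen_nonneg u v y)]
  unfold rowLen
  have h1 : volume {x : ℝ | u ≤ x ∧ x < v ∧ (x, y) ∈ B} ≤ volume (Ico (0 : ℝ) 4) :=
    measure_mono (fun x hx => ⟨h.x0 _ hx.2.2, h.x4 _ hx.2.2⟩)
  rw [Real.volume_Ico] at h1
  have h2 := ENNReal.toReal_mono ENNReal.ofReal_ne_top h1
  rwa [ENNReal.toReal_ofReal (by norm_num), sub_zero] at h2

theorem rowLen_zero {B : Set (ℝ × ℝ)} {R η : ℝ} (h : Nice B R η) (u v y : ℝ) (hy : R < |y|) :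
    rowLen B u v y = 0 := by
  unfold rowLen
  have : {x : ℝ | u ≤ x ∧ x < v ∧ (x, y) ∈ B} = ∅ := by
    rw [Set.eq_empty_iff_forall_notMem]
    rintro x ⟨_, _, hx⟩
    exact absurd (h.bdd _ hx) (not_le.2 hy)
  rw [this]
  simp

/-- deviation of the column from its block average -/
noncomputable def dev (B : Set (ℝ × ℝ)) (k : ℕ) (γ : ℤ) (y : ℝ) : ℝ :=
  col B k γ y - av (rho' k) (col B k γ) (ix (rho' k) y)

/-- rows where the column `γ` is big, measurable superset -/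
def HH (B : Set (ℝ × ℝ)) (k : ℕ) (γ : ℤ) : Set ℝ :=
  {y | fB B y * col B k γ y ≤ 8 * 2 ^ k * dev B k γ y ^ 2}

theorem col_meas {B : Set (ℝ × ℝ)} (hB : MeasurableSet B) (k : ℕ) (γ : ℤ) :
    Measurable (col B k γ) := by
  unfold col
  exact rowLen_meas hB _ _

theorem fB_meas {B : Set (ℝ × ℝ)} (hB : MeasurableSet B) : Measurable (fB B) := by
  unfold fB
  exact rowLen_meas hB _ _

theorem dev_meas {B : Set (ℝ × ℝ)} (hB : MeasurableSet B) (k : ℕ) (γ : ℤ) :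
    Measurable (dev B k γ) := by
  unfold dev
  exact (col_meas hB k γ).sub (av_meas _ _)

theorem HH_meas {B : Set (ℝ × ℝ)} (hB : MeasurableSet B) (k : ℕ) (γ : ℤ) :
    MeasurableSet (HH B k γ) := by
  unfold HH
  exact measurableSet_le ((fB_meas hB).mul (col_meas hB k γ))
    ((measurable_const).mul ((dev_meas hB k γ).pow_const 2))

theorem mem_HH {B : Set (ℝ × ℝ)} {K k : ℕ} (γ : ℤ) (y : ℝ)
    (hy : y ∈ Good (fB B) K) (hb : Big B k γ y) : y ∈ HH B k γ := by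
  obtain ⟨hF, hf, -, -, -⟩ := hy
  obtain ⟨h1, h2⟩ := hb
  set F := av 2 (fB B) (ix 2 y) with hFd
  set m := col B k γ y with hm
  have hm0 : 0 ≤ m := rowLen_nonneg _ _ _
  have h3 : F < 2 ^ k * m := by
    rw [div_lt_iff₀ (by positivity)] at h1
    linarith
  have hav : 0 ≤ av (rho' k) (col B k γ) (ix (rho' k) y) := by
    unfold av
    have hr : 0 < rho' k := by unfold rho'; positivity
    apply mul_nonneg (by positivity)
    apply intervalIntegral.integral_nonneg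
    · nlinarith
    · intro z _
      exact rowLen_nonneg _ _ _
  have h4 : m ≤ 2 * dev B k γ y := by
    unfold dev
    linarith
  show fB B y * m ≤ 8 * 2 ^ k * dev B k γ y ^ 2
  have h5 : m ^ 2 ≤ (2 * dev B k γ y) ^ 2 := by
    apply pow_le_pow_left₀ hm0 h4
  have h6 : fB B y * m ≤ 2 * F * m := by
    apply mul_le_mul_of_nonneg_right hf hm0
  have h7 : 2 * F * m ≤ 2 * (2 ^ k * m) * m := by
    apply mul_le_mul_of_nonneg_right _ hm0
    linarith
  have h8 : (0 : ℝ) < 2 ^ k := by positivity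
  nlinarith

/-- pairs whose first point is in the column `γ` -/
def E1 (B : Set (ℝ × ℝ)) (k : ℕ) (γ : ℤ) : Set (ℝ × ℝ × ℝ) :=
  {p | p.1 ∈ HH B k γ ∧ (γ * rho k ≤ p.2.1 ∧ p.2.1 < (γ + 1) * rho k ∧ (p.2.1, p.1) ∈ B) ∧
    (0 ≤ p.2.2 ∧ p.2.2 < 4 ∧ (p.2.2, p.1) ∈ B)}

/-- pairs whose second point is in the column `γ` -/
def E2 (B : Set (ℝ × ℝ)) (k : ℕ) (γ : ℤ) : Set (ℝ × ℝ × ℝ) :=
  {p | p.1 ∈ HH B k γ ∧ (0 ≤ p.2.1 ∧ p.2.1 < 4 ∧ (p.2.1, p.1) ∈ B) ∧
    (γ * rho k ≤ p.2.2 ∧ p.2.2 < (γ + 1) * rho k ∧ (p.2.2, p.1) ∈ B)}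

/-- volume of a set given by rows -/
theorem vol_rows {B : Set (ℝ × ℝ)} (hB : MeasurableSet B) (H : Set ℝ) (hH : MeasurableSet H)
    (u v u' v' : ℝ) :
    volume {p : ℝ × ℝ × ℝ | p.1 ∈ H ∧ (u ≤ p.2.1 ∧ p.2.1 < v ∧ (p.2.1, p.1) ∈ B) ∧
      (u' ≤ p.2.2 ∧ p.2.2 < v' ∧ (p.2.2, p.1) ∈ B)} =
    ∫⁻ y in H, ENNReal.ofReal (rowLen B u v y * rowLen B u' v' y) := by
  have hm : MeasurableSet {p : ℝ × ℝ × ℝ | p.1 ∈ H ∧ (u ≤ p.2.1 ∧ p.2.1 < v ∧ (p.2.1, p.1) ∈ B) ∧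
      (u' ≤ p.2.2 ∧ p.2.2 < v' ∧ (p.2.2, p.1) ∈ B)} := by
    refine (measurable_fst hH).inter (((measurableSet_le measurable_const
      (measurable_fst.comp measurable_snd)).inter ((measurableSet_lt
      (measurable_fst.comp measurable_snd) measurable_const).inter ?_)).inter
      ((measurableSet_le measurable_const
      (measurable_snd.comp measurable_snd)).inter ((measurableSet_lt
      (measurable_snd.comp measurable_snd) measurable_const).inter ?_)))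
    · exact ((measurable_fst.comp measurable_snd).prodMk measurable_fst) hB
    · exact ((measurable_snd.comp measurable_snd).prodMk measurable_fst) hB
  rw [Measure.volume_eq_prod, Measure.prod_apply hm, ← lintegral_indicator hH]
  congr 1
  ext y
  by_cases hy : y ∈ H
  · rw [Set.indicator_of_mem hy, ENNReal.ofReal_mul (rowLen_nonneg _ _ _), row_ofReal, row_ofReal,
      ← Measure.prod_prod]
    rw [← Measure.volume_eq_prod]
    congr 1
    ext q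
    simp only [Set.mem_preimage, Set.mem_ofPred_eq, Set.mem_prod]
    tauto
  · rw [Set.indicator_of_notMem hy]
    convert measure_empty (μ := (volume : Measure (ℝ × ℝ)))
    rw [Set.eq_empty_iff_forall_notMem]
    intro q hq
    exact hy hq.1

theorem vol_E1 {B : Set (ℝ × ℝ)} (hB : MeasurableSet B) (k : ℕ) (γ : ℤ) :
    volume (E1 B k γ) ≤ ENNReal.ofReal (8 * 2 ^ k) * ∫⁻ y, ENNReal.ofReal (dev B k γ y ^ 2) := by
  unfold E1
  rw [vol_rows hB _ (HH_meas hB k γ), ← lintegral_const_mul' _ _ ENNReal.ofReal_ne_top]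
  refine le_trans ?_ (setLIntegral_le_lintegral (HH B k γ) _)
  apply setLIntegral_mono' (HH_meas hB k γ)
  intro y hy
  rw [← ENNReal.ofReal_mul (by positivity)]
  apply ENNReal.ofReal_le_ofReal
  rw [mul_comm]
  exact hy

theorem vol_E2 {B : Set (ℝ × ℝ)} (hB : MeasurableSet B) (k : ℕ) (γ : ℤ) :
    volume (E2 B k γ) ≤ ENNReal.ofReal (8 * 2 ^ k) * ∫⁻ y, ENNReal.ofReal (dev B k γ y ^ 2) := by
  unfold E2
  rw [vol_rows hB _ (HH_meas hB k γ), ← lintegral_const_mul' _ _ ENNReal.ofReal_ne_top]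
  refine le_trans ?_ (setLIntegral_le_lintegral (HH B k γ) _)
  apply setLIntegral_mono' (HH_meas hB k γ)
  intro y hy
  rw [← ENNReal.ofReal_mul (by positivity)]
  apply ENNReal.ofReal_le_ofReal
  exact hy

/-- the column containing a point of `[0, 4)` -/
theorem col_index (k : ℕ) (x : ℝ) (h0 : 0 ≤ x) (h4 : x < 4) :
    ∃ γ ∈ Finset.range (2 * 16 ^ k), ix (rho k) x = (γ : ℤ) ∧
      ((γ : ℤ) : ℝ) * rho k ≤ x ∧ x < (((γ : ℤ) : ℝ) + 1) * rho k := by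
  have hr : 0 < rho k := by unfold rho; positivity
  have h1 : 0 ≤ x / rho k := by positivity
  have h2 : (0 : ℤ) ≤ ⌊x / rho k⌋ := Int.floor_nonneg.2 h1
  obtain ⟨γ, hγ⟩ := Int.eq_ofNat_of_zero_le h2
  have h3 : ((γ : ℤ) : ℝ) ≤ x / rho k := by
    rw [← hγ]
    exact Int.floor_le _
  have h5 : x / rho k < ((γ : ℤ) : ℝ) + 1 := by
    rw [← hγ]
    exact Int.lt_floor_add_one _
  refine ⟨γ, ?_, hγ, ?_, ?_⟩
  · rw [Finset.mem_range]
    have h6 : (γ : ℝ) < 2 * 16 ^ k := by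
      have h7 : ((γ : ℤ) : ℝ) ≤ x / rho k := h3
      rw [le_div_iff₀ hr] at h7
      unfold rho at h7
      rw [mul_div_assoc', div_le_iff₀ (by positivity)] at h7
      have h8 : x * 16 ^ k < 4 * 16 ^ k := by
        apply mul_lt_mul_of_pos_right h4 (by positivity)
      have h9 : (((γ : ℤ) : ℝ)) = (γ : ℝ) := by norm_cast
      rw [h9] at h7
      linarith
    exact_mod_cast h6
  · rw [le_div_iff₀ hr] at h3
    exact h3
  · rw [div_lt_iff₀ hr] at h5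
    exact h5

theorem sum_le_lintegral {ι : Type} (s : Finset ι) (F : ι → ℝ → ℝ≥0∞) (μ : Measure ℝ) :
    ∑ i ∈ s, ∫⁻ t, F i t ∂μ ≤ ∫⁻ t, ∑ i ∈ s, F i t ∂μ := by
  classical
  induction s using Finset.induction_on with
  | empty => simp
  | insert a s ha ih =>
    rw [Finset.sum_insert ha]
    calc ∫⁻ t, F a t ∂μ + ∑ i ∈ s, ∫⁻ t, F i t ∂μ
        ≤ ∫⁻ t, F a t ∂μ + ∫⁻ t, ∑ i ∈ s, F i t ∂μ := by gcongr
      _ ≤ ∫⁻ t, (F a t + ∑ i ∈ s, F i t) ∂μ := le_lintegral_add _ _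
      _ = ∫⁻ t, ∑ i ∈ insert a s, F i t ∂μ := by
        congr 1
        ext t
        rw [Finset.sum_insert ha]

/-- `type2`, given `avg_var` (task V) -/
theorem type2_of
    (avg_var : ∀ {g : ℝ → ℝ}, Measurable g → ∀ {M R : ℝ}, (∀ y, |g y| ≤ M) →
      (∀ y, R < |y| → g y = 0) → ∀ {L : ℝ}, 0 < L →
      ∫⁻ y, ENNReal.ofReal ((g y - av L g (ix L y)) ^ 2) ≤
        ENNReal.ofReal (1 / L) * ∫⁻ t in Ioo 0 L, En g t)
    {B : Set (ℝ × ℝ)} {R η : ℝ} (h : Nice B R η) {K k : ℕ} (_hk : k ≤ K) :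
    volume {p : ℝ × ℝ × ℝ | p ∈ Q B ∧ p.1 ∈ Good (fB B) K ∧
      (Big B k (ix (rho k) p.2.1) p.1 ∨ Big B k (ix (rho k) p.2.2) p.1)} ≤
    ENNReal.ofReal (8 * 8 ^ k) * ∫⁻ t in Ioo (0 : ℝ) (2 / 4 ^ k),
      ∑ γ ∈ Finset.range (2 * 16 ^ k), En (col B k (γ : ℤ)) t := by
  have hsub : {p : ℝ × ℝ × ℝ | p ∈ Q B ∧ p.1 ∈ Good (fB B) K ∧
      (Big B k (ix (rho k) p.2.1) p.1 ∨ Big B k (ix (rho k) p.2.2) p.1)} ⊆
      ⋃ γ ∈ Finset.range (2 * 16 ^ k), (E1 B k (γ : ℤ) ∪ E2 B k (γ : ℤ)) := by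
    rintro ⟨y, x, x'⟩ ⟨⟨hx, hx', h1, h2⟩, hG, hb⟩
    simp only at hx hx' h1 h2 hG hb
    have a0 := h.x0 _ hx
    have a4 := h.x4 _ hx
    have b0 := h.x0 _ hx'
    have b4 := h.x4 _ hx'
    simp only at a0 a4 b0 b4
    rw [Set.mem_iUnion₂]
    rcases hb with hb | hb
    · obtain ⟨γ, hγ, hix, hl, hr⟩ := col_index k x a0 a4
      rw [hix] at hb
      exact ⟨γ, hγ, Or.inl ⟨mem_HH _ y hG hb, ⟨hl, hr, hx⟩, ⟨b0, b4, hx'⟩⟩⟩
    · obtain ⟨γ, hγ, hix, hl, hr⟩ := col_index k x' b0 b4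
      rw [hix] at hb
      exact ⟨γ, hγ, Or.inr ⟨mem_HH _ y hG hb, ⟨a0, a4, hx⟩, ⟨hl, hr, hx'⟩⟩⟩
  have hL : 0 < rho' k := by unfold rho'; positivity
  have hdev : ∀ γ : ℤ, ∫⁻ y, ENNReal.ofReal (dev B k γ y ^ 2) ≤
      ENNReal.ofReal (1 / rho' k) * ∫⁻ t in Ioo 0 (rho' k), En (col B k γ) t := by
    intro γ
    exact avg_var (col_meas h.meas k γ) (M := 4) (R := R) (fun y => rowLen_le h _ _ y)
      (fun y hy => rowLen_zero h _ _ y hy) hL
  calc volume {p : ℝ × ℝ × ℝ | p ∈ Q B ∧ p.1 ∈ Good (fB B) K ∧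
      (Big B k (ix (rho k) p.2.1) p.1 ∨ Big B k (ix (rho k) p.2.2) p.1)}
      ≤ volume (⋃ γ ∈ Finset.range (2 * 16 ^ k), (E1 B k (γ : ℤ) ∪ E2 B k (γ : ℤ))) :=
        measure_mono hsub
    _ ≤ ∑ γ ∈ Finset.range (2 * 16 ^ k), volume (E1 B k (γ : ℤ) ∪ E2 B k (γ : ℤ)) :=
        measure_biUnion_finset_le _ _
    _ ≤ ∑ γ ∈ Finset.range (2 * 16 ^ k), ENNReal.ofReal (8 * 8 ^ k) *
          ∫⁻ t in Ioo (0 : ℝ) (2 / 4 ^ k), En (col B k (γ : ℤ)) t := by
        apply Finset.sum_le_sum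
        intro γ _
        have e1 := vol_E1 h.meas k (γ : ℤ)
        have e2 := vol_E2 h.meas k (γ : ℤ)
        have e3 := hdev (γ : ℤ)
        calc volume (E1 B k (γ : ℤ) ∪ E2 B k (γ : ℤ))
            ≤ volume (E1 B k (γ : ℤ)) + volume (E2 B k (γ : ℤ)) := measure_union_le _ _
          _ ≤ (ENNReal.ofReal (8 * 2 ^ k) * ∫⁻ y, ENNReal.ofReal (dev B k γ y ^ 2)) +
              (ENNReal.ofReal (8 * 2 ^ k) * ∫⁻ y, ENNReal.ofReal (dev B k γ y ^ 2)) :=
              add_le_add e1 e2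
          _ = ENNReal.ofReal (16 * 2 ^ k) * ∫⁻ y, ENNReal.ofReal (dev B k γ y ^ 2) := by
              rw [← add_mul, ← ENNReal.ofReal_add (by positivity) (by positivity)]
              congr 2
              ring
          _ ≤ ENNReal.ofReal (16 * 2 ^ k) * (ENNReal.ofReal (1 / rho' k) *
              ∫⁻ t in Ioo 0 (rho' k), En (col B k γ) t) := by gcongr
          _ = ENNReal.ofReal (8 * 8 ^ k) *
              ∫⁻ t in Ioo (0 : ℝ) (2 / 4 ^ k), En (col B k (γ : ℤ)) t := by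
              rw [← mul_assoc, ← ENNReal.ofReal_mul (by positivity)]
              have : 16 * 2 ^ k * (1 / rho' k) = 8 * 8 ^ k := by
                unfold rho'
                have h8 : (8 : ℝ) ^ k = 2 ^ k * 4 ^ k := by
                  rw [← mul_pow]; norm_num
                rw [h8]
                field_simp
                norm_num
              rw [this]
              rfl
    _ = ENNReal.ofReal (8 * 8 ^ k) * ∑ γ ∈ Finset.range (2 * 16 ^ k),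
          ∫⁻ t in Ioo (0 : ℝ) (2 / 4 ^ k), En (col B k (γ : ℤ)) t := by
        rw [Finset.mul_sum]
    _ ≤ ENNReal.ofReal (8 * 8 ^ k) * ∫⁻ t in Ioo (0 : ℝ) (2 / 4 ^ k),
      ∑ γ ∈ Finset.range (2 * 16 ^ k), En (col B k (γ : ℤ)) t := by
        gcongr
        exact sum_le_lintegral _ _ _

end TaskU

end Pool.Agent.H270R2.UT
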