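import Pool.Agent.H270R2.UT.TaskV

/-! Task W : bad rows. -/

open MeasureTheory Set
open scoped ENNReal

namespace Pool.Agent.H270R2.UT

private lemma W_meas_ix (L : ℝ) : Measurable (fun y : ℝ => ix L y) := by
  unfold ix
  exact (measurable_id.div_const L).floor

private lemma W_meas_av (L : ℝ) (f : ℝ → ℝ) : Measurable (fun y : ℝ => av L f (ix L y)) :=
  (measurable_from_top (f := fun n : ℤ => av L f n)).comp (W_meas_ix L)

private lemma W_meas_av' (L : ℝ) (f : ℝ → ℝ) : Measurable (fun y : ℝ => av L f (ix L y + 1)) :=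
  (measurable_from_top (f := fun n : ℤ => av L f (n + 1))).comp (W_meas_ix L)

private lemma W_cell {L : ℝ} (hL : 0 < L) (n : ℤ) :
    {y : ℝ | ix L y = n} = Ico (L * (n : ℝ)) (L * ((n : ℝ) + 1)) := by
  ext y
  simp only [ix, mem_ofPred_eq, Int.floor_eq_iff, mem_Ico]
  rw [le_div_iff₀ hL, div_lt_iff₀ hL, mul_comm (n : ℝ) L, mul_comm ((n : ℝ) + 1) L]

private lemma W_cell_meas (L : ℝ) (n : ℤ) : MeasurableSet {y : ℝ | ix L y = n} :=
  (W_meas_ix L) (measurableSet_singleton n)

private lemma W_part (L : ℝ) (S : Set ℝ) (h : ℝ → ℝ≥0∞) :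
    ∫⁻ y in S, h y = ∑' n : ℤ, ∫⁻ y in {y | ix L y = n} ∩ S, h y := by
  have h1 : ∫⁻ y in S, h y = ∫⁻ y in ⋃ n : ℤ, {y | ix L y = n}, h y ∂(volume.restrict S) := by
    have : (⋃ n : ℤ, {y : ℝ | ix L y = n}) = univ := by
      ext y; simp
    rw [this, Measure.restrict_univ]
  rw [h1, lintegral_iUnion (fun n => W_cell_meas L n)]
  · apply tsum_congr
    intro n
    rw [Measure.restrict_restrict (W_cell_meas L n)]
  · intro i j hij
    rw [Function.onFun, Set.disjoint_left]
    intro y hy hy'
    exact hij (hy.symm.trans hy')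

/-- comparison of integrals over saturated sets -/
private lemma W_sat (L : ℝ) (S : Set ℝ) (hS : ∀ y ∈ S, ∀ y', ix L y' = ix L y → y' ∈ S)
    (h g : ℝ → ℝ≥0∞)
    (hb : ∀ y ∈ S, ∫⁻ z in {z | ix L z = ix L y}, h z ≤ ∫⁻ z in {z | ix L z = ix L y}, g z) :
    ∫⁻ y in S, h y ≤ ∫⁻ y in S, g y := by
  rw [W_part L S h, W_part L S g]
  apply ENNReal.tsum_le_tsum
  intro n
  by_cases hn : ∃ y ∈ S, ix L y = n
  · obtain ⟨y, hy, rfl⟩ := hn
    have : {z | ix L z = ix L y} ∩ S = {z | ix L z = ix L y} := by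
      apply inter_eq_left.2
      intro z hz
      exact hS y hy z hz
    rw [this]
    exact hb y hy
  · have : {z | ix L z = n} ∩ S = ∅ := by
      ext z
      simp only [mem_inter_iff, mem_ofPred_eq, mem_empty_iff_false, iff_false, not_and]
      intro hz hzS
      exact hn ⟨z, hzS, hz⟩
    rw [this]
    simp

private lemma W_jensen {g : ℝ → ℝ} (hg : Measurable g) {M : ℝ} (hM : ∀ y, |g y| ≤ M)
    {L : ℝ} (hL : 0 < L) (n : ℤ) (c : ℝ) :
    ENNReal.ofReal (L * (av L g n - c) ^ 2) ≤
      ∫⁻ z in {z | ix L z = n}, ENNReal.ofReal ((g z - c) ^ 2) := by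
  rw [W_cell hL]
  set u : ℝ := L * (n : ℝ) with hu
  set v : ℝ := L * ((n : ℝ) + 1) with hv
  have huv : v - u = L := by rw [hu, hv]; ring
  have huv' : u ≤ v := by linarith
  set m : ℝ := av L g n with hm
  have hM0 : 0 ≤ M := (abs_nonneg _).trans (hM 0)
  have hint : IntegrableOn g (Ico u v) := by
    apply Measure.integrableOn_of_bounded (M := M)
    · simp
    · exact hg.aestronglyMeasurable
    · exact Filter.Eventually.of_forall fun y => by rw [Real.norm_eq_abs]; exact hM y
  have hint2 : IntegrableOn (fun z => (g z - c) ^ 2) (Ico u v) := by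
    refine Measure.integrableOn_of_bounded (M := (M + |c|) ^ 2) (by simp)
      ((hg.sub_const c).pow_const 2).aestronglyMeasurable
      (Filter.Eventually.of_forall fun y => ?_)
    rw [Real.norm_eq_abs, abs_of_nonneg (sq_nonneg _), ← sq_abs (g y - c)]
    apply pow_le_pow_left₀ (abs_nonneg _)
    have h1 := abs_sub (g y) c
    linarith [hM y]
  rw [← ofReal_integral_eq_lintegral_ofReal hint2
    (Filter.Eventually.of_forall fun y => sq_nonneg _)]
  apply ENNReal.ofReal_le_ofReal
  have hmean : ∫ z in Ico u v, g z = L * m := by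
    rw [hm, av, integral_Ico_eq_integral_Ioc, ← intervalIntegral.integral_of_le huv', ← hu, ← hv]
    field_simp
  have h1 : ∫ z in Ico u v, ((m - c) ^ 2 + 2 * (m - c) * (g z - m)) = L * (m - c) ^ 2 := by
    rw [integral_add, integral_const_mul, integral_sub hint, hmean]
    · simp [huv]
      rw [max_eq_left hL.le]; ring
    · exact integrableOn_const (by simp)
    · exact integrableOn_const (by simp)
    · exact (hint.sub (integrableOn_const (by simp))).const_mul _
  rw [← h1]
  apply integral_mono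
  · exact (integrableOn_const (by simp)).add
      ((hint.sub (integrableOn_const (by simp))).const_mul _)
  · exact hint2
  · intro z
    simp only
    nlinarith [sq_nonneg (g z - m)]

private lemma W_ix_div {j k : ℕ} (hjk : j ≤ k) (y : ℝ) :
    ix (rho' j) y = ix (rho' k) y / ((4 ^ (k - j) : ℕ) : ℤ) := by
  unfold ix rho'
  rw [← Int.floor_div_natCast]
  congr 1
  obtain ⟨d, rfl⟩ := Nat.exists_eq_add_of_le hjk
  rw [Nat.add_sub_cancel_left]
  push_cast
  rw [pow_add]
  field_simp

private lemma W_nest {j k : ℕ} (hjk : j ≤ k) {y y' : ℝ} (h : ix (rho' k) y' = ix (rho' k) y) :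
    ix (rho' j) y' = ix (rho' j) y := by
  rw [W_ix_div hjk, W_ix_div hjk, h]

private lemma W_rho0 : rho' 0 = 2 := by simp [rho']

private lemma W_rho_pos (k : ℕ) : 0 < rho' k := by unfold rho'; positivity

private lemma W_sq (a b : ℝ) :
    ENNReal.ofReal (a ^ 2) ≤ 2 * ENNReal.ofReal ((a - b) ^ 2) + ENNReal.ofReal (2 * b ^ 2) := by
  rw [show (2 : ℝ≥0∞) = ENNReal.ofReal 2 by simp, ← ENNReal.ofReal_mul (by norm_num),
    ← ENNReal.ofReal_add (by positivity) (by positivity)]
  apply ENNReal.ofReal_le_ofReal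
  nlinarith [sq_nonneg (a - 2 * b)]

theorem bad_energy_of {f : ℝ → ℝ} (hf : Measurable f) {M : ℝ} (h0 : ∀ y, 0 ≤ f y)
    (hM : ∀ y, |f y| ≤ M) (K : ℕ)
    (hV : ∫⁻ y, ENNReal.ofReal ((f y - av 2 f (ix 2 y)) ^ 2) ≤
      ENNReal.ofReal (1 / 2) * ∫⁻ t in Ioo 0 2, En f t)
    (hS : ∑' n : ℤ, ENNReal.ofReal ((av 2 f n - av 2 f (n + 1)) ^ 2) ≤
      ENNReal.ofReal (1 / 2 ^ 2) * ∫⁻ t in Ioo 0 (2 * 2), En f t) :
    ∫⁻ y in (Good f K)ᶜ, ENNReal.ofReal (f y ^ 2) ≤ 9 * ∫⁻ t in Ioo (0 : ℝ) 4, En f t := by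
  have hav0 : ∀ (L : ℝ), 0 < L → ∀ n : ℤ, 0 ≤ av L f n := by
    intro L hL n
    unfold av
    apply mul_nonneg (by positivity)
    apply intervalIntegral.integral_nonneg (by nlinarith)
    intro u _
    exact h0 u
  set F : ℝ → ℝ := fun y => av 2 f (ix 2 y) with hF
  have hF0 : ∀ y, 0 ≤ F y := fun y => hav0 2 (by norm_num) _
  have hFm : Measurable F := W_meas_av 2 f
  set g : ℝ → ℝ≥0∞ := fun y => ENNReal.ofReal ((f y - F y) ^ 2) with hg
  set h : ℝ → ℝ≥0∞ := fun y => ENNReal.ofReal (f y ^ 2) with hh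
  have hgm : Measurable g := ((hf.sub hFm).pow_const 2).ennreal_ofReal
  set V : ℝ≥0∞ := ∫⁻ y, g y with hVdef
  -- the three sets
  set A : Set ℝ := {y | 2 * F y < f y ∨ f y = 0} with hA
  set B : ℕ → Set ℝ := fun k => {y | 2 * F y < av (rho' k) f (ix (rho' k) y) ∧
    ∀ j < k, av (rho' j) f (ix (rho' j) y) ≤ 2 * F y} with hB
  set C : Set ℝ := {y | 2 * av 2 f (ix 2 y + 1) < F y ∨ 2 * F y < av 2 f (ix 2 y + 1)} with hC
  have hAm : MeasurableSet A :=
    (measurableSet_lt (hFm.const_mul 2) hf).union (measurableSet_eq_fun hf measurable_const)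
  have hBm : ∀ k, MeasurableSet (B k) := by
    intro k
    apply (measurableSet_lt (hFm.const_mul 2) (W_meas_av (rho' k) f)).inter
    have : {y | ∀ j < k, av (rho' j) f (ix (rho' j) y) ≤ 2 * F y} =
        ⋂ j, ⋂ (_ : j < k), {y | av (rho' j) f (ix (rho' j) y) ≤ 2 * F y} := by
      ext y; simp
    have hmm : MeasurableSet {y | ∀ j < k, av (rho' j) f (ix (rho' j) y) ≤ 2 * F y} := by
      rw [this]
      exact MeasurableSet.iInter fun j => MeasurableSet.iInter fun _ =>
        measurableSet_le (W_meas_av (rho' j) f) (hFm.const_mul 2)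
    exact hmm
  have hBd : Pairwise (Function.onFun Disjoint B) := by
    intro i j hij
    rw [Function.onFun, Set.disjoint_left]
    intro y hy hy'
    rcases lt_or_gt_of_ne hij with hlt | hlt
    · exact absurd (hy'.2 i hlt) (not_le.2 hy.1)
    · exact absurd (hy.2 j hlt) (not_le.2 hy'.1)
  have hcover : (Good f K)ᶜ ⊆ A ∪ ((⋃ k ∈ Finset.range (K + 1), B k) ∪ C) := by
    intro y hy
    by_contra hcon
    rw [mem_union, mem_union, not_or, not_or] at hcon
    obtain ⟨h1, h2, h3⟩ := hcon
    apply hy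
    rw [hA] at h1
    simp only [mem_ofPred_eq, not_or, not_lt] at h1
    rw [hC] at h3
    simp only [mem_ofPred_eq, not_or, not_lt] at h3
    have hpos : 0 < f y := lt_of_le_of_ne (h0 y) (Ne.symm h1.2)
    refine ⟨?_, h1.1, ?_, h3.1, h3.2⟩
    · have := h1.1
      have h4 := hF0 y
      show 0 < F y
      linarith
    · by_contra hcon
      push Not at hcon
      have hex : ∃ k, k ≤ K ∧ 2 * F y < av (rho' k) f (ix (rho' k) y) := hcon
      classical
      set k0 := Nat.find hex with hk0
      have hk1 := Nat.find_spec hex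
      apply h2
      rw [mem_iUnion₂]
      refine ⟨k0, Finset.mem_range.2 (by omega), hk1.2, ?_⟩
      intro j hj
      have h5 := Nat.find_min hex hj
      rw [not_and] at h5
      exact not_lt.1 (h5 (by omega))
  -- part A
  have hpA : ∫⁻ y in A, h y ≤ 4 * V := by
    calc ∫⁻ y in A, h y ≤ ∫⁻ y in A, 4 * g y := by
          apply setLIntegral_mono' hAm
          intro y hy
          simp only [hh, hg]
          rw [show (4 : ℝ≥0∞) = ENNReal.ofReal 4 by simp, ← ENNReal.ofReal_mul (by norm_num)]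
          apply ENNReal.ofReal_le_ofReal
          rcases hy with hy | hy
          · have h4 := hF0 y
            nlinarith [h0 y]
          · rw [hy]; nlinarith [hF0 y]
      _ ≤ ∫⁻ y, 4 * g y := setLIntegral_le_lintegral _ _
      _ = 4 * V := lintegral_const_mul 4 hgm
  -- part B
  have hpB : ∫⁻ y in (⋃ k ∈ Finset.range (K + 1), B k), h y ≤ 4 * V := by
    have hk : ∀ k, ∫⁻ y in B k, h y ≤ ∫⁻ y in B k, 4 * g y := by
      intro k
      apply W_sat (rho' k)
      · intro y hy y' hyy'
        have hFF : F y' = F y := by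
          simp only [hF]
          have := W_nest (Nat.zero_le k) hyy'
          rw [W_rho0] at this
          rw [this]
        refine ⟨?_, ?_⟩
        · rw [hFF, hyy']; exact hy.1
        · intro j hj
          rw [hFF, W_nest hj.le hyy']
          exact hy.2 j hj
      · intro y hy
        have hFF : ∀ z, ix (rho' k) z = ix (rho' k) y → F z = F y := by
          intro z hz
          simp only [hF]
          have := W_nest (Nat.zero_le k) hz
          rw [W_rho0] at this
          rw [this]
        have hms := W_cell_meas (rho' k) (ix (rho' k) y)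
        have hvol : volume {z | ix (rho' k) z = ix (rho' k) y} = ENNReal.ofReal (rho' k) := by
          rw [W_cell (W_rho_pos k), Real.volume_Ico]
          congr 1; ring
        have hjen := W_jensen hf hM (W_rho_pos k) (ix (rho' k) y) (F y)
        have heq : ∫⁻ z in {z | ix (rho' k) z = ix (rho' k) y},
            ENNReal.ofReal ((f z - F y) ^ 2) = ∫⁻ z in {z | ix (rho' k) z = ix (rho' k) y}, g z := by
          apply setLIntegral_congr_fun hms
          intro z hz
          simp only [hg]
          rw [hFF z hz]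
        rw [heq] at hjen
        calc ∫⁻ z in {z | ix (rho' k) z = ix (rho' k) y}, h z
            ≤ ∫⁻ z in {z | ix (rho' k) z = ix (rho' k) y},
                (2 * g z + ENNReal.ofReal (2 * F y ^ 2)) := by
              apply setLIntegral_mono' hms
              intro z hz
              simp only [hh, hg]
              rw [hFF z hz]
              exact W_sq _ _
          _ = 2 * (∫⁻ z in {z | ix (rho' k) z = ix (rho' k) y}, g z) +
                ENNReal.ofReal (2 * F y ^ 2) * ENNReal.ofReal (rho' k) := by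
              rw [lintegral_add_right _ measurable_const, lintegral_const_mul 2 hgm,
                setLIntegral_const, hvol]
          _ ≤ 2 * (∫⁻ z in {z | ix (rho' k) z = ix (rho' k) y}, g z) +
                2 * (∫⁻ z in {z | ix (rho' k) z = ix (rho' k) y}, g z) := by
              apply add_le_add_right
              refine le_trans ?_ (mul_le_mul_right hjen 2)
              rw [show (2 : ℝ≥0∞) = ENNReal.ofReal 2 by simp,
                ← ENNReal.ofReal_mul (p := 2 * F y ^ 2) (mul_nonneg (by norm_num) (sq_nonneg (F y))),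
                ← ENNReal.ofReal_mul (p := 2) (by norm_num)]
              apply ENNReal.ofReal_le_ofReal
              have hy1 := hy.1
              have h4 := hF0 y
              have h5 : F y ^ 2 ≤ (av (rho' k) f (ix (rho' k) y) - F y) ^ 2 := by
                apply pow_le_pow_left₀ h4
                linarith
              have h6 := W_rho_pos k
              nlinarith
          _ = ∫⁻ z in {z | ix (rho' k) z = ix (rho' k) y}, 4 * g z := by
              rw [lintegral_const_mul 4 hgm, ← add_mul]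
              norm_num
    calc ∫⁻ y in (⋃ k ∈ Finset.range (K + 1), B k), h y
        = ∑ k ∈ Finset.range (K + 1), ∫⁻ y in B k, h y :=
          lintegral_biUnion_finset (fun i _ j _ hij => hBd hij) (fun k _ => hBm k) _
      _ ≤ ∑ k ∈ Finset.range (K + 1), ∫⁻ y in B k, 4 * g y := Finset.sum_le_sum fun k _ => hk k
      _ = ∫⁻ y in (⋃ k ∈ Finset.range (K + 1), B k), 4 * g y :=
          (lintegral_biUnion_finset (fun i _ j _ hij => hBd hij) (fun k _ => hBm k) _).symm
      _ ≤ ∫⁻ y, 4 * g y := setLIntegral_le_lintegral _ _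
      _ = 4 * V := lintegral_const_mul 4 hgm
  -- part C
  have hpC : ∫⁻ y in C, h y ≤ 2 * V + 16 * ∑' n : ℤ,
      ENNReal.ofReal ((av 2 f n - av 2 f (n + 1)) ^ 2) := by
    rw [W_part 2 C h]
    have hVp : V = ∑' n : ℤ, ∫⁻ y in {y | ix 2 y = n}, g y := by
      have := W_part 2 univ g
      rw [Measure.restrict_univ] at this
      rw [hVdef, this]
      apply tsum_congr
      intro n
      rw [inter_univ]
    rw [hVp, ← ENNReal.tsum_mul_left, ← ENNReal.tsum_mul_left, ← ENNReal.tsum_add]
    apply ENNReal.tsum_le_tsum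
    intro n
    by_cases hn : 2 * av 2 f (n + 1) < av 2 f n ∨ 2 * av 2 f n < av 2 f (n + 1)
    · have hms := W_cell_meas 2 n
      have hvol : volume {z | ix 2 z = n} = ENNReal.ofReal 2 := by
        rw [W_cell (by norm_num : (0:ℝ) < 2), Real.volume_Ico]
        congr 1; ring
      calc ∫⁻ y in {y | ix 2 y = n} ∩ C, h y ≤ ∫⁻ y in {y | ix 2 y = n}, h y :=
            lintegral_mono_set inter_subset_left
        _ ≤ ∫⁻ y in {y | ix 2 y = n}, (2 * g y + ENNReal.ofReal (2 * (av 2 f n) ^ 2)) := by
            apply setLIntegral_mono' hms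
            intro z hz
            have hz' : ix 2 z = n := hz
            simp only [hh, hg, hF]
            rw [hz']
            exact W_sq _ _
        _ = 2 * (∫⁻ z in {z | ix 2 z = n}, g z) +
                ENNReal.ofReal (2 * (av 2 f n) ^ 2) * ENNReal.ofReal 2 := by
              rw [lintegral_add_right _ measurable_const, lintegral_const_mul 2 hgm,
                setLIntegral_const, hvol]
        _ ≤ _ := by
            apply add_le_add_right
            rw [show (16 : ℝ≥0∞) = ENNReal.ofReal 16 by simp,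
              ← ENNReal.ofReal_mul (p := 2 * (av 2 f n) ^ 2)
                (mul_nonneg (by norm_num) (sq_nonneg _)),
              ← ENNReal.ofReal_mul (p := 16) (by norm_num)]
            apply ENNReal.ofReal_le_ofReal
            have h1 := hav0 2 (by norm_num) n
            have h2 := hav0 2 (by norm_num) (n + 1)
            rcases hn with hn | hn
            · nlinarith
            · nlinarith
    · have : {y | ix 2 y = n} ∩ C = ∅ := by
        ext z
        simp only [mem_inter_iff, mem_ofPred_eq, mem_empty_iff_false, iff_false, not_and]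
        intro hz hzC
        apply hn
        rw [hC] at hzC
        simp only [mem_ofPred_eq, hF, hz] at hzC
        exact hzC
      rw [this]
      simp
  -- total
  set I2 : ℝ≥0∞ := ∫⁻ t in Ioo 0 2, En f t with hI2
  set I4 : ℝ≥0∞ := ∫⁻ t in Ioo (0 : ℝ) 4, En f t with hI4
  have hI : I2 ≤ I4 := lintegral_mono_set (Ioo_subset_Ioo_right (by norm_num))
  have hV' : 10 * V ≤ 5 * I4 := by
    calc 10 * V ≤ 10 * (ENNReal.ofReal (1 / 2) * I2) := by gcongr
      _ = 5 * I2 := by
          rw [← mul_assoc, show (10 : ℝ≥0∞) = ENNReal.ofReal 10 by simp,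
            ← ENNReal.ofReal_mul (by norm_num)]
          norm_num
      _ ≤ 5 * I4 := by gcongr
  have hS' : 16 * (∑' n : ℤ, ENNReal.ofReal ((av 2 f n - av 2 f (n + 1)) ^ 2)) ≤ 4 * I4 := by
    calc _ ≤ 16 * (ENNReal.ofReal (1 / 2 ^ 2) * ∫⁻ t in Ioo 0 (2 * 2), En f t) := by gcongr
      _ = 4 * I4 := by
          rw [← mul_assoc, show (16 : ℝ≥0∞) = ENNReal.ofReal 16 by simp,
            ← ENNReal.ofReal_mul (by norm_num), hI4]
          norm_num
  calc ∫⁻ y in (Good f K)ᶜ, h y
      ≤ ∫⁻ y in A ∪ ((⋃ k ∈ Finset.range (K + 1), B k) ∪ C), h y := lintegral_mono_set hcover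
    _ ≤ (∫⁻ y in A, h y) + (∫⁻ y in ((⋃ k ∈ Finset.range (K + 1), B k) ∪ C), h y) :=
        lintegral_union_le _ _ _
    _ ≤ (∫⁻ y in A, h y) + ((∫⁻ y in (⋃ k ∈ Finset.range (K + 1), B k), h y) +
          (∫⁻ y in C, h y)) := add_le_add_right (lintegral_union_le _ _ _) _
    _ ≤ 4 * V + (4 * V + (2 * V + 16 * ∑' n : ℤ,
      ENNReal.ofReal ((av 2 f n - av 2 f (n + 1)) ^ 2))) :=
        add_le_add hpA (add_le_add hpB hpC)
    _ = 10 * V + 16 * ∑' n : ℤ, ENNReal.ofReal ((av 2 f n - av 2 f (n + 1)) ^ 2) := by ring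
    _ ≤ 5 * I4 + 4 * I4 := add_le_add hV' hS'
    _ = 9 * I4 := by ring

theorem bad_energy {f : ℝ → ℝ} (hf : Measurable f) {M R : ℝ} (h0 : ∀ y, 0 ≤ f y)
    (hM : ∀ y, |f y| ≤ M) (hR : ∀ y, R < |y| → f y = 0) (K : ℕ) :
    ∫⁻ y in (Good f K)ᶜ, ENNReal.ofReal (f y ^ 2) ≤ 9 * ∫⁻ t in Ioo (0 : ℝ) 4, En f t :=
  bad_energy_of hf h0 hM K (avg_var hf hM hR (by norm_num : (0 : ℝ) < 2))
    (neighbour_sum hf hM hR (by norm_num : (0 : ℝ) < 2))

end Pool.Agent.H270R2.UT
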