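import Pool.Agent.H270R2.UT.TaskT
import Pool.Agent.H270R2.UT.TaskU
import Pool.Agent.H270R2.UT.TaskW

/-!
# Task A : assembly of the combinatorial inequality
-/

open MeasureTheory Set
open scoped ENNReal

namespace Pool.Agent.H270R2.UT

theorem type2 {B : Set (ℝ × ℝ)} {R η : ℝ} (h : Nice B R η) {K k : ℕ} (hk : k ≤ K) :
    volume {p : ℝ × ℝ × ℝ | p ∈ Q B ∧ p.1 ∈ Good (fB B) K ∧
      (Big B k (ix (rho k) p.2.1) p.1 ∨ Big B k (ix (rho k) p.2.2) p.1)} ≤
    ENNReal.ofReal (8 * 8 ^ k) * ∫⁻ t in Ioo (0 : ℝ) (2 / 4 ^ k),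
      ∑ γ ∈ Finset.range (2 * 16 ^ k), En (col B k (γ : ℤ)) t :=
  TaskU.type2_of (fun hg _ _ hM hR _ hL => avg_var hg hM hR hL) h hk

end Pool.Agent.H270R2.UT

namespace Pool.Agent.H270R2.UT.TA

lemma rho_pos (k : ℕ) : 0 < rho k := by unfold rho; positivity

lemma rho'_pos (k : ℕ) : 0 < rho' k := by unfold rho'; positivity

lemma rho_succ (k : ℕ) : rho (k + 1) = rho k / 16 := by
  unfold rho; rw [pow_succ]; field_simp

lemma rho_zero : rho 0 = 2 := by norm_num [rho]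

lemma ix_succ (k : ℕ) (y : ℝ) : ix (rho (k + 1)) y / 16 = ix (rho k) y := by
  have h : y / rho k = y / rho (k + 1) / ((16 : ℕ) : ℝ) := by
    rw [rho_succ]
    have := (rho_pos k).ne'
    push_cast
    field_simp
  unfold ix
  rw [h, Int.floor_div_natCast]
  rfl

lemma ix_zero (k : ℕ) (y : ℝ) : ix (rho k) y / 16 ^ k = ix 2 y := by
  have h : y / 2 = y / rho k / ((16 ^ k : ℕ) : ℝ) := by
    unfold rho
    push_cast
    field_simp
  unfold ix
  rw [h, Int.floor_div_natCast]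
  push_cast
  rfl

lemma meas_ix (L : ℝ) : Measurable (ix L) := by
  unfold ix
  exact Int.measurable_floor.comp (measurable_id.div_const L)

lemma meas_av (L : ℝ) (f : ℝ → ℝ) : Measurable (fun y => av L f (ix L y)) :=
  (measurable_from_top (f := av L f)).comp (meas_ix L)

lemma meas_rowLen {B : Set (ℝ × ℝ)} (hB : MeasurableSet B) (u v : ℝ) :
    Measurable (rowLen B u v) := by
  have hS : MeasurableSet ({p : ℝ × ℝ | u ≤ p.1 ∧ p.1 < v} ∩ B) := by
    apply MeasurableSet.inter _ hB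
    exact (measurableSet_le measurable_const measurable_fst).inter
      (measurableSet_lt measurable_fst measurable_const)
  have h := (measurable_measure_prodMk_right (μ := (volume : Measure ℝ)) hS).ennreal_toReal
  have e : rowLen B u v = fun y => (volume ((fun x : ℝ => (x, y)) ⁻¹'
      ({p : ℝ × ℝ | u ≤ p.1 ∧ p.1 < v} ∩ B))).toReal := by
    funext y
    unfold rowLen
    congr 2
    ext x
    simp [and_assoc]
  rw [e]; exact h

lemma rowLen_nonneg (B : Set (ℝ × ℝ)) (u v y : ℝ) : 0 ≤ rowLen B u v y := ENNReal.toReal_nonneg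

lemma rowLen_le (B : Set (ℝ × ℝ)) {u v : ℝ} (huv : u ≤ v) (y : ℝ) : rowLen B u v y ≤ v - u := by
  unfold rowLen
  have h : volume {x : ℝ | u ≤ x ∧ x < v ∧ (x, y) ∈ B} ≤ ENNReal.ofReal (v - u) := by
    rw [← Real.volume_Ico]
    exact measure_mono (fun x hx => ⟨hx.1, hx.2.1⟩)
  calc _ ≤ (ENNReal.ofReal (v - u)).toReal := ENNReal.toReal_mono ENNReal.ofReal_ne_top h
    _ = _ := ENNReal.toReal_ofReal (by linarith)

lemma fB_meas {B : Set (ℝ × ℝ)} (hB : MeasurableSet B) : Measurable (fB B) := meas_rowLen hB 0 4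

lemma fB_nonneg (B : Set (ℝ × ℝ)) (y : ℝ) : 0 ≤ fB B y := rowLen_nonneg B 0 4 y

lemma fB_le (B : Set (ℝ × ℝ)) (y : ℝ) : fB B y ≤ 4 := by
  have := rowLen_le B (u := 0) (v := 4) (by norm_num) y
  unfold fB; linarith

lemma fB_abs (B : Set (ℝ × ℝ)) (y : ℝ) : |fB B y| ≤ 4 := by
  rw [abs_of_nonneg (fB_nonneg B y)]; exact fB_le B y

lemma fB_zero {B : Set (ℝ × ℝ)} {y : ℝ} (h : ∀ x, (x, y) ∉ B) : fB B y = 0 := by
  unfold fB rowLen
  have : {x : ℝ | 0 ≤ x ∧ x < 4 ∧ (x, y) ∈ B} = ∅ := by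
    ext x; simp [h x]
  rw [this]; simp

lemma fB_far {B : Set (ℝ × ℝ)} {R η : ℝ} (h : Nice B R η) (y : ℝ) (hy : R < |y|) :
    fB B y = 0 := by
  apply fB_zero
  intro x hx
  have := h.bdd _ hx
  simp at this
  linarith

lemma ii {f : ℝ → ℝ} (hf : Measurable f) {M : ℝ} (hM : ∀ y, |f y| ≤ M) (a b : ℝ) :
    IntervalIntegrable f volume a b := by
  rw [intervalIntegrable_iff]
  apply Measure.integrableOn_of_bounded (M := M)
  · simp
  · exact hf.aestronglyMeasurable
  · exact Filter.Eventually.of_forall hM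

lemma av_nonneg {f : ℝ → ℝ} (h0 : ∀ y, 0 ≤ f y) {L : ℝ} (hL : 0 < L) (n : ℤ) :
    0 ≤ av L f n := by
  unfold av
  apply mul_nonneg (by positivity)
  apply intervalIntegral.integral_nonneg
  · nlinarith
  · intro u _; exact h0 u

/-- a child average is at most 16 times the average of the parent -/
lemma av_child {f : ℝ → ℝ} (hf : Measurable f) {M : ℝ} (h0 : ∀ y, 0 ≤ f y)
    (hM : ∀ y, |f y| ≤ M) {L : ℝ} (hL : 0 < L) (n : ℤ) :
    av (L / 16) f n ≤ 16 * av L f (n / 16) := by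
  unfold av
  have h1 : 16 * (n / 16) ≤ n := by omega
  have h2 : n + 1 ≤ 16 * (n / 16 + 1) := by omega
  have h1' : (16 : ℝ) * ((n / 16 : ℤ) : ℝ) ≤ n := by exact_mod_cast h1
  have h2' : (n : ℝ) + 1 ≤ 16 * (((n / 16 : ℤ) : ℝ) + 1) := by exact_mod_cast h2
  have key : ∫ z in (L / 16 * (n : ℝ))..(L / 16 * ((n : ℝ) + 1)), f z ≤
      ∫ z in (L * ((n / 16 : ℤ) : ℝ))..(L * (((n / 16 : ℤ) : ℝ) + 1)), f z := by
    apply intervalIntegral.integral_mono_interval
    · nlinarith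
    · nlinarith
    · nlinarith
    · exact Filter.Eventually.of_forall h0
    · exact ii hf hM _ _
  calc 1 / (L / 16) * ∫ z in (L / 16 * (n : ℝ))..(L / 16 * ((n : ℝ) + 1)), f z
      ≤ 1 / (L / 16) * ∫ z in (L * ((n / 16 : ℤ) : ℝ))..(L * (((n / 16 : ℤ) : ℝ) + 1)), f z := by
        gcongr
    _ = _ := by field_simp

/-- telescoping -/
lemma tele (a : ℕ → ℝ) {F : ℝ} (hF : 0 < F) (h0 : a 0 = F) (K : ℕ) (hK : a K = 0) :
    1 ≤ 2 * ∑ k ∈ Finset.range K, (if a k ≤ 2 * F then |a (k + 1) - a k| / F else 0) := by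
  have key : ∀ m, 1 / 2 ≤ (∑ k ∈ Finset.range m,
        (if a k ≤ 2 * F then |a (k + 1) - a k| / F else 0)) ∨
      |a m - F| ≤ F * ∑ k ∈ Finset.range m,
        (if a k ≤ 2 * F then |a (k + 1) - a k| / F else 0) := by
    intro m
    induction m with
    | zero => right; simp [h0]
    | succ m ih =>
      rw [Finset.sum_range_succ]
      set S := ∑ k ∈ Finset.range m, (if a k ≤ 2 * F then |a (k + 1) - a k| / F else 0)
      have hnn : 0 ≤ (if a m ≤ 2 * F then |a (m + 1) - a m| / F else 0) := by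
        split_ifs
        · positivity
        · exact le_rfl
      by_cases hS : 1 / 2 ≤ S
      · left; linarith
      · right
        rcases ih with h | h
        · exact absurd h hS
        · push Not at hS
          have h1 : |a m - F| ≤ F * (1 / 2) := h.trans (by nlinarith)
          have h2 : a m ≤ 2 * F := by
            have := (abs_le.mp h1).2
            linarith
          rw [if_pos h2, mul_add, mul_div_cancel₀ _ hF.ne']
          calc |a (m + 1) - F| = |(a m - F) + (a (m + 1) - a m)| := by congr 1; ring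
            _ ≤ |a m - F| + |a (m + 1) - a m| := abs_add_le _ _
            _ ≤ _ := by linarith
  rcases key K with h | h
  · linarith
  · rw [hK, zero_sub, abs_neg, abs_of_pos hF] at h
    have : 1 ≤ ∑ k ∈ Finset.range K, (if a k ≤ 2 * F then |a (k + 1) - a k| / F else 0) := by
      by_contra hc
      push Not at hc
      nlinarith
    linarith

/-- the quotients `g_{k+1}(n)` -/
noncomputable def gq (f : ℝ → ℝ) (k : ℕ) (n : ℤ) : ℝ :=
  if av (rho k) f (n / 16) ≤ 2 * av 2 f (n / 16 ^ (k + 1)) then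
    |av (rho (k + 1)) f n - av (rho k) f (n / 16)| / av 2 f (n / 16 ^ (k + 1)) else 0

lemma gq_nonneg {f : ℝ → ℝ} (h0 : ∀ y, 0 ≤ f y) (k : ℕ) (n : ℤ) : 0 ≤ gq f k n := by
  unfold gq
  split_ifs
  · exact div_nonneg (abs_nonneg _) (av_nonneg h0 (by norm_num) _)
  · exact le_rfl

lemma gq_le {f : ℝ → ℝ} (hf : Measurable f) {M : ℝ} (h0 : ∀ y, 0 ≤ f y)
    (hM : ∀ y, |f y| ≤ M) (k : ℕ) (n : ℤ) : gq f k n ≤ 32 := by
  unfold gq
  split_ifs with h
  · have hF := av_nonneg h0 (by norm_num : (0 : ℝ) < 2) (n / 16 ^ (k + 1))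
    have hp := av_nonneg h0 (rho_pos k) (n / 16)
    have hc := av_nonneg h0 (rho_pos (k + 1)) n
    have hcp := av_child hf h0 hM (rho_pos k) n
    rw [← rho_succ] at hcp
    rcases hF.eq_or_lt with h' | h'
    · rw [← h']; simp
    · rw [div_le_iff₀ h', abs_le]
      constructor <;> nlinarith
  · norm_num

/-- the pairs on a good row -/
def GG (B : Set (ℝ × ℝ)) (K : ℕ) : Set (ℝ × ℝ × ℝ) := {p | p ∈ Q B ∧ p.1 ∈ Good (fB B) K}

/-- second type: one of the columns is big -/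
def A2 (B : Set (ℝ × ℝ)) (K k : ℕ) : Set (ℝ × ℝ × ℝ) :=
  {p : ℝ × ℝ × ℝ | p ∈ Q B ∧ p.1 ∈ Good (fB B) K ∧
      (Big B k (ix (rho k) p.2.1) p.1 ∨ Big B k (ix (rho k) p.2.2) p.1)}

/-- first type -/
def A1 (B : Set (ℝ × ℝ)) (K k : ℕ) (n : ℤ) : Set (ℝ × ℝ × ℝ) :=
  {p : ℝ × ℝ × ℝ | p ∈ Q B ∧ p.1 ∈ Good (fB B) K ∧
      ¬ Big B k (ix (rho k) p.2.1) p.1 ∧ ¬ Big B k (ix (rho k) p.2.2) p.1 ∧
      ix (rho k) (p.1 + 2 / (p.2.2 - p.2.1)) = n}

lemma meas_Q {B : Set (ℝ × ℝ)} (hB : MeasurableSet B) : MeasurableSet (Q B) := by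
  unfold Q
  apply MeasurableSet.inter (s₁ := {p : ℝ × ℝ × ℝ | (p.2.1, p.1) ∈ B})
  · exact (by fun_prop : Measurable (fun p : ℝ × ℝ × ℝ => (p.2.1, p.1))) hB
  apply MeasurableSet.inter (s₁ := {p : ℝ × ℝ × ℝ | (p.2.2, p.1) ∈ B})
  · exact (by fun_prop : Measurable (fun p : ℝ × ℝ × ℝ => (p.2.2, p.1))) hB
  have hd : Measurable (fun p : ℝ × ℝ × ℝ => p.2.2 - p.2.1) := by fun_prop
  apply MeasurableSet.inter (s₁ := {p : ℝ × ℝ × ℝ | 1 ≤ p.2.2 - p.2.1})
  · exact measurableSet_le measurable_const hd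
  · exact measurableSet_le hd measurable_const

lemma meas_Good {f : ℝ → ℝ} (hf : Measurable f) (K : ℕ) : MeasurableSet (Good f K) := by
  have h2 := meas_av 2 f
  have h2' : Measurable (fun y => av 2 f (ix 2 y + 1)) :=
    (measurable_from_top (f := fun n : ℤ => av 2 f (n + 1))).comp (meas_ix 2)
  have e : Good f K = {y | 0 < av 2 f (ix 2 y)} ∩ ({y | f y ≤ 2 * av 2 f (ix 2 y)} ∩
      ((⋂ k ∈ Finset.range (K + 1),
          {y | av (rho' k) f (ix (rho' k) y) ≤ 2 * av 2 f (ix 2 y)}) ∩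
      ({y | av 2 f (ix 2 y) ≤ 2 * av 2 f (ix 2 y + 1)} ∩
        {y | av 2 f (ix 2 y + 1) ≤ 2 * av 2 f (ix 2 y)}))) := by
    ext y
    simp [Good]
  rw [e]
  refine (measurableSet_lt measurable_const h2).inter
    ((measurableSet_le hf (h2.const_mul 2)).inter (MeasurableSet.inter ?_
      ((measurableSet_le h2 (h2'.const_mul 2)).inter (measurableSet_le h2' (h2.const_mul 2)))))
  exact Finset.measurableSet_biInter _
    (fun k _ => measurableSet_le (meas_av _ f) (h2.const_mul 2))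

lemma meas_Big {B : Set (ℝ × ℝ)} (hB : MeasurableSet B) (k : ℕ) (γ : ℤ) :
    MeasurableSet {y | Big B k γ y} := by
  have hc : Measurable (col B k γ) := meas_rowLen hB _ _
  have h2 := meas_av 2 (fB B)
  have h3 := meas_av (rho' k) (col B k γ)
  exact (measurableSet_lt (h2.div_const _) hc).inter (measurableSet_lt (h3.const_mul 2) hc)

lemma meas_Big' {B : Set (ℝ × ℝ)} (hB : MeasurableSet B) (k : ℕ) {φ : ℝ × ℝ × ℝ → ℝ}
    (hφ : Measurable φ) : MeasurableSet {p : ℝ × ℝ × ℝ | Big B k (ix (rho k) (φ p)) p.1} := by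
  have e : {p : ℝ × ℝ × ℝ | Big B k (ix (rho k) (φ p)) p.1} =
      ⋃ γ : ℤ, ({p | ix (rho k) (φ p) = γ} ∩ Prod.fst ⁻¹' {y | Big B k γ y}) := by
    ext p
    simp
  rw [e]
  refine MeasurableSet.iUnion (fun γ => MeasurableSet.inter ?_ ?_)
  · exact ((meas_ix (rho k)).comp hφ) (measurableSet_singleton γ)
  · exact measurable_fst (meas_Big hB k γ)

lemma meas_A1 {B : Set (ℝ × ℝ)} (hB : MeasurableSet B) (K k : ℕ) (n : ℤ) :
    MeasurableSet (A1 B K k n) := by
  have hG : MeasurableSet {p : ℝ × ℝ × ℝ | p.1 ∈ Good (fB B) K} :=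
    measurable_fst (meas_Good (fB_meas hB) K)
  have h1 := meas_Big' hB k (φ := fun p => p.2.1) (by fun_prop)
  have h2 := meas_Big' hB k (φ := fun p => p.2.2) (by fun_prop)
  have h3 : MeasurableSet {p : ℝ × ℝ × ℝ | ix (rho k) (p.1 + 2 / (p.2.2 - p.2.1)) = n} :=
    ((meas_ix (rho k)).comp (by fun_prop :
      Measurable (fun p : ℝ × ℝ × ℝ => p.1 + 2 / (p.2.2 - p.2.1)))) (measurableSet_singleton n)
  exact (meas_Q hB).inter (hG.inter (h1.compl.inter (h2.compl.inter h3)))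

lemma meas_A2 {B : Set (ℝ × ℝ)} (hB : MeasurableSet B) (K k : ℕ) :
    MeasurableSet (A2 B K k) := by
  have hG : MeasurableSet {p : ℝ × ℝ × ℝ | p.1 ∈ Good (fB B) K} :=
    measurable_fst (meas_Good (fB_meas hB) K)
  have h1 := meas_Big' hB k (φ := fun p => p.2.1) (by fun_prop)
  have h2 := meas_Big' hB k (φ := fun p => p.2.2) (by fun_prop)
  exact (meas_Q hB).inter (hG.inter (h1.union h2))

lemma meas_GG {B : Set (ℝ × ℝ)} (hB : MeasurableSet B) (K : ℕ) : MeasurableSet (GG B K) :=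
  (meas_Q hB).inter (measurable_fst (meas_Good (fB_meas hB) K))

/-- pairs on bad rows -/
lemma bad_pairs {B : Set (ℝ × ℝ)} {R η : ℝ} (h : Nice B R η) (K : ℕ) :
    volume (Q B \ GG B K) ≤
      ∫⁻ y in (Good (fB B) K)ᶜ, ENNReal.ofReal (fB B y ^ 2) := by
  have hG := meas_Good (fB_meas h.meas) K
  have hS : MeasurableSet (Q B \ GG B K) := (meas_Q h.meas).diff (meas_GG h.meas K)
  rw [Measure.volume_eq_prod, Measure.prod_apply hS, ← lintegral_indicator hG.compl]
  apply lintegral_mono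
  intro y
  by_cases hy : y ∈ Good (fB B) K
  · have : Prod.mk y ⁻¹' (Q B \ GG B K) = ∅ := by
      ext p
      simp only [mem_preimage, mem_empty_iff_false, iff_false]
      rintro ⟨h1, h2⟩
      exact h2 ⟨h1, hy⟩
    simp [this]
  · have hy' : y ∈ (Good (fB B) K)ᶜ := hy
    rw [indicator_of_mem hy']
    have hsub : Prod.mk y ⁻¹' (Q B \ GG B K) ⊆
        {x : ℝ | 0 ≤ x ∧ x < 4 ∧ (x, y) ∈ B} ×ˢ {x : ℝ | 0 ≤ x ∧ x < 4 ∧ (x, y) ∈ B} := by
      rintro ⟨x, x'⟩ hp
      have hq : (y, x, x') ∈ Q B := hp.1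
      obtain ⟨hq1, hq2, -, -⟩ := hq
      exact ⟨⟨h.x0 (x, y) hq1, h.x4 (x, y) hq1, hq1⟩, ⟨h.x0 (x', y) hq2, h.x4 (x', y) hq2, hq2⟩⟩
    have hfin : volume {x : ℝ | 0 ≤ x ∧ x < 4 ∧ (x, y) ∈ B} ≠ ⊤ := by
      apply ne_top_of_le_ne_top (b := volume (Ico (0 : ℝ) 4))
      · simp
      · exact measure_mono (fun x hx => ⟨hx.1, hx.2.1⟩)
    calc volume (Prod.mk y ⁻¹' (Q B \ GG B K)) ≤ _ := measure_mono hsub
      _ = volume {x : ℝ | 0 ≤ x ∧ x < 4 ∧ (x, y) ∈ B} *
          volume {x : ℝ | 0 ≤ x ∧ x < 4 ∧ (x, y) ∈ B} := by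
        rw [Measure.volume_eq_prod, Measure.prod_prod]
      _ = ENNReal.ofReal (fB B y ^ 2) := by
        unfold fB rowLen
        rw [ENNReal.ofReal_pow ENNReal.toReal_nonneg, ENNReal.ofReal_toReal hfin, sq]

lemma Q_finite {B : Set (ℝ × ℝ)} {R η : ℝ} (h : Nice B R η) : volume (Q B) ≠ ⊤ := by
  have hc : IsCompact (Icc (-R) R ×ˢ (Icc (0 : ℝ) 4 ×ˢ Icc (0 : ℝ) 4)) :=
    isCompact_Icc.prod (isCompact_Icc.prod isCompact_Icc)
  apply ne_top_of_le_ne_top
    (hc.measure_lt_top (μ := (volume : Measure (ℝ × ℝ × ℝ)))).ne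
  apply measure_mono
  rintro ⟨y, x, x'⟩ ⟨hq1, hq2, -, -⟩
  have hy := abs_le.mp (h.bdd (x, y) hq1)
  exact ⟨⟨hy.1, hy.2⟩, ⟨h.x0 (x, y) hq1, (h.x4 (x, y) hq1).le⟩,
    ⟨h.x0 (x', y) hq2, (h.x4 (x', y) hq2).le⟩⟩

/-- the average over the short interval around `y*` vanishes -/
lemma av_star {B : Set (ℝ × ℝ)} {R η : ℝ} (h : Nice B R η) {K : ℕ} (hK : 2 * rho K < η)
    {y x x' : ℝ} (hq : (y, x, x') ∈ Q B) :
    av (rho K) (fB B) (ix (rho K) (y + 2 / (x' - x))) = 0 := by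
  obtain ⟨h1, h2, h3, h4⟩ := hq
  simp only at h1 h2 h3 h4
  set ys := y + 2 / (x' - x) with hys
  set n := ix (rho K) ys with hn
  have hr := rho_pos K
  have hd : 0 < x' - x := by linarith
  have hn1 : rho K * n ≤ ys := by
    have := Int.floor_le (ys / rho K)
    rw [le_div_iff₀ hr] at this
    rw [hn]; unfold ix; linarith
  have hn2 : ys < rho K * (n + 1) := by
    have := Int.lt_floor_add_one (ys / rho K)
    rw [div_lt_iff₀ hr] at this
    rw [hn]; unfold ix; linarith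
  have hz : ∀ z ∈ uIcc (rho K * (n : ℝ)) (rho K * ((n : ℝ) + 1)), fB B z = 0 := by
    intro z hz
    rw [uIcc_of_le (by nlinarith)] at hz
    apply fB_zero
    intro x'' hx''
    have hg := h.gap x x' y x'' z h1 h2 h3 h4 hx''
    have e : (x' - x) * (z - y) - 2 = (x' - x) * (z - ys) := by
      rw [hys]; field_simp; ring
    rw [e, abs_mul, abs_of_pos hd] at hg
    have hzy : |z - ys| ≤ rho K := by
      rw [abs_le]
      constructor
      · have := hz.1; nlinarith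
      · have := hz.2; nlinarith
    have : (x' - x) * |z - ys| ≤ 2 * rho K := by
      apply mul_le_mul h4 hzy (abs_nonneg _) (by norm_num)
    linarith
  unfold av
  rw [intervalIntegral.integral_congr (g := fun _ => (0 : ℝ)) (fun z hz' => hz z hz')]
  simp

lemma star_pos {B : Set (ℝ × ℝ)} {K : ℕ} {y x x' : ℝ} (hq : (y, x, x') ∈ Q B)
    (hy : y ∈ Good (fB B) K) : 0 < av 2 (fB B) (ix 2 (y + 2 / (x' - x))) := by
  obtain ⟨-, -, h3, h4⟩ := hq
  simp only at h3 h4
  obtain ⟨g1, -, -, g4, -⟩ := hy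
  have hd : 0 < x' - x := by linarith
  have e1 : 1 ≤ 2 / (x' - x) := by rw [le_div_iff₀ hd]; linarith
  have e2 : 2 / (x' - x) ≤ 2 := by rw [div_le_iff₀ hd]; linarith
  have hix : ix 2 (y + 2 / (x' - x)) = ix 2 y ∨ ix 2 (y + 2 / (x' - x)) = ix 2 y + 1 := by
    unfold ix
    have l1 : ⌊y / 2⌋ ≤ ⌊(y + 2 / (x' - x)) / 2⌋ := Int.floor_le_floor (by linarith)
    have l2 : ⌊(y + 2 / (x' - x)) / 2⌋ ≤ ⌊y / 2⌋ + 1 := by
      rw [← Int.floor_add_one]
      exact Int.floor_le_floor (by linarith)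
    omega
  rcases hix with e | e <;> rw [e]
  · exact g1
  · linarith

/-- the basic pointwise inequality -/
lemma pointwise {B : Set (ℝ × ℝ)} {R η : ℝ} (h : Nice B R η) {K : ℕ} (hK : 2 * rho K < η)
    {y x x' : ℝ} (hq : (y, x, x') ∈ Q B) (hy : y ∈ Good (fB B) K) :
    1 ≤ 2 * ∑ k ∈ Finset.range K,
      gq (fB B) k (ix (rho (k + 1)) (y + 2 / (x' - x))) := by
  have ht := tele (fun k => av (rho k) (fB B) (ix (rho k) (y + 2 / (x' - x))))
    (star_pos hq hy) (by simp only [rho_zero]) K (av_star h hK hq)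
  refine ht.trans (le_of_eq ?_)
  congr 1
  apply Finset.sum_congr rfl
  intro k _
  unfold gq
  simp only [ix_succ, ix_zero]

/-- the index of `y* = y + 2/(x'-x)` at level `k` -/
noncomputable def st (k : ℕ) (p : ℝ × ℝ × ℝ) : ℤ := ix (rho k) (p.1 + 2 / (p.2.2 - p.2.1))

lemma meas_st (k : ℕ) : Measurable (st k) :=
  (meas_ix (rho k)).comp (by fun_prop :
      Measurable (fun p : ℝ × ℝ × ℝ => p.1 + 2 / (p.2.2 - p.2.1)))

/-- splitting the integral of `g_{k+1}` over the good pairs -/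
lemma split_k {B : Set (ℝ × ℝ)} {R η : ℝ} (h : Nice B R η) (K k : ℕ) :
    ∫⁻ p in GG B K, ENNReal.ofReal (gq (fB B) k (st (k + 1) p)) ≤
      32 * volume (A2 B K (k + 1)) +
        ∑' n : ℤ, ENNReal.ofReal (gq (fB B) k n) * volume (A1 B K (k + 1) n) := by
  have hsub : GG B K ⊆ A2 B K (k + 1) ∪ ⋃ n : ℤ, A1 B K (k + 1) n := by
    intro p hp
    by_cases hb : Big B (k + 1) (ix (rho (k + 1)) p.2.1) p.1 ∨
        Big B (k + 1) (ix (rho (k + 1)) p.2.2) p.1
    · left; exact ⟨hp.1, hp.2, hb⟩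
    · right
      push Not at hb
      rw [mem_iUnion]
      exact ⟨st (k + 1) p, hp.1, hp.2, hb.1, hb.2, rfl⟩
  calc ∫⁻ p in GG B K, ENNReal.ofReal (gq (fB B) k (st (k + 1) p))
      ≤ ∫⁻ p in A2 B K (k + 1) ∪ ⋃ n : ℤ, A1 B K (k + 1) n,
          ENNReal.ofReal (gq (fB B) k (st (k + 1) p)) := lintegral_mono_set hsub
    _ ≤ (∫⁻ p in A2 B K (k + 1), ENNReal.ofReal (gq (fB B) k (st (k + 1) p))) +
        ∫⁻ p in ⋃ n : ℤ, A1 B K (k + 1) n, ENNReal.ofReal (gq (fB B) k (st (k + 1) p)) :=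
      lintegral_union_le _ _ _
    _ ≤ _ := by
      apply add_le_add
      · calc _ ≤ ∫⁻ p in A2 B K (k + 1), (32 : ℝ≥0∞) := by
              apply lintegral_mono
              intro p
              have := gq_le (fB_meas h.meas) (fB_nonneg B) (fB_abs B) k (st (k + 1) p)
              calc ENNReal.ofReal (gq (fB B) k (st (k + 1) p)) ≤ ENNReal.ofReal 32 :=
                    ENNReal.ofReal_le_ofReal this
                _ = 32 := by simp
          _ = _ := by rw [setLIntegral_const]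
      · refine (lintegral_iUnion_le _ _).trans (ENNReal.tsum_le_tsum (fun n => ?_))
        rw [← setLIntegral_const]
        apply le_of_eq
        apply setLIntegral_congr_fun (meas_A1 h.meas K (k + 1) n)
        intro p hp
        have : st (k + 1) p = n := hp.2.2.2.2
        simp only [this]

/-- `ε_{k+1}` -/
noncomputable def ep (k : ℕ) : ℝ := (3 / 4) ^ (k + 1) / 12

lemma ep_pos (k : ℕ) : 0 < ep k := by unfold ep; positivity

/-- one term -/
lemma term_le {B : Set (ℝ × ℝ)} {R η : ℝ} (h : Nice B R η) {K k : ℕ} (hk : k + 1 ≤ K) (n : ℤ) :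
    ENNReal.ofReal (gq (fB B) k n) * volume (A1 B K (k + 1) n) ≤
      ENNReal.ofReal (ep k) * volume (A1 B K (k + 1) n) +
      ENNReal.ofReal (3000 / 2 ^ (k + 1) / ep k) *
        ENNReal.ofReal ((av (rho (k + 1)) (fB B) n - av (rho k) (fB B) (n / 16)) ^ 2) := by
  by_cases hg : gq (fB B) k n ≤ ep k
  · refine le_trans ?_ le_self_add
    gcongr
  · push Not at hg
    refine le_trans ?_ le_add_self
    have hgp : 0 < gq (fB B) k n := (ep_pos k).trans hg
    have hT : volume (A1 B K (k + 1) n) ≤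
      ENNReal.ofReal (3000 / 2 ^ (k + 1) * (av 2 (fB B) (n / 16 ^ (k + 1))) ^ 2) :=
      type1 h hk n
    refine (mul_le_mul_right hT _).trans ?_
    rw [← ENNReal.ofReal_mul hgp.le, ← ENNReal.ofReal_mul (by have := ep_pos k; positivity)]
    apply ENNReal.ofReal_le_ofReal
    have hF0 := av_nonneg (fB_nonneg B) (by norm_num : (0 : ℝ) < 2) (n / 16 ^ (k + 1))
    have hcond : av (rho k) (fB B) (n / 16) ≤ 2 * av 2 (fB B) (n / 16 ^ (k + 1)) := by
      by_contra hc
      unfold gq at hgp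
      rw [if_neg hc] at hgp
      exact lt_irrefl _ hgp
    have hgq : gq (fB B) k n = |av (rho (k + 1)) (fB B) n - av (rho k) (fB B) (n / 16)| /
        av 2 (fB B) (n / 16 ^ (k + 1)) := by unfold gq; rw [if_pos hcond]
    have hF : 0 < av 2 (fB B) (n / 16 ^ (k + 1)) := by
      rcases hF0.eq_or_lt with h' | h'
      · rw [hgq, ← h'] at hgp; simp at hgp
      · exact h'
    rw [hgq] at hg ⊢
    set F := av 2 (fB B) (n / 16 ^ (k + 1))
    set Δ := av (rho (k + 1)) (fB B) n - av (rho k) (fB B) (n / 16)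
    have he := ep_pos k
    rw [lt_div_iff₀ hF] at hg
    have hC : (0 : ℝ) < 3000 / 2 ^ (k + 1) := by positivity
    have e1 : |Δ| / F * (3000 / 2 ^ (k + 1) * F ^ 2) = 3000 / 2 ^ (k + 1) * (|Δ| * F) := by
      field_simp
    have e2 : 3000 / 2 ^ (k + 1) / ep k * Δ ^ 2 = 3000 / 2 ^ (k + 1) * (|Δ| * (|Δ| / ep k)) := by
      rw [← sq_abs Δ]; field_simp
    rw [e1, e2]
    apply mul_le_mul_of_nonneg_left _ hC.le
    apply mul_le_mul_of_nonneg_left _ (abs_nonneg _)
    rw [le_div_iff₀ he]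
    linarith

lemma sum_A1 {B : Set (ℝ × ℝ)} {R η : ℝ} (h : Nice B R η) (K k : ℕ) :
    ∑' n : ℤ, volume (A1 B K k n) ≤ volume (GG B K) := by
  have hd : Pairwise (Function.onFun Disjoint (fun n : ℤ => A1 B K k n)) := by
    intro m n hmn
    rw [Function.onFun, Set.disjoint_left]
    intro p hp hp'
    exact hmn (hp.2.2.2.2.symm.trans hp'.2.2.2.2)
  rw [← measure_iUnion hd (fun n => meas_A1 h.meas K k n)]
  apply measure_mono
  apply iUnion_subset
  intro n p hp
  exact ⟨hp.1, hp.2.1⟩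

/-- the estimate at one level -/
lemma level {B : Set (ℝ × ℝ)} {R η : ℝ} (h : Nice B R η) {K k : ℕ} (hk : k + 1 ≤ K) :
    ∫⁻ p in GG B K, ENNReal.ofReal (gq (fB B) k (st (k + 1) p)) ≤
      ENNReal.ofReal (ep k) * volume (GG B K) +
      ((ENNReal.ofReal (256 * 8 ^ (k + 1)) * ∫⁻ t in Ioo (0 : ℝ) (2 / 4 ^ (k + 1)),
          ∑ γ ∈ Finset.range (2 * 16 ^ (k + 1)), En (col B (k + 1) (γ : ℤ)) t) +
       ENNReal.ofReal (96000 * ((2 / 3) ^ k * 256 ^ k)) *
          ∫⁻ t in Ioo (0 : ℝ) (2 / 16 ^ k), En (fB B) t) := by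
  refine (split_k h K k).trans ?_
  have h2 : 32 * volume (A2 B K (k + 1)) ≤
      ENNReal.ofReal (256 * 8 ^ (k + 1)) * ∫⁻ t in Ioo (0 : ℝ) (2 / 4 ^ (k + 1)),
          ∑ γ ∈ Finset.range (2 * 16 ^ (k + 1)), En (col B (k + 1) (γ : ℤ)) t := by
    have ht := type2 h hk
    refine (mul_le_mul_right ht _).trans (le_of_eq ?_)
    rw [← mul_assoc]
    congr 1
    have : (32 : ℝ≥0∞) = ENNReal.ofReal 32 := by simp
    rw [this, ← ENNReal.ofReal_mul (by norm_num)]
    congr 1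
    ring
  have h1 : ∑' n : ℤ, ENNReal.ofReal (gq (fB B) k n) * volume (A1 B K (k + 1) n) ≤
      ENNReal.ofReal (ep k) * volume (GG B K) +
      ENNReal.ofReal (96000 * ((2 / 3) ^ k * 256 ^ k)) *
          ∫⁻ t in Ioo (0 : ℝ) (2 / 16 ^ k), En (fB B) t := by
    calc ∑' n : ℤ, ENNReal.ofReal (gq (fB B) k n) * volume (A1 B K (k + 1) n)
        ≤ ∑' n : ℤ, (ENNReal.ofReal (ep k) * volume (A1 B K (k + 1) n) +
          ENNReal.ofReal (3000 / 2 ^ (k + 1) / ep k) *
            ENNReal.ofReal ((av (rho (k + 1)) (fB B) n - av (rho k) (fB B) (n / 16)) ^ 2)) :=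
          ENNReal.tsum_le_tsum (fun n => term_le h hk n)
      _ = ENNReal.ofReal (ep k) * ∑' n : ℤ, volume (A1 B K (k + 1) n) +
          ENNReal.ofReal (3000 / 2 ^ (k + 1) / ep k) * ∑' n : ℤ,
            ENNReal.ofReal ((av (rho (k + 1)) (fB B) n - av (rho k) (fB B) (n / 16)) ^ 2) := by
          rw [ENNReal.tsum_add, ENNReal.tsum_mul_left, ENNReal.tsum_mul_left]
      _ ≤ ENNReal.ofReal (ep k) * volume (GG B K) +
          ENNReal.ofReal (3000 / 2 ^ (k + 1) / ep k) *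
            (ENNReal.ofReal (16 / rho k ^ 2) * ∫⁻ t in Ioo 0 (rho k), En (fB B) t) := by
          gcongr
          · exact sum_A1 h K (k + 1)
          · have := child_sum (fB_meas h.meas) (fB_abs B) (fB_far h) (rho_pos k)
            rw [← rho_succ] at this
            exact this
      _ = _ := by
          rw [← mul_assoc, ← ENNReal.ofReal_mul (by have := ep_pos k; positivity)]
          congr 2
          congr 1
          unfold ep rho
          simp only [div_pow, pow_succ]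
          have h4 : (4 : ℝ) ^ k = 2 ^ k * 2 ^ k := by rw [← mul_pow]; norm_num
          have h256 : (256 : ℝ) ^ k = 16 ^ k * 16 ^ k := by rw [← mul_pow]; norm_num
          rw [h4, h256]
          field_simp
          ring
  refine (add_le_add h2 h1).trans (le_of_eq ?_)
  rw [add_left_comm]

lemma sum_ep (K : ℕ) : ∑ k ∈ Finset.range K, ep k ≤ 1 / 4 := by
  have : ∀ K : ℕ, ∑ k ∈ Finset.range K, ep k = 1 / 4 - (3 / 4) ^ K / 4 := by
    intro K
    induction K with
    | zero => simp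
    | succ K ih => rw [Finset.sum_range_succ, ih]; unfold ep; ring
  rw [this K]
  have : (0 : ℝ) ≤ (3 / 4) ^ K / 4 := by positivity
  linarith

lemma exists_K {η : ℝ} (hη : 0 < η) : ∃ K : ℕ, 2 * rho K < η := by
  obtain ⟨K, hK⟩ := exists_pow_lt_of_lt_one (by positivity : (0 : ℝ) < η / 4)
    (by norm_num : (1 / 16 : ℝ) < 1)
  refine ⟨K, ?_⟩
  unfold rho
  have : (2 : ℝ) / 16 ^ K = 2 * (1 / 16) ^ K := by rw [div_pow, one_pow]; ring
  rw [this]
  linarith

lemma good_pairs {B : Set (ℝ × ℝ)} {R η : ℝ} (h : Nice B R η) {K : ℕ} (hK : 2 * rho K < η) :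
    volume (GG B K) ≤ 1024 * (∑' k : ℕ, ENNReal.ofReal (8 ^ k) *
          ∫⁻ t in Ioo (0 : ℝ) (2 / 4 ^ k),
          ∑ γ ∈ Finset.range (2 * 16 ^ k), En (col B k (γ : ℤ)) t) +
      384000 * ∑' k : ℕ, ENNReal.ofReal ((2 / 3) ^ k * 256 ^ k) *
          ∫⁻ t in Ioo (0 : ℝ) (2 / 16 ^ k), En (fB B) t := by
  have hfin : volume (GG B K) ≠ ⊤ :=
    ne_top_of_le_ne_top (Q_finite h) (measure_mono (fun p hp => hp.1))
  set S1 := ∑' k : ℕ, ENNReal.ofReal (8 ^ k) *
          ∫⁻ t in Ioo (0 : ℝ) (2 / 4 ^ k),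
          ∑ γ ∈ Finset.range (2 * 16 ^ k), En (col B k (γ : ℤ)) t with hS1
  set S2 := ∑' k : ℕ, ENNReal.ofReal ((2 / 3) ^ k * 256 ^ k) *
          ∫⁻ t in Ioo (0 : ℝ) (2 / 16 ^ k), En (fB B) t with hS2
  have step1 : volume (GG B K) ≤ 2 * ∑ k ∈ Finset.range K,
      ∫⁻ p in GG B K, ENNReal.ofReal (gq (fB B) k (st (k + 1) p)) := by
    have hm : ∀ k, Measurable (fun p : ℝ × ℝ × ℝ =>
        ENNReal.ofReal (gq (fB B) k (st (k + 1) p))) := fun k =>
      ((measurable_from_top (f := gq (fB B) k)).comp (meas_st (k + 1))).ennreal_ofReal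
    rw [← lintegral_finsetSum _ (fun k _ => hm k), ← lintegral_const_mul _ (by fun_prop)]
    calc volume (GG B K) = ∫⁻ p in GG B K, 1 := by rw [setLIntegral_one]
      _ ≤ _ := by
        apply setLIntegral_mono' (meas_GG h.meas K)
        rintro ⟨y, x, x'⟩ hp
        have hpw := pointwise h hK hp.1 hp.2
        calc (1 : ℝ≥0∞) = ENNReal.ofReal 1 := by simp
          _ ≤ ENNReal.ofReal (2 * ∑ k ∈ Finset.range K,
                gq (fB B) k (ix (rho (k + 1)) (y + 2 / (x' - x)))) :=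
              ENNReal.ofReal_le_ofReal hpw
          _ = _ := by
            rw [ENNReal.ofReal_mul (by norm_num), ENNReal.ofReal_sum_of_nonneg
              (fun k _ => gq_nonneg (fB_nonneg B) k _)]
            simp [st]
  have step2 : ∑ k ∈ Finset.range K,
      ∫⁻ p in GG B K, ENNReal.ofReal (gq (fB B) k (st (k + 1) p)) ≤
      ENNReal.ofReal (1 / 4) * volume (GG B K) + (256 * S1 + 96000 * S2) := by
    calc ∑ k ∈ Finset.range K,
      ∫⁻ p in GG B K, ENNReal.ofReal (gq (fB B) k (st (k + 1) p))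
        ≤ ∑ k ∈ Finset.range K, (ENNReal.ofReal (ep k) * volume (GG B K) +
      ((ENNReal.ofReal (256 * 8 ^ (k + 1)) * ∫⁻ t in Ioo (0 : ℝ) (2 / 4 ^ (k + 1)),
          ∑ γ ∈ Finset.range (2 * 16 ^ (k + 1)), En (col B (k + 1) (γ : ℤ)) t) +
       ENNReal.ofReal (96000 * ((2 / 3) ^ k * 256 ^ k)) *
          ∫⁻ t in Ioo (0 : ℝ) (2 / 16 ^ k), En (fB B) t)) := by
          apply Finset.sum_le_sum
          intro k hk
          exact level h (Finset.mem_range.mp hk)
      _ = (∑ k ∈ Finset.range K, ENNReal.ofReal (ep k) * volume (GG B K)) +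
          ((∑ k ∈ Finset.range K, (ENNReal.ofReal (256 * 8 ^ (k + 1)) *
            ∫⁻ t in Ioo (0 : ℝ) (2 / 4 ^ (k + 1)),
          ∑ γ ∈ Finset.range (2 * 16 ^ (k + 1)), En (col B (k + 1) (γ : ℤ)) t)) +
          ∑ k ∈ Finset.range K, ENNReal.ofReal (96000 * ((2 / 3) ^ k * 256 ^ k)) *
          ∫⁻ t in Ioo (0 : ℝ) (2 / 16 ^ k), En (fB B) t) := by
          rw [Finset.sum_add_distrib, Finset.sum_add_distrib]
      _ ≤ _ := by
          gcongr
          · rw [← Finset.sum_mul]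
            gcongr
            rw [← ENNReal.ofReal_sum_of_nonneg (fun k _ => (ep_pos k).le)]
            exact ENNReal.ofReal_le_ofReal (sum_ep K)
          · calc _ = 256 * ∑ k ∈ Finset.range K, (ENNReal.ofReal (8 ^ (k + 1)) *
                  ∫⁻ t in Ioo (0 : ℝ) (2 / 4 ^ (k + 1)),
                  ∑ γ ∈ Finset.range (2 * 16 ^ (k + 1)), En (col B (k + 1) (γ : ℤ)) t) := by
                  rw [Finset.mul_sum]
                  apply Finset.sum_congr rfl
                  intro k _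
                  rw [ENNReal.ofReal_mul (by norm_num)]
                  simp [mul_assoc]
              _ ≤ 256 * S1 := by
                  gcongr
                  rw [hS1]
                  calc _ ≤ ∑' k : ℕ, (ENNReal.ofReal (8 ^ (k + 1)) *
                      ∫⁻ t in Ioo (0 : ℝ) (2 / 4 ^ (k + 1)),
                      ∑ γ ∈ Finset.range (2 * 16 ^ (k + 1)), En (col B (k + 1) (γ : ℤ)) t) :=
                        ENNReal.sum_le_tsum _
                    _ ≤ _ := ENNReal.tsum_comp_le_tsum_of_injective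
                        (f := fun k : ℕ => k + 1) (add_left_injective 1) _
          · calc _ = 96000 * ∑ k ∈ Finset.range K, (ENNReal.ofReal ((2 / 3) ^ k * 256 ^ k) *
                  ∫⁻ t in Ioo (0 : ℝ) (2 / 16 ^ k), En (fB B) t) := by
                  rw [Finset.mul_sum]
                  apply Finset.sum_congr rfl
                  intro k _
                  rw [ENNReal.ofReal_mul (by norm_num)]
                  simp [mul_assoc]
              _ ≤ 96000 * S2 := by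
                  gcongr
                  exact ENNReal.sum_le_tsum _
  have step3 : volume (GG B K) ≤ ENNReal.ofReal (1 / 2) * volume (GG B K) +
      2 * (256 * S1 + 96000 * S2) := by
    calc volume (GG B K) ≤ _ := step1
      _ ≤ 2 * (ENNReal.ofReal (1 / 4) * volume (GG B K) + (256 * S1 + 96000 * S2)) := by
        gcongr
      _ = _ := by
        rw [mul_add, ← mul_assoc]
        congr 2
        have : (2 : ℝ≥0∞) = ENNReal.ofReal 2 := by simp
        rw [this, ← ENNReal.ofReal_mul (by norm_num)]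
        norm_num
  have step4 : ENNReal.ofReal (1 / 2) * volume (GG B K) ≤ 2 * (256 * S1 + 96000 * S2) := by
    have e : volume (GG B K) = ENNReal.ofReal (1 / 2) * volume (GG B K) +
        ENNReal.ofReal (1 / 2) * volume (GG B K) := by
      rw [← add_mul, ← ENNReal.ofReal_add (by norm_num) (by norm_num)]
      norm_num
    have hf2 : ENNReal.ofReal (1 / 2) * volume (GG B K) ≠ ⊤ :=
      ENNReal.mul_ne_top ENNReal.ofReal_ne_top hfin
    rw [e, mul_add] at step3
    have e3 : ENNReal.ofReal (1 / 2) * (ENNReal.ofReal (1 / 2) * volume (GG B K)) +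
        ENNReal.ofReal (1 / 2) * (ENNReal.ofReal (1 / 2) * volume (GG B K)) =
        ENNReal.ofReal (1 / 2) * volume (GG B K) := by
      rw [← mul_add, ← e]
    rw [e3] at step3
    exact (ENNReal.add_le_add_iff_left hf2).mp step3
  calc volume (GG B K) = 2 * (ENNReal.ofReal (1 / 2) * volume (GG B K)) := by
        have : (2 : ℝ≥0∞) = ENNReal.ofReal 2 := by simp
        rw [← mul_assoc, this, ← ENNReal.ofReal_mul (by norm_num)]
        norm_num
    _ ≤ 2 * (2 * (256 * S1 + 96000 * S2)) := by gcongr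
    _ = _ := by ring

end Pool.Agent.H270R2.UT.TA

namespace Pool.Agent.H270R2.UT

open TA in
theorem lemmaI {B : Set (ℝ × ℝ)} {R η : ℝ} (h : Nice B R η) :
    volume (Q B) ≤ 10 ^ 6 * ((∫⁻ t in Ioo (0 : ℝ) 4, En (fB B) t)
      + (∑' k : ℕ, ENNReal.ofReal ((2 / 3) ^ k * 256 ^ k) *
          ∫⁻ t in Ioo (0 : ℝ) (2 / 16 ^ k), En (fB B) t)
      + ∑' k : ℕ, ENNReal.ofReal (8 ^ k) * ∫⁻ t in Ioo (0 : ℝ) (2 / 4 ^ k),
          ∑ γ ∈ Finset.range (2 * 16 ^ k), En (col B k (γ : ℤ)) t) := by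
  obtain ⟨K, hK⟩ := exists_K h.hη
  have hb := (bad_pairs h K).trans
    (bad_energy (fB_meas h.meas) (fB_nonneg B) (fB_abs B) (fB_far h) K)
  have hg := good_pairs h hK
  have hQ : volume (Q B) ≤ volume (Q B \ GG B K) + volume (GG B K) := by
    refine (measure_mono ?_).trans (measure_union_le _ _)
    intro p hp
    by_cases hp' : p ∈ GG B K
    · right; exact hp'
    · left; exact ⟨hp, hp'⟩
  refine (hQ.trans (add_le_add hb hg)).trans ?_
  set S0 := ∫⁻ t in Ioo (0 : ℝ) 4, En (fB B) t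
  set S1 := ∑' k : ℕ, ENNReal.ofReal (8 ^ k) * ∫⁻ t in Ioo (0 : ℝ) (2 / 4 ^ k),
          ∑ γ ∈ Finset.range (2 * 16 ^ k), En (col B k (γ : ℤ)) t
  set S2 := ∑' k : ℕ, ENNReal.ofReal ((2 / 3) ^ k * 256 ^ k) *
          ∫⁻ t in Ioo (0 : ℝ) (2 / 16 ^ k), En (fB B) t
  calc 9 * S0 + (1024 * S1 + 384000 * S2)
      ≤ 10 ^ 6 * S0 + (10 ^ 6 * S1 + 10 ^ 6 * S2) := by
        gcongr <;> norm_num
    _ = _ := by ring

end Pool.Agent.H270R2.UT
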