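import Pool.Agent.H270R2.UT.Defs

/-!
# Task P: pairs of points of `K` and the window sets
-/

open MeasureTheory Set
open scoped ENNReal

namespace Pool.Agent.H270R2.UT

/-- affine change of variables on the line -/
private theorem P_scale {f : ℝ → ℝ≥0∞} (hf : Measurable f) {l : ℝ} (hl : 0 < l) (w : ℝ) :
    ∫⁻ x, f x = ENNReal.ofReal l * ∫⁻ x, f (w + l * x) := by
  have h1 : ∫⁻ x, f x = ∫⁻ x, f (w + x) := (lintegral_add_left_eq_self f w).symm
  have hm : Measurable fun x => f (w + x) := hf.comp (measurable_const_add w)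
  rw [h1]
  conv_lhs => rw [← Real.smul_map_volume_mul_left hl.ne']
  rw [lintegral_smul_measure, lintegral_map hm (measurable_const_mul l), abs_of_pos hl]
  rfl

/-- indicator of `K` -/
private noncomputable def P_h (K : Set (ℝ × ℝ)) (p : ℝ × ℝ) : ℝ≥0∞ := K.indicator (fun _ => 1) p

/-- indicator of `[l, 2l]` -/
private noncomputable def P_W (l d : ℝ) : ℝ≥0∞ := (Icc l (2 * l)).indicator (fun _ => 1) d

private theorem P_h_meas {K : Set (ℝ × ℝ)} (hK : MeasurableSet K) : Measurable (P_h K) :=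
  measurable_const.indicator hK

private theorem P_W_meas (l : ℝ) : Measurable (P_W l) :=
  measurable_const.indicator measurableSet_Icc

/-- the change of variables from `(b, b')` to slope and intercept -/
private theorem P_shear {K : Set (ℝ × ℝ)} (hK : MeasurableSet K) {a a' : ℝ} (h : a < a') :
    ∫⁻ b, ∫⁻ b', P_h K (a, b) * P_h K (a', b') =
      ENNReal.ofReal (a' - a) *
        ∫⁻ σ, ∫⁻ c, P_h K (a, σ * a + c) * P_h K (a', σ * a' + c) := by
  have hd : 0 < a' - a := sub_pos.2 h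
  have hh := P_h_meas hK
  have h1 : ∀ σ : ℝ, ∫⁻ c, P_h K (a, σ * a + c) * P_h K (a', σ * a' + c) =
      ∫⁻ b, P_h K (a, b) * P_h K (a', b + σ * (a' - a)) := by
    intro σ
    rw [← lintegral_add_left_eq_self (fun b => P_h K (a, b) * P_h K (a', b + σ * (a' - a)))
      (σ * a)]
    refine lintegral_congr fun c => ?_
    have : σ * a + c + σ * (a' - a) = σ * a' + c := by ring
    rw [this]
  have h3 : Measurable fun p : ℝ × ℝ =>
      P_h K (a, p.1) * P_h K (a', p.1 + p.2 * (a' - a)) :=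
    (hh.comp (by fun_prop)).mul (hh.comp (by fun_prop))
  have h4 : Measurable fun p : ℝ × ℝ =>
      P_h K (a, p.2) * P_h K (a', p.2 + p.1 * (a' - a)) :=
    (hh.comp (by fun_prop)).mul (hh.comp (by fun_prop))
  have h5 : ∫⁻ σ, ∫⁻ c, P_h K (a, σ * a + c) * P_h K (a', σ * a' + c) =
      ∫⁻ b, ∫⁻ σ, P_h K (a, b) * P_h K (a', b + σ * (a' - a)) := by
    rw [lintegral_congr h1]
    exact lintegral_lintegral_swap h4.aemeasurable
  rw [h5]
  have h6 : Measurable fun b : ℝ => ∫⁻ σ, P_h K (a, b) * P_h K (a', b + σ * (a' - a)) :=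
    h3.lintegral_prod_right'
  rw [← lintegral_const_mul _ h6]
  refine lintegral_congr fun b => ?_
  have h2 : Measurable fun b' => P_h K (a, b) * P_h K (a', b') :=
    measurable_const.mul (hh.comp (measurable_const.prodMk measurable_id))
  rw [P_scale h2 hd b]
  congr 1
  refine lintegral_congr fun σ => ?_
  rw [mul_comm σ]

/-- the integrand in the variables `(c, (a, a'))` -/
private noncomputable def P_G (K : Set (ℝ × ℝ)) (l σ : ℝ) (p : ℝ × ℝ × ℝ) : ℝ≥0∞ :=
  P_W l (p.2.2 - p.2.1) * (P_h K (p.2.1, σ * p.2.1 + p.1) * P_h K (p.2.2, σ * p.2.2 + p.1))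

private theorem P_G_meas {K : Set (ℝ × ℝ)} (hK : MeasurableSet K) (l : ℝ) :
    Measurable fun q : ℝ × ℝ × ℝ × ℝ => P_G K l q.1 q.2 := by
  have hh := P_h_meas hK
  unfold P_G
  refine ((P_W_meas l).comp (by fun_prop)).mul ((hh.comp (by fun_prop)).mul (hh.comp (by fun_prop)))

private theorem P_G_meas' {K : Set (ℝ × ℝ)} (hK : MeasurableSet K) (l σ : ℝ) :
    Measurable (P_G K l σ) := (P_G_meas hK l).comp measurable_prodMk_left

private theorem P_BB_meas {K : Set (ℝ × ℝ)} (hK : MeasurableSet K) (j : ℕ) (i : ℤ × Fin 2)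
    (σ : ℝ) : MeasurableSet (BB K j i σ) := by
  unfold BB
  refine (measurableSet_le measurable_const measurable_fst).inter
    ((measurableSet_lt measurable_fst measurable_const).inter ?_)
  exact hK.preimage (by fun_prop)

private theorem P_Q_meas {B : Set (ℝ × ℝ)} (hB : MeasurableSet B) : MeasurableSet (Q B) := by
  have m1 : Measurable fun p : ℝ × ℝ × ℝ => (p.2.1, p.1) := by fun_prop
  have m2 : Measurable fun p : ℝ × ℝ × ℝ => (p.2.2, p.1) := by fun_prop
  have m3 : Measurable fun p : ℝ × ℝ × ℝ => p.2.2 - p.2.1 := by fun_prop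
  exact (m1 hB).inter ((m2 hB).inter ((measurableSet_le measurable_const m3).inter
      (measurableSet_le m3 measurable_const)))

/-- one window -/
private noncomputable def P_V (w l a : ℝ) : ℝ≥0∞ := (Ico w (w + 4 * l)).indicator (fun _ => 1) a

private theorem P_V_meas (w l : ℝ) : Measurable (P_V w l) :=
  measurable_const.indicator measurableSet_Ico

/-- volume of the window set -/
private theorem P_window {K : Set (ℝ × ℝ)} (hK : MeasurableSet K) (j : ℕ) (i : ℤ × Fin 2)
    (σ : ℝ) :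
    ∫⁻ p : ℝ × ℝ × ℝ, P_V (win j i) (2 ^ j) p.2.1 * P_V (win j i) (2 ^ j) p.2.2 *
        P_G K (2 ^ j) σ p = ENNReal.ofReal (2 ^ j) * volume (Q (BB K j i σ)) := by
  set l : ℝ := 2 ^ j with hl
  set w : ℝ := win j i with hw
  have hl0 : 0 < l := by positivity
  have hh := P_h_meas hK
  have hQ := P_Q_meas (P_BB_meas hK j i σ)
  have hGm := P_G_meas' hK l σ
  have hF : Measurable fun p : ℝ × ℝ × ℝ => P_V w l p.2.1 * P_V w l p.2.2 * P_G K l σ p :=
    (((P_V_meas w l).comp (by fun_prop)).mul ((P_V_meas w l).comp (by fun_prop))).mul hGm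
  -- the pointwise identity
  have key : ∀ y x x' : ℝ, P_V w l (w + l * x) * P_V w l (w + l * x') *
      P_G K l σ ((0 : ℝ) + l⁻¹ * y, (w + l * x, w + l * x')) =
      (Q (BB K j i σ)).indicator (fun _ => (1 : ℝ≥0∞)) (y, (x, x')) := by
    intro y x x'
    have e1 : ∀ z : ℝ, P_V w l (w + l * z) = (Ico (0 : ℝ) 4).indicator (fun _ => 1) z := by
      intro z
      unfold P_V
      have : (w + l * z ∈ Ico w (w + 4 * l)) ↔ z ∈ Ico (0 : ℝ) 4 := by
        simp only [mem_Ico]
        constructor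
        · rintro ⟨h1, h2⟩
          constructor
          · by_contra h
            push Not at h
            nlinarith
          · by_contra h
            push Not at h
            nlinarith
        · rintro ⟨h1, h2⟩
          constructor <;> nlinarith
      by_cases h : z ∈ Ico (0 : ℝ) 4
      · rw [indicator_of_mem h, indicator_of_mem (this.2 h)]
      · rw [indicator_of_notMem h, indicator_of_notMem (fun h' => h (this.1 h'))]
    have e2 : P_W l (w + l * x' - (w + l * x)) =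
        (Icc (1 : ℝ) 2).indicator (fun _ => 1) (x' - x) := by
      unfold P_W
      have : (w + l * x' - (w + l * x) ∈ Icc l (2 * l)) ↔ x' - x ∈ Icc (1 : ℝ) 2 := by
        simp only [mem_Icc]
        constructor
        · rintro ⟨h1, h2⟩
          constructor
          · by_contra h
            push Not at h
            nlinarith
          · by_contra h
            push Not at h
            nlinarith
        · rintro ⟨h1, h2⟩
          constructor <;> nlinarith
      by_cases h : x' - x ∈ Icc (1 : ℝ) 2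
      · rw [indicator_of_mem h, indicator_of_mem (this.2 h)]
      · rw [indicator_of_notMem h, indicator_of_notMem (fun h' => h (this.1 h'))]
    unfold P_G
    simp only
    rw [e1, e1, e2]
    unfold P_h
    have e3 : (0 : ℝ) + l⁻¹ * y = y / l := by ring
    rw [e3]
    by_cases h : (y, (x, x')) ∈ Q (BB K j i σ)
    · rw [indicator_of_mem h]
      obtain ⟨h1, h2, h3, h4⟩ := h
      obtain ⟨a1, a2, a3⟩ := h1
      obtain ⟨b1, b2, b3⟩ := h2
      rw [indicator_of_mem (show x ∈ Ico (0 : ℝ) 4 from ⟨a1, a2⟩),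
        indicator_of_mem (show x' ∈ Ico (0 : ℝ) 4 from ⟨b1, b2⟩),
        indicator_of_mem (show x' - x ∈ Icc (1 : ℝ) 2 from ⟨h3, h4⟩),
        indicator_of_mem (show (w + l * x, σ * (w + l * x) + y / l) ∈ K from a3),
        indicator_of_mem (show (w + l * x', σ * (w + l * x') + y / l) ∈ K from b3)]
      simp
    · rw [indicator_of_notMem h]
      by_contra hne
      apply h
      have n1 : x ∈ Ico (0 : ℝ) 4 := by
        by_contra h'
        rw [indicator_of_notMem h'] at hne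
        simp at hne
      have n2 : x' ∈ Ico (0 : ℝ) 4 := by
        by_contra h'
        rw [indicator_of_notMem h'] at hne
        simp at hne
      have n3 : x' - x ∈ Icc (1 : ℝ) 2 := by
        by_contra h'
        rw [indicator_of_notMem h'] at hne
        simp at hne
      have n4 : (w + l * x, σ * (w + l * x) + y / l) ∈ K := by
        by_contra h'
        rw [indicator_of_notMem h'] at hne
        simp at hne
      have n5 : (w + l * x', σ * (w + l * x') + y / l) ∈ K := by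
        by_contra h'
        rw [indicator_of_notMem h'] at hne
        simp at hne
      exact ⟨⟨n1.1, n1.2, n4⟩, ⟨n2.1, n2.2, n5⟩, n3.1, n3.2⟩
  rw [← lintegral_indicator_one hQ, Measure.volume_eq_prod, lintegral_prod _ hF.aemeasurable,
    Measure.volume_eq_prod]
  have hI : Measurable fun p : ℝ × ℝ × ℝ =>
      (Q (BB K j i σ)).indicator (fun _ => (1 : ℝ≥0∞)) p := measurable_const.indicator hQ
  -- left side in iterated form
  have hL : ∀ c : ℝ, ∫⁻ q : ℝ × ℝ, P_V w l q.1 * P_V w l q.2 * P_G K l σ (c, q)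
      ∂((volume : Measure ℝ).prod volume) =
      ENNReal.ofReal l * (ENNReal.ofReal l * ∫⁻ x, ∫⁻ x', P_V w l (w + l * x) *
        P_V w l (w + l * x') * P_G K l σ (c, (w + l * x, w + l * x'))) := by
    intro c
    have m1 : Measurable fun q : ℝ × ℝ => P_V w l q.1 * P_V w l q.2 * P_G K l σ (c, q) :=
      hF.comp measurable_prodMk_left
    have m1' : Measurable fun q : ℝ × ℝ => P_V w l (w + l * q.1) *
        P_V w l (w + l * q.2) * P_G K l σ (c, (w + l * q.1, w + l * q.2)) :=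
      m1.comp (by fun_prop : Measurable fun q : ℝ × ℝ => (w + l * q.1, w + l * q.2))
    have m1'' : Measurable fun x : ℝ => ∫⁻ x', P_V w l (w + l * x) *
        P_V w l (w + l * x') * P_G K l σ (c, (w + l * x, w + l * x')) :=
      m1'.lintegral_prod_right'
    rw [lintegral_prod _ m1.aemeasurable, P_scale m1.lintegral_prod_right' hl0 w]
    congr 1
    rw [← lintegral_const_mul _ m1'']
    refine lintegral_congr fun x => ?_
    exact P_scale (m1.comp measurable_prodMk_left) hl0 w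
  have hinv : 0 < l⁻¹ := by positivity
  have m2 : Measurable fun c : ℝ => ∫⁻ q : ℝ × ℝ, P_V w l q.1 * P_V w l q.2 *
      P_G K l σ (c, q) ∂((volume : Measure ℝ).prod volume) := hF.lintegral_prod_right'
  rw [P_scale m2 hinv 0]
  simp_rw [hL, key]
  have hR : ∫⁻ p : ℝ × ℝ × ℝ, (Q (BB K j i σ)).indicator 1 p
      ∂((volume : Measure ℝ).prod ((volume : Measure ℝ).prod volume)) =
      ∫⁻ y, ∫⁻ x, ∫⁻ x', (Q (BB K j i σ)).indicator (fun _ => (1 : ℝ≥0∞)) (y, (x, x')) := by
    have : ((Q (BB K j i σ)).indicator 1 : ℝ × ℝ × ℝ → ℝ≥0∞) =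
        fun p => (Q (BB K j i σ)).indicator (fun _ => (1 : ℝ≥0∞)) p := rfl
    rw [this, lintegral_prod _ hI.aemeasurable]
    refine lintegral_congr fun y => ?_
    have mI : Measurable fun q : ℝ × ℝ =>
        (Q (BB K j i σ)).indicator (fun _ => (1 : ℝ≥0∞)) (y, q) := hI.comp measurable_prodMk_left
    rw [lintegral_prod _ mI.aemeasurable]
  rw [hR]
  have m3 : Measurable fun y : ℝ =>
      ∫⁻ x, ∫⁻ x', (Q (BB K j i σ)).indicator (fun _ => (1 : ℝ≥0∞)) (y, (x, x')) := by
    have : Measurable fun p : (ℝ × ℝ) × ℝ =>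
        (Q (BB K j i σ)).indicator (fun _ => (1 : ℝ≥0∞)) (p.1.1, (p.1.2, p.2)) :=
      hI.comp (by fun_prop)
    exact this.lintegral_prod_right'.lintegral_prod_right'
  rw [lintegral_const_mul _ (m3.const_mul _), lintegral_const_mul _ m3, ← mul_assoc, ← mul_assoc]
  congr 1
  rw [← ENNReal.ofReal_mul hinv.le, inv_mul_cancel₀ hl0.ne', ENNReal.ofReal_one, one_mul]

/-- the windows cover all pairs -/
private theorem P_cover (j : ℕ) {a a' : ℝ} (h1 : 2 ^ j ≤ a' - a) (h2 : a' - a ≤ 2 * 2 ^ j) :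
    ∃ i : ℤ × Fin 2, a ∈ Ico (win j i) (win j i + 4 * 2 ^ j) ∧
      a' ∈ Ico (win j i) (win j i + 4 * 2 ^ j) := by
  set l : ℝ := 2 ^ j with hl
  have hl0 : 0 < l := by positivity
  set n : ℤ := ⌊a / (4 * l)⌋ with hn
  have b1 : (n : ℝ) * (4 * l) ≤ a := by
    have := Int.floor_le (a / (4 * l))
    rwa [le_div_iff₀ (by positivity)] at this
  have b2 : a < ((n : ℝ) + 1) * (4 * l) := by
    have := Int.lt_floor_add_one (a / (4 * l))
    rwa [div_lt_iff₀ (by positivity)] at this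
  by_cases hc : a - 4 * l * n < 2 * l
  · refine ⟨(n, 0), ?_, ?_⟩ <;> simp only [win, mem_Ico, ← hl] <;>
      simp only [Fin.val_zero, Nat.cast_zero] <;> constructor <;> nlinarith
  · refine ⟨(n, 1), ?_, ?_⟩ <;> simp only [win, mem_Ico, ← hl] <;>
      simp only [Fin.val_one, Nat.cast_one] <;> constructor <;> nlinarith

/-- sum over the windows -/
private theorem P_sum {K : Set (ℝ × ℝ)} (hK : MeasurableSet K) (j : ℕ) (σ : ℝ) :
    ∫⁻ p : ℝ × ℝ × ℝ, P_G K (2 ^ j) σ p ≤
      ENNReal.ofReal (2 ^ j) * ∑' i : ℤ × Fin 2, volume (Q (BB K j i σ)) := by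
  have hGm := P_G_meas' hK (2 ^ j) σ
  rw [← ENNReal.tsum_mul_left]
  simp_rw [← P_window hK]
  rw [← lintegral_tsum]
  · refine lintegral_mono fun p => ?_
    by_cases hp : p.2.2 - p.2.1 ∈ Icc ((2 : ℝ) ^ j) (2 * 2 ^ j)
    · obtain ⟨i, hi1, hi2⟩ := P_cover j hp.1 hp.2
      refine le_trans ?_ (ENNReal.le_tsum i)
      unfold P_V
      rw [indicator_of_mem hi1, indicator_of_mem hi2, one_mul, one_mul]
    · have : P_G K (2 ^ j) σ p = 0 := by
        unfold P_G P_W
        rw [indicator_of_notMem hp, zero_mul]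
      rw [this]
      exact bot_le
  · intro i
    exact ((((P_V_meas _ _).comp (by fun_prop)).mul ((P_V_meas _ _).comp (by fun_prop))).mul
      hGm).aemeasurable

theorem pairs_le {K : Set (ℝ × ℝ)} (hK : IsCompact K) (j : ℕ) :
    ∫⁻ p in K, volume {q : ℝ × ℝ | q ∈ K ∧ 2 ^ j ≤ q.1 - p.1 ∧ q.1 - p.1 ≤ 2 * 2 ^ j} ≤
      ENNReal.ofReal (2 * 4 ^ j) * ∫⁻ σ : ℝ, ∑' i : ℤ × Fin 2, volume (Q (BB K j i σ)) := by
  have hKm : MeasurableSet K := hK.measurableSet
  set l : ℝ := 2 ^ j with hl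
  have hl0 : 0 < l := by positivity
  have hh := P_h_meas hKm
  have hW := P_W_meas l
  -- Step 1: the left side as an iterated integral
  have s1 : ∫⁻ p in K, volume {q : ℝ × ℝ | q ∈ K ∧ l ≤ q.1 - p.1 ∧ q.1 - p.1 ≤ 2 * l} =
      ∫⁻ a, ∫⁻ b, ∫⁻ a', ∫⁻ b', P_W l (a' - a) * (P_h K (a, b) * P_h K (a', b')) := by
    rw [← lintegral_indicator hKm]
    have e : ∀ p : ℝ × ℝ, K.indicator (fun p =>
        volume {q : ℝ × ℝ | q ∈ K ∧ l ≤ q.1 - p.1 ∧ q.1 - p.1 ≤ 2 * l}) p =
        ∫⁻ a', ∫⁻ b', P_W l (a' - p.1) * (P_h K (p.1, p.2) * P_h K (a', b')) := by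
      intro p
      have hm : MeasurableSet {q : ℝ × ℝ | q ∈ K ∧ l ≤ q.1 - p.1 ∧ q.1 - p.1 ≤ 2 * l} :=
        hKm.inter ((measurableSet_le measurable_const (measurable_fst.sub_const _)).inter
          (measurableSet_le (measurable_fst.sub_const _) measurable_const))
      have hm2 : Measurable fun q : ℝ × ℝ => P_W l (q.1 - p.1) * (P_h K (p.1, p.2) * P_h K q) :=
        (hW.comp (by fun_prop)).mul (measurable_const.mul hh)
      have e2 : ∫⁻ a', ∫⁻ b', P_W l (a' - p.1) * (P_h K (p.1, p.2) * P_h K (a', b')) =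
          ∫⁻ q : ℝ × ℝ, P_W l (q.1 - p.1) * (P_h K (p.1, p.2) * P_h K q) := by
        rw [Measure.volume_eq_prod, lintegral_prod _ hm2.aemeasurable]
      rw [e2]
      by_cases hp : p ∈ K
      · rw [indicator_of_mem hp, ← lintegral_indicator_one hm]
        refine lintegral_congr fun q => ?_
        have hp1 : P_h K (p.1, p.2) = 1 := by
          unfold P_h
          exact indicator_of_mem hp _
        rw [hp1, one_mul]
        unfold P_h P_W
        by_cases hq : q ∈ K
        · by_cases hd : q.1 - p.1 ∈ Icc l (2 * l)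
          · rw [indicator_of_mem hq, indicator_of_mem hd,
              indicator_of_mem (show q ∈ {q : ℝ × ℝ | q ∈ K ∧ l ≤ q.1 - p.1 ∧
                q.1 - p.1 ≤ 2 * l} from ⟨hq, hd.1, hd.2⟩)]
            simp
          · rw [indicator_of_notMem hd, indicator_of_notMem
              (fun h' : q ∈ {q : ℝ × ℝ | q ∈ K ∧ l ≤ q.1 - p.1 ∧
                q.1 - p.1 ≤ 2 * l} => hd ⟨h'.2.1, h'.2.2⟩)]
            simp
        · rw [indicator_of_notMem hq, indicator_of_notMem
              (fun h' : q ∈ {q : ℝ × ℝ | q ∈ K ∧ l ≤ q.1 - p.1 ∧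
                q.1 - p.1 ≤ 2 * l} => hq h'.1)]
          simp
      · rw [indicator_of_notMem hp]
        have hp1 : P_h K (p.1, p.2) = 0 := by
          unfold P_h
          exact indicator_of_notMem hp _
        simp [hp1]
    rw [lintegral_congr e]
    have hm3 : Measurable fun p : ℝ × ℝ =>
        ∫⁻ a', ∫⁻ b', P_W l (a' - p.1) * (P_h K (p.1, p.2) * P_h K (a', b')) := by
      have : Measurable fun z : ((ℝ × ℝ) × ℝ) × ℝ =>
          P_W l (z.1.2 - z.1.1.1) * (P_h K (z.1.1.1, z.1.1.2) * P_h K (z.1.2, z.2)) :=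
        (hW.comp (by fun_prop)).mul ((hh.comp (by fun_prop)).mul (hh.comp (by fun_prop)))
      exact this.lintegral_prod_right'.lintegral_prod_right'
    rw [Measure.volume_eq_prod, lintegral_prod _ hm3.aemeasurable]
  rw [s1]
  -- Step 2: swap `b` and `a'`
  have s2 : ∀ a : ℝ, ∫⁻ b, ∫⁻ a', ∫⁻ b', P_W l (a' - a) * (P_h K (a, b) * P_h K (a', b')) =
      ∫⁻ a', ∫⁻ b, ∫⁻ b', P_W l (a' - a) * (P_h K (a, b) * P_h K (a', b')) := by
    intro a
    apply lintegral_lintegral_swap
    have : Measurable fun z : (ℝ × ℝ) × ℝ =>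
        P_W l (z.1.2 - a) * (P_h K (a, z.1.1) * P_h K (z.1.2, z.2)) :=
      (hW.comp (by fun_prop)).mul ((hh.comp (by fun_prop)).mul (hh.comp (by fun_prop)))
    exact this.lintegral_prod_right'.aemeasurable
  simp_rw [s2]
  -- Step 3: slopes
  have s3 : ∀ a a' : ℝ, ∫⁻ b, ∫⁻ b', P_W l (a' - a) * (P_h K (a, b) * P_h K (a', b')) ≤
      ENNReal.ofReal (2 * l) * ∫⁻ σ, ∫⁻ c, P_G K l σ (c, (a, a')) := by
    intro a a'
    have m1 : Measurable fun z : ℝ × ℝ => P_h K (a, z.1) * P_h K (a', z.2) :=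
      (hh.comp (by fun_prop)).mul (hh.comp (by fun_prop))
    have e1 : ∫⁻ b, ∫⁻ b', P_W l (a' - a) * (P_h K (a, b) * P_h K (a', b')) =
        P_W l (a' - a) * ∫⁻ b, ∫⁻ b', P_h K (a, b) * P_h K (a', b') := by
      have m1' : Measurable fun b : ℝ => ∫⁻ b', P_h K (a, b) * P_h K (a', b') :=
        m1.lintegral_prod_right'
      rw [← lintegral_const_mul _ m1']
      refine lintegral_congr fun b => ?_
      have m1'' : Measurable fun b' : ℝ => P_h K (a, b) * P_h K (a', b') :=
        m1.comp measurable_prodMk_left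
      rw [← lintegral_const_mul _ m1'']
    have m2 : Measurable fun z : ℝ × ℝ =>
        P_h K (a, z.1 * a + z.2) * P_h K (a', z.1 * a' + z.2) :=
      (hh.comp (by fun_prop)).mul (hh.comp (by fun_prop))
    have e2 : ∫⁻ σ, ∫⁻ c, P_G K l σ (c, (a, a')) = P_W l (a' - a) *
        ∫⁻ σ, ∫⁻ c, P_h K (a, σ * a + c) * P_h K (a', σ * a' + c) := by
      have m2' : Measurable fun σ : ℝ => ∫⁻ c, P_h K (a, σ * a + c) * P_h K (a', σ * a' + c) :=
        m2.lintegral_prod_right'
      rw [← lintegral_const_mul _ m2']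
      refine lintegral_congr fun σ => ?_
      have m2'' : Measurable fun c : ℝ => P_h K (a, σ * a + c) * P_h K (a', σ * a' + c) :=
        m2.comp measurable_prodMk_left
      rw [← lintegral_const_mul _ m2'']
      rfl
    rw [e1, e2]
    by_cases hd : a' - a ∈ Icc l (2 * l)
    · have haa : a < a' := by
        have := hd.1
        linarith
      rw [P_shear hKm haa]
      have : ENNReal.ofReal (a' - a) ≤ ENNReal.ofReal (2 * l) := ENNReal.ofReal_le_ofReal hd.2
      calc _ ≤ P_W l (a' - a) * (ENNReal.ofReal (2 * l) *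
            ∫⁻ σ, ∫⁻ c, P_h K (a, σ * a + c) * P_h K (a', σ * a' + c)) := by gcongr
        _ = _ := by ring
    · have : P_W l (a' - a) = 0 := by
        unfold P_W
        exact indicator_of_notMem hd _
      rw [this]
      simp
  refine (lintegral_mono fun a => lintegral_mono fun a' => s3 a a').trans ?_
  have mG := P_G_meas hKm l
  have m4 : Measurable fun z : ℝ × ℝ => ∫⁻ σ, ∫⁻ c, P_G K l σ (c, (z.1, z.2)) := by
    have : Measurable fun z : ((ℝ × ℝ) × ℝ) × ℝ => P_G K l z.1.2 (z.2, (z.1.1.1, z.1.1.2)) :=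
      mG.comp (by fun_prop : Measurable fun z : ((ℝ × ℝ) × ℝ) × ℝ =>
        (z.1.2, (z.2, (z.1.1.1, z.1.1.2))))
    exact this.lintegral_prod_right'.lintegral_prod_right'
  have s4 : ∫⁻ a, ∫⁻ a', ENNReal.ofReal (2 * l) * ∫⁻ σ, ∫⁻ c, P_G K l σ (c, (a, a')) =
      ENNReal.ofReal (2 * l) * ∫⁻ a, ∫⁻ a', ∫⁻ σ, ∫⁻ c, P_G K l σ (c, (a, a')) := by
    have m4' : Measurable fun a : ℝ => ∫⁻ a', ∫⁻ σ, ∫⁻ c, P_G K l σ (c, (a, a')) :=
      m4.lintegral_prod_right'
    rw [← lintegral_const_mul _ m4']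
    refine lintegral_congr fun a => ?_
    have m4'' : Measurable fun a' : ℝ => ∫⁻ σ, ∫⁻ c, P_G K l σ (c, (a, a')) :=
      m4.comp measurable_prodMk_left
    rw [← lintegral_const_mul _ m4'']
  rw [s4]
  -- Step 5: integrate first in `(a, a', c)`
  have s5 : ∫⁻ a, ∫⁻ a', ∫⁻ σ, ∫⁻ c, P_G K l σ (c, (a, a')) =
      ∫⁻ σ, ∫⁻ p : ℝ × ℝ × ℝ, P_G K l σ p := by
    have mz : Measurable fun z : (ℝ × ℝ) × ℝ => ∫⁻ c, P_G K l z.2 (c, (z.1.1, z.1.2)) := by
      have : Measurable fun z : ((ℝ × ℝ) × ℝ) × ℝ => P_G K l z.1.2 (z.2, (z.1.1.1, z.1.1.2)) :=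
        mG.comp (by fun_prop : Measurable fun z : ((ℝ × ℝ) × ℝ) × ℝ =>
          (z.1.2, (z.2, (z.1.1.1, z.1.1.2))))
      exact this.lintegral_prod_right'
    have t1 : ∫⁻ a, ∫⁻ a', ∫⁻ σ, ∫⁻ c, P_G K l σ (c, (a, a')) =
        ∫⁻ z : ℝ × ℝ, (∫⁻ σ : ℝ, ∫⁻ c : ℝ, P_G K l σ (c, (z.1, z.2))) := by
      rw [Measure.volume_eq_prod ℝ ℝ, lintegral_prod _ m4.aemeasurable]
    have t2 : ∫⁻ z : ℝ × ℝ, (∫⁻ σ : ℝ, ∫⁻ c : ℝ, P_G K l σ (c, (z.1, z.2))) =
        ∫⁻ σ : ℝ, ∫⁻ z : ℝ × ℝ, (∫⁻ c : ℝ, P_G K l σ (c, (z.1, z.2))) :=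
      lintegral_lintegral_swap mz.aemeasurable
    rw [t1, t2]
    refine lintegral_congr fun σ => ?_
    have mp : Measurable fun p : ℝ × ℝ × ℝ => P_G K l σ p := P_G_meas' hKm l σ
    rw [Measure.volume_eq_prod ℝ (ℝ × ℝ), lintegral_prod_symm _ mp.aemeasurable]
  rw [s5]
  have s6 : ∫⁻ σ, ∫⁻ p : ℝ × ℝ × ℝ, P_G K l σ p ≤
      ENNReal.ofReal l * ∫⁻ σ, ∑' i : ℤ × Fin 2, volume (Q (BB K j i σ)) := by
    rw [← lintegral_const_mul' _ _ ENNReal.ofReal_ne_top]
    exact lintegral_mono fun σ => P_sum hKm j σ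
  calc _ ≤ ENNReal.ofReal (2 * l) * (ENNReal.ofReal l *
        ∫⁻ σ, ∑' i : ℤ × Fin 2, volume (Q (BB K j i σ))) := by gcongr
    _ = _ := by
      rw [← mul_assoc, ← ENNReal.ofReal_mul (by positivity)]
      congr 2
      rw [hl, mul_assoc, ← mul_pow]
      norm_num

end Pool.Agent.H270R2.UT
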