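import Pool.Agent.H270R2.UT.Defs

/-!
# Task S : the window sets are nice, and their energies
-/

open MeasureTheory Set
open scoped ENNReal

namespace Pool.Agent.H270R2.UT

theorem nice_BB {K : Set (ℝ × ℝ)} (hK : IsCompact K) {η : ℝ} (hη : 0 < η)
    (gap : ∀ p ∈ K, ∀ q ∈ K, ∀ r ∈ K, η ≤ |dt p q r - 2|) (j : ℕ) (i : ℤ × Fin 2) (σ : ℝ) :
    ∃ R : ℝ, Nice (BB K j i σ) R η := by
  obtain ⟨C, hC⟩ := hK.isBounded.exists_norm_le
  have hl : (0 : ℝ) < 2 ^ j := by positivity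
  refine ⟨2 ^ j * (C + |σ| * C), ?_, ?_, ?_, ?_, hη, ?_⟩
  · have h : BB K j i σ = {p : ℝ × ℝ | 0 ≤ p.1} ∩ ({p : ℝ × ℝ | p.1 < 4} ∩
        (fun p : ℝ × ℝ => (win j i + 2 ^ j * p.1,
          σ * (win j i + 2 ^ j * p.1) + p.2 / 2 ^ j)) ⁻¹' K) := rfl
    rw [h]
    refine (measurableSet_le measurable_const measurable_fst).inter
      ((measurableSet_lt measurable_fst measurable_const).inter
        (hK.isClosed.measurableSet.preimage ?_))
    fun_prop
  · intro p hp; exact hp.1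
  · intro p hp; exact hp.2.1
  · intro p hp
    have h := hC _ hp.2.2
    have h1 : |win j i + 2 ^ j * p.1| ≤ C := by
      have := (norm_fst_le _).trans h
      simpa [Real.norm_eq_abs] using this
    have h2 : |σ * (win j i + 2 ^ j * p.1) + p.2 / 2 ^ j| ≤ C := by
      have := (norm_snd_le _).trans h
      simpa [Real.norm_eq_abs] using this
    have h3 : |p.2 / 2 ^ j| ≤ C + |σ| * C := by
      have e : p.2 / 2 ^ j = (σ * (win j i + 2 ^ j * p.1) + p.2 / 2 ^ j) -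
        σ * (win j i + 2 ^ j * p.1) := by ring
      rw [e]
      refine (abs_sub _ _).trans ?_
      rw [abs_mul]
      exact add_le_add h2 (mul_le_mul_of_nonneg_left h1 (abs_nonneg _))
    rw [abs_div, abs_of_pos hl, div_le_iff₀ hl] at h3
    linarith
  · intro x x' y x'' y'' h1 h2 _ _ h3
    have h := gap _ h1.2.2 _ h2.2.2 _ h3.2.2
    have e : dt (win j i + 2 ^ j * x, σ * (win j i + 2 ^ j * x) + y / 2 ^ j)
        (win j i + 2 ^ j * x', σ * (win j i + 2 ^ j * x') + y / 2 ^ j)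
        (win j i + 2 ^ j * x'', σ * (win j i + 2 ^ j * x'') + y'' / 2 ^ j) =
        (x' - x) * (y'' - y) := by
      unfold dt
      field_simp
      ring
    rw [← e]
    exact h

/-! ### scaling -/

private theorem lint_scale {l : ℝ} (hl : 0 < l) (F : ℝ → ℝ≥0∞) :
    ∫⁻ y, F (y / l) = ENNReal.ofReal l * ∫⁻ c, F c := by
  have hl' : (l⁻¹ : ℝ) ≠ 0 := inv_ne_zero hl.ne'
  have h1 : Measure.map (fun y : ℝ => y * l⁻¹) volume = ENNReal.ofReal l • volume := by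
    rw [Real.map_volume_mul_right hl', inv_inv, abs_of_pos hl]
  have h2 : MeasurableEmbedding (fun y : ℝ => y * l⁻¹) :=
    (Homeomorph.mulRight₀ l⁻¹ hl').measurableEmbedding
  have h3 := h2.lintegral_map F (μ := volume)
  rw [h1, lintegral_smul_measure] at h3
  simp only [div_eq_mul_inv]
  rw [← h3]
  rfl

private theorem lint_scale_Ioo {l : ℝ} (hl : 0 < l) (L : ℝ) (F : ℝ → ℝ≥0∞) :
    ∫⁻ y in Ioo (0 : ℝ) L, F (y / l) = ENNReal.ofReal l * ∫⁻ c in Ioo (0 : ℝ) (L / l), F c := by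
  rw [← lintegral_indicator measurableSet_Ioo, ← lintegral_indicator measurableSet_Ioo,
    ← lint_scale hl]
  congr 1
  ext y
  by_cases hy : y ∈ Ioo (0 : ℝ) L
  · have hy' : y / l ∈ Ioo (0 : ℝ) (L / l) :=
      ⟨div_pos hy.1 hl, (div_lt_div_iff_of_pos_right hl).mpr hy.2⟩
    rw [indicator_of_mem hy, indicator_of_mem hy']
  · have hy' : y / l ∉ Ioo (0 : ℝ) (L / l) := by
      intro h
      apply hy
      refine ⟨?_, (div_lt_div_iff_of_pos_right hl).mp h.2⟩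
      have := h.1
      rwa [lt_div_iff₀ hl, zero_mul] at this
    rw [indicator_of_notMem hy, indicator_of_notMem hy']

private theorem rowLen_BB (K : Set (ℝ × ℝ)) (j : ℕ) (i : ℤ × Fin 2) (σ : ℝ) {u v : ℝ}
    (hu : 0 ≤ u) (hv : v ≤ 4) (y : ℝ) :
    rowLen (BB K j i σ) u v y =
      (1 / 2 ^ j) * xray K (Ico (win j i + 2 ^ j * u) (win j i + 2 ^ j * v)) σ (y / 2 ^ j) := by
  have hl : (0 : ℝ) < 2 ^ j := by positivity
  unfold rowLen xray
  have e : {x : ℝ | u ≤ x ∧ x < v ∧ (x, y) ∈ BB K j i σ} =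
      (fun x : ℝ => 2 ^ j * x) ⁻¹' ((fun x : ℝ => win j i + x) ⁻¹'
        {a : ℝ | a ∈ Ico (win j i + 2 ^ j * u) (win j i + 2 ^ j * v) ∧
          (a, σ * a + y / 2 ^ j) ∈ K}) := by
    ext x
    simp only [mem_ofPred_eq, mem_preimage, mem_Ico, BB]
    constructor
    · rintro ⟨h1, h2, _, _, h5⟩
      refine ⟨⟨?_, ?_⟩, h5⟩
      · have := mul_le_mul_of_nonneg_left h1 hl.le
        linarith
      · have := mul_lt_mul_of_pos_left h2 hl
        linarith
    · rintro ⟨⟨h1, h2⟩, h5⟩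
      have h1' : u ≤ x := by
        by_contra hc
        have := mul_lt_mul_of_pos_left (not_le.mp hc) hl
        linarith
      have h2' : x < v := by
        by_contra hc
        have := mul_le_mul_of_nonneg_left (not_lt.mp hc) hl.le
        linarith
      exact ⟨h1', h2', hu.trans h1', h2'.trans_le hv, h5⟩
  rw [e, Real.volume_preimage_mul_left hl.ne', measure_preimage_add, ENNReal.toReal_mul,
    ENNReal.toReal_ofReal (abs_nonneg _), abs_of_pos (inv_pos.mpr hl), one_div]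

private theorem En_BB (K : Set (ℝ × ℝ)) (j : ℕ) (i : ℤ × Fin 2) (σ : ℝ) {u v : ℝ}
    (hu : 0 ≤ u) (hv : v ≤ 4) (t : ℝ) :
    En (rowLen (BB K j i σ) u v) t = ENNReal.ofReal (1 / 2 ^ j) *
      En (xray K (Ico (win j i + 2 ^ j * u) (win j i + 2 ^ j * v)) σ) (t / 2 ^ j) := by
  have hl : (0 : ℝ) < 2 ^ j := by positivity
  unfold En
  set h := xray K (Ico (win j i + 2 ^ j * u) (win j i + 2 ^ j * v)) σ with hh
  have e : ∀ y : ℝ, ENNReal.ofReal ((rowLen (BB K j i σ) u v (y + t) -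
      rowLen (BB K j i σ) u v y) ^ 2) =
      (fun c : ℝ => ENNReal.ofReal (1 / 2 ^ j * (1 / 2 ^ j)) *
        ENNReal.ofReal ((h (c + t / 2 ^ j) - h c) ^ 2)) (y / 2 ^ j) := by
    intro y
    rw [rowLen_BB K j i σ hu hv, rowLen_BB K j i σ hu hv, ← hh]
    beta_reduce
    rw [← ENNReal.ofReal_mul (by positivity)]
    congr 1
    rw [← add_div]
    ring
  rw [lintegral_congr e, lint_scale hl (fun c : ℝ => ENNReal.ofReal (1 / 2 ^ j * (1 / 2 ^ j)) *
        ENNReal.ofReal ((h (c + t / 2 ^ j) - h c) ^ 2)),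
    lintegral_const_mul' _ _ ENNReal.ofReal_ne_top, ← mul_assoc,
    ← ENNReal.ofReal_mul hl.le]
  congr 2
  field_simp

/-! ### measurability -/

private theorem xray_meas {K : Set (ℝ × ℝ)} (hK : MeasurableSet K) {E : Set ℝ}
    (hE : MeasurableSet E) : Measurable (fun p : ℝ × ℝ => xray K E p.1 p.2) := by
  unfold xray
  apply Measurable.ennreal_toReal
  have h : MeasurableSet {q : (ℝ × ℝ) × ℝ | q.2 ∈ E ∧ (q.2, q.1.1 * q.2 + q.1.2) ∈ K} := by
    refine (hE.preimage measurable_snd).inter (hK.preimage ?_)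
    fun_prop
  exact measurable_measure_prodMk_left h

private theorem En_meas {K : Set (ℝ × ℝ)} (hK : MeasurableSet K) {E : Set ℝ}
    (hE : MeasurableSet E) (l : ℝ) :
    Measurable (fun p : ℝ × ℝ => En (xray K E p.1) (p.2 / l)) := by
  unfold En
  apply Measurable.lintegral_prod_right'
    (f := fun q : (ℝ × ℝ) × ℝ => ENNReal.ofReal ((xray K E q.1.1 (q.2 + q.1.2 / l) -
      xray K E q.1.1 q.2) ^ 2))
  apply Measurable.ennreal_ofReal
  apply Measurable.pow_const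
  apply Measurable.sub
  · have h : Measurable (fun q : (ℝ × ℝ) × ℝ => (q.1.1, q.2 + q.1.2 / l)) := by fun_prop
    exact (xray_meas hK hE).comp h
  · have h : Measurable (fun q : (ℝ × ℝ) × ℝ => (q.1.1, q.2)) := by fun_prop
    exact (xray_meas hK hE).comp h

private theorem En_meas1 {K : Set (ℝ × ℝ)} (hK : MeasurableSet K) {E : Set ℝ}
    (hE : MeasurableSet E) (s : ℝ) :
    Measurable (fun σ : ℝ => En (xray K E σ) s) := by
  unfold En
  apply Measurable.lintegral_prod_right'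
    (f := fun q : ℝ × ℝ => ENNReal.ofReal ((xray K E q.1 (q.2 + s) -
      xray K E q.1 q.2) ^ 2))
  apply Measurable.ennreal_ofReal
  apply Measurable.pow_const
  apply Measurable.sub
  · have h : Measurable (fun q : ℝ × ℝ => (q.1, q.2 + s)) := by fun_prop
    exact (xray_meas hK hE).comp h
  · exact xray_meas hK hE

/-! ### disjointness of the columns -/

private theorem col_disj (j N : ℕ) (hN : 0 < N) (e : Fin 2) :
    Pairwise (Function.onFun Disjoint (fun p : ℤ × Fin N =>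
      Ico (win j (p.1, e) + 2 ^ j * (((p.2 : ℕ) : ℝ) * (4 / N)))
        (win j (p.1, e) + 2 ^ j * ((((p.2 : ℕ) : ℝ) + 1) * (4 / N))))) := by
  have hl : (0 : ℝ) < 2 ^ j := by positivity
  have hN' : (0 : ℝ) < N := by exact_mod_cast hN
  rintro ⟨n, g⟩ ⟨n', g'⟩ hne
  rw [Function.onFun, Set.disjoint_left]
  intro a ha ha'
  apply hne
  have key : ∀ (m : ℤ) (k : Fin N), a ∈ Ico (win j (m, e) + 2 ^ j * (((k : ℕ) : ℝ) * (4 / N)))
      (win j (m, e) + 2 ^ j * ((((k : ℕ) : ℝ) + 1) * (4 / N))) →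
      ⌊(a / 2 ^ j - 2 * ((e : ℕ) : ℝ)) * N / 4⌋ = m * N + (k : ℕ) := by
    intro m k hk
    rw [Int.floor_eq_iff]
    obtain ⟨h1, h2⟩ := hk
    unfold win at h1 h2
    simp only at h1 h2
    push_cast
    have e1 : (2 : ℝ) ^ j * (4 * (m : ℝ) + 2 * ((e : ℕ) : ℝ)) + 2 ^ j * (((k : ℕ) : ℝ) * (4 / N)) =
      2 ^ j * (4 * (m : ℝ) + 2 * ((e : ℕ) : ℝ) + ((k : ℕ) : ℝ) * (4 / N)) := by ring
    have e2 : (2 : ℝ) ^ j * (4 * (m : ℝ) + 2 * ((e : ℕ) : ℝ)) +
        2 ^ j * ((((k : ℕ) : ℝ) + 1) * (4 / N)) =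
      2 ^ j * (4 * (m : ℝ) + 2 * ((e : ℕ) : ℝ) + (((k : ℕ) : ℝ) + 1) * (4 / N)) := by ring
    rw [e1, ← le_div_iff₀' hl] at h1
    rw [e2, ← div_lt_iff₀' hl] at h2
    constructor
    · have h3 : 4 * (m : ℝ) + ((k : ℕ) : ℝ) * (4 / N) ≤ a / 2 ^ j - 2 * ((e : ℕ) : ℝ) := by
        linarith
      have h4 := mul_le_mul_of_nonneg_right h3 hN'.le
      have h5 : (4 * (m : ℝ) + ((k : ℕ) : ℝ) * (4 / N)) * N = 4 * (m * N + ((k : ℕ) : ℝ)) := by
        field_simp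
      rw [h5] at h4
      linarith
    · have h3 : a / 2 ^ j - 2 * ((e : ℕ) : ℝ) < 4 * (m : ℝ) + (((k : ℕ) : ℝ) + 1) * (4 / N) := by
        linarith
      have h4 := mul_lt_mul_of_pos_right h3 hN'
      have h5 : (4 * (m : ℝ) + (((k : ℕ) : ℝ) + 1) * (4 / N)) * N =
          4 * (m * N + ((k : ℕ) : ℝ) + 1) := by
        field_simp
        ring
      rw [h5] at h4
      linarith
  have h1 := key n g ha
  have h2 := key n' g' ha'
  rw [h1] at h2
  have hg : ((g : ℕ) : ℤ) < N := by exact_mod_cast g.2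
  have hg' : ((g' : ℕ) : ℤ) < N := by exact_mod_cast g'.2
  have hg0 : (0 : ℤ) ≤ ((g : ℕ) : ℤ) := by positivity
  have hg0' : (0 : ℤ) ≤ ((g' : ℕ) : ℤ) := by positivity
  have hNz : (0 : ℤ) < N := by exact_mod_cast hN
  have hn : n = n' := by
    rcases lt_trichotomy n n' with h | h | h
    · exfalso
      have h3 : n + 1 ≤ n' := h
      have := mul_le_mul_of_nonneg_right h3 hNz.le
      linarith
    · exact h
    · exfalso
      have h3 : n' + 1 ≤ n := h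
      have := mul_le_mul_of_nonneg_right h3 hNz.le
      linarith
  subst hn
  have h4 : ((g : ℕ) : ℤ) = ((g' : ℕ) : ℤ) := by linarith
  have h5 : g = g' := by
    apply Fin.ext
    exact_mod_cast h4
  rw [h5]

/-! ### the energies -/

private theorem tsum_reorder (X : ℤ × Fin 2 → ℕ → ℝ≥0∞) (N : ℕ) (D : ℝ≥0∞)
    (h : ∀ e : Fin 2, ∑' p : ℤ × Fin N, X (p.1, e) (p.2 : ℕ) ≤ D) :
    ∑' i : ℤ × Fin 2, ∑ γ ∈ Finset.range N, X i γ ≤ 2 * D := by
  have e2 : ∀ e : Fin 2, ∑' n : ℤ, ∑ γ ∈ Finset.range N, X (n, e) γ ≤ D := by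
    intro e
    refine le_trans (le_of_eq ?_) (h e)
    have h1 := ENNReal.tsum_prod (f := fun (n : ℤ) (k : Fin N) => X (n, e) (k : ℕ))
    rw [h1]
    congr 1
    ext n
    rw [Finset.sum_range, tsum_fintype]
  have h2 := ENNReal.tsum_prod (f := fun (n : ℤ) (e : Fin 2) => ∑ γ ∈ Finset.range N, X (n, e) γ)
  have h3 : ∑' i : ℤ × Fin 2, ∑ γ ∈ Finset.range N, X i γ =
      ∑' (n : ℤ) (e : Fin 2), ∑ γ ∈ Finset.range N, X (n, e) γ := by
    rw [← h2]
  rw [h3, ENNReal.tsum_comm, tsum_fintype, Fin.sum_univ_two, two_mul]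
  exact add_le_add (e2 0) (e2 1)

/-- `D` bounds the total energy of the X-ray transforms of disjoint column sets
(unfolded form of `EnergyBound`) -/
theorem energies_BB_aux {K : Set (ℝ × ℝ)} (hK : IsCompact K) {D : ℝ → ℝ≥0∞}
    (hD : ∀ (s : ℝ) (ι : Type) [Countable ι] (E : ι → Set ℝ),
      (∀ i, MeasurableSet (E i)) → Pairwise (Function.onFun Disjoint E) →
        ∑' i, ∫⁻ σ, En (xray K (E i) σ) s ≤ D s) (j N : ℕ) (hN : 0 < N) (L : ℝ) :
    ∫⁻ σ : ℝ, ∑' i : ℤ × Fin 2, ∫⁻ t in Ioo (0 : ℝ) L,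
      ∑ γ ∈ Finset.range N,
        En (rowLen (BB K j i σ) ((γ : ℝ) * (4 / N)) (((γ : ℝ) + 1) * (4 / N))) t ≤
      2 * ∫⁻ s in Ioo (0 : ℝ) (L / 2 ^ j), D s := by
  have hl : (0 : ℝ) < 2 ^ j := by positivity
  have hN' : (0 : ℝ) < N := by exact_mod_cast hN
  have hKm : MeasurableSet K := hK.isClosed.measurableSet
  -- the columns
  set E : ℤ × Fin 2 → ℕ → Set ℝ := fun i γ =>
    Ico (win j i + 2 ^ j * ((γ : ℝ) * (4 / N))) (win j i + 2 ^ j * (((γ : ℝ) + 1) * (4 / N)))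
    with hE
  have hEm : ∀ i γ, MeasurableSet (E i γ) := fun i γ => measurableSet_Ico
  have step1 : ∀ (σ : ℝ) (i : ℤ × Fin 2) (t : ℝ), ∑ γ ∈ Finset.range N,
      En (rowLen (BB K j i σ) ((γ : ℝ) * (4 / N)) (((γ : ℝ) + 1) * (4 / N))) t =
      ENNReal.ofReal (1 / 2 ^ j) * ∑ γ ∈ Finset.range N, En (xray K (E i γ) σ) (t / 2 ^ j) := by
    intro σ i t
    rw [Finset.mul_sum]
    refine Finset.sum_congr rfl fun γ hγ => ?_
    have hγ' : (γ : ℝ) + 1 ≤ N := by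
      have := Finset.mem_range.mp hγ
      exact_mod_cast this
    refine En_BB K j i σ (by positivity) ?_ t
    rw [mul_div_assoc', div_le_iff₀ hN']
    linarith
  simp only [step1]
  -- joint measurability
  have hmeas : ∀ i : ℤ × Fin 2, Measurable (fun p : ℝ × ℝ =>
      ENNReal.ofReal (1 / 2 ^ j) * ∑ γ ∈ Finset.range N, En (xray K (E i γ) p.1) (p.2 / 2 ^ j)) := by
    intro i
    apply Measurable.const_mul
    exact Finset.measurable_fun_sum _ fun γ _ => En_meas hKm (hEm i γ) _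
  have hmeas1 : ∀ (i : ℤ × Fin 2), Measurable (fun σ : ℝ => ∫⁻ t in Ioo (0 : ℝ) L,
      ENNReal.ofReal (1 / 2 ^ j) * ∑ γ ∈ Finset.range N, En (xray K (E i γ) σ) (t / 2 ^ j)) :=
    fun i => (hmeas i).lintegral_prod_right'
  rw [lintegral_tsum (fun i => (hmeas1 i).aemeasurable)]
  have step2 : ∀ i : ℤ × Fin 2, ∫⁻ σ : ℝ, ∫⁻ t in Ioo (0 : ℝ) L,
      ENNReal.ofReal (1 / 2 ^ j) * ∑ γ ∈ Finset.range N, En (xray K (E i γ) σ) (t / 2 ^ j) =
      ∫⁻ t in Ioo (0 : ℝ) L, ∫⁻ σ : ℝ,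
        ENNReal.ofReal (1 / 2 ^ j) * ∑ γ ∈ Finset.range N, En (xray K (E i γ) σ) (t / 2 ^ j) :=
    fun i => lintegral_lintegral_swap (hmeas i).aemeasurable
  simp only [step2]
  rw [← lintegral_tsum (fun i => ((hmeas i).lintegral_prod_left').aemeasurable)]
  have step3 : ∀ t : ℝ, ∑' i : ℤ × Fin 2, ∫⁻ σ : ℝ,
      ENNReal.ofReal (1 / 2 ^ j) * ∑ γ ∈ Finset.range N, En (xray K (E i γ) σ) (t / 2 ^ j) ≤
      ENNReal.ofReal (1 / 2 ^ j) * (2 * D (t / 2 ^ j)) := by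
    intro t
    have e1 : ∀ i : ℤ × Fin 2, ∫⁻ σ : ℝ,
        ENNReal.ofReal (1 / 2 ^ j) * ∑ γ ∈ Finset.range N, En (xray K (E i γ) σ) (t / 2 ^ j) =
        ENNReal.ofReal (1 / 2 ^ j) * ∑ γ ∈ Finset.range N,
          ∫⁻ σ : ℝ, En (xray K (E i γ) σ) (t / 2 ^ j) := by
      intro i
      rw [lintegral_const_mul' _ _ ENNReal.ofReal_ne_top]
      congr 1
      exact lintegral_finsetSum _ fun γ _ => En_meas1 hKm (hEm i γ) _
    simp only [e1]
    rw [ENNReal.tsum_mul_left]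
    gcongr
    refine tsum_reorder (fun i γ => ∫⁻ σ : ℝ, En (xray K (E i γ) σ) (t / 2 ^ j)) N _ ?_
    intro e
    exact hD (t / 2 ^ j) (ℤ × Fin N) (fun p => E (p.1, e) (p.2 : ℕ)) (fun p => hEm _ _)
      (col_disj j N hN e)
  calc ∫⁻ t in Ioo (0 : ℝ) L, ∑' i : ℤ × Fin 2, ∫⁻ σ : ℝ,
        ENNReal.ofReal (1 / 2 ^ j) * ∑ γ ∈ Finset.range N, En (xray K (E i γ) σ) (t / 2 ^ j)
      ≤ ∫⁻ t in Ioo (0 : ℝ) L, (fun s => ENNReal.ofReal (1 / 2 ^ j) * (2 * D s)) (t / 2 ^ j) :=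
        lintegral_mono fun t => step3 t
    _ = ENNReal.ofReal (2 ^ j) * ∫⁻ s in Ioo (0 : ℝ) (L / 2 ^ j),
          ENNReal.ofReal (1 / 2 ^ j) * (2 * D s) :=
        lint_scale_Ioo hl L (fun s => ENNReal.ofReal (1 / 2 ^ j) * (2 * D s))
    _ = 2 * ∫⁻ s in Ioo (0 : ℝ) (L / 2 ^ j), D s := by
        rw [lintegral_const_mul' _ _ ENNReal.ofReal_ne_top,
          lintegral_const_mul' _ _ (by norm_num), ← mul_assoc, ← ENNReal.ofReal_mul hl.le,
          mul_one_div_cancel hl.ne', ENNReal.ofReal_one, one_mul]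

end Pool.Agent.H270R2.UT
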