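import Pool.Agent.H270R2.UT.TaskE
import Pool.Agent.H270R2.UT.TaskA
import Pool.Agent.H270R2.UT.TaskP
import Pool.Agent.H270R2.UT.TaskS

/-!
# Task F: final assembly
-/

open MeasureTheory Set
open scoped ENNReal

namespace Pool.Agent.H270R2.UT

theorem energies_BB {K : Set (ℝ × ℝ)} (hK : IsCompact K) {D : ℝ → ℝ≥0∞}
    (hD : EnergyBound K D) (j N : ℕ) (hN : 0 < N) (L : ℝ) :
    ∫⁻ σ : ℝ, ∑' i : ℤ × Fin 2, ∫⁻ t in Ioo (0 : ℝ) L,
      ∑ γ ∈ Finset.range N,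
        En (rowLen (BB K j i σ) ((γ : ℝ) * (4 / N)) (((γ : ℝ) + 1) * (4 / N))) t ≤
      2 * ∫⁻ s in Ioo (0 : ℝ) (L / 2 ^ j), D s := energies_BB_aux hK hD.2 j N hN L

namespace TaskF

theorem geo_bound {x : ℝ} (n : ℕ) :
    ∑ j ∈ Finset.range n, (if (2 : ℝ) ^ j < x then (4 : ℝ) ^ j else 0) ≤ (4 ^ n - 1) / 3 ∧
    ∑ j ∈ Finset.range n, (if (2 : ℝ) ^ j < x then (4 : ℝ) ^ j else 0) ≤ 2 * x ^ 2 := by
  induction n with
  | zero => constructor <;> simp; positivity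
  | succ n ih =>
    rw [Finset.sum_range_succ]
    by_cases h : (2 : ℝ) ^ n < x
    · rw [if_pos h]
      have h4 : (4 : ℝ) ^ n = (2 ^ n) ^ 2 := by
        rw [← pow_mul, mul_comm n 2, pow_mul]; norm_num
      have h2 : (0 : ℝ) < 2 ^ n := by positivity
      have h5 : (4 : ℝ) ^ n ≤ x ^ 2 := by rw [h4]; nlinarith
      refine ⟨?_, ?_⟩
      · rw [pow_succ]; linarith [ih.1]
      · linarith [ih.1]
    · rw [if_neg h, add_zero]
      refine ⟨?_, ih.2⟩
      have : (0 : ℝ) < 4 ^ n := by positivity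
      rw [pow_succ]
      linarith [ih.1]

end TaskF

open TaskF in
theorem sum_scales {D : ℝ → ℝ≥0∞} (hD : Measurable D) {L : ℝ} (hL : 0 < L) :
    ∑' j : ℕ, ENNReal.ofReal (4 ^ j) * ∫⁻ s in Ioo (0 : ℝ) (L / 2 ^ j), D s ≤
      ENNReal.ofReal (2 * L ^ 2) * ∫⁻ s in Ioi (0 : ℝ), D s * ENNReal.ofReal (1 / s ^ 2) := by
  have h1 : ∀ j : ℕ, ENNReal.ofReal (4 ^ j) * ∫⁻ s in Ioo (0 : ℝ) (L / 2 ^ j), D s =
      ∫⁻ s in Ioi (0 : ℝ), D s * (if (2 : ℝ) ^ j < L / s then ENNReal.ofReal (4 ^ j) else 0) := by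
    intro j
    rw [← lintegral_const_mul _ hD]
    have hsub : Ioo (0 : ℝ) (L / 2 ^ j) = Iio (L / 2 ^ j) ∩ Ioi 0 := by
      ext s; simp [and_comm]
    rw [hsub, ← Measure.restrict_restrict measurableSet_Iio,
      ← lintegral_indicator measurableSet_Iio]
    apply setLIntegral_congr_fun measurableSet_Ioi
    intro s hs
    have hs' : (0 : ℝ) < s := hs
    have h2 : (0 : ℝ) < 2 ^ j := by positivity
    have hiff : s ∈ Iio (L / 2 ^ j) ↔ (2 : ℝ) ^ j < L / s := by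
      rw [mem_Iio, lt_div_iff₀ h2, lt_div_iff₀ hs', mul_comm]
    by_cases h : s ∈ Iio (L / 2 ^ j)
    · simp only [Set.indicator_of_mem h, if_pos (hiff.1 h)]
      exact mul_comm _ _
    · simp only [Set.indicator_of_notMem h]
      rw [if_neg (fun h' => h (hiff.2 h')), mul_zero]
  simp_rw [h1]
  have hmeas : ∀ j : ℕ, Measurable (fun s : ℝ =>
      D s * (if (2 : ℝ) ^ j < L / s then ENNReal.ofReal (4 ^ j) else 0)) := by
    intro j
    apply hD.mul
    apply Measurable.ite _ measurable_const measurable_const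
    exact measurableSet_lt measurable_const (measurable_const.div measurable_id)
  have hm2 : Measurable (fun s : ℝ => D s * ENNReal.ofReal (1 / s ^ 2)) := hD.mul (by fun_prop)
  rw [← lintegral_tsum (fun j => (hmeas j).aemeasurable), ← lintegral_const_mul _ hm2]
  apply setLIntegral_mono' measurableSet_Ioi
  intro s hs
  have hs' : (0 : ℝ) < s := hs
  rw [ENNReal.tsum_mul_left]
  have h3 : ∑' j : ℕ, (if (2 : ℝ) ^ j < L / s then ENNReal.ofReal (4 ^ j) else 0) ≤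
      ENNReal.ofReal (2 * (L / s) ^ 2) := by
    apply ENNReal.tsum_le_of_sum_range_le
    intro n
    have h4 : ∑ j ∈ Finset.range n, (if (2 : ℝ) ^ j < L / s then ENNReal.ofReal (4 ^ j) else 0) =
        ENNReal.ofReal (∑ j ∈ Finset.range n, (if (2 : ℝ) ^ j < L / s then (4 : ℝ) ^ j else 0)) := by
      rw [ENNReal.ofReal_sum_of_nonneg]
      · refine Finset.sum_congr rfl fun j _ => ?_
        split_ifs <;> simp
      · intro j _
        split_ifs <;> positivity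
    rw [h4]
    exact ENNReal.ofReal_le_ofReal (geo_bound n).2
  calc D s * ∑' j : ℕ, (if (2 : ℝ) ^ j < L / s then ENNReal.ofReal (4 ^ j) else 0)
      ≤ D s * ENNReal.ofReal (2 * (L / s) ^ 2) := by gcongr
    _ = ENNReal.ofReal (2 * L ^ 2) * (D s * ENNReal.ofReal (1 / s ^ 2)) := by
        have : 2 * (L / s) ^ 2 = 2 * L ^ 2 * (1 / s ^ 2) := by
          field_simp
        rw [this, ENNReal.ofReal_mul (by positivity)]
        ring

namespace TaskF

section meas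

variable {K : Set (ℝ × ℝ)} (hK : IsCompact K) (j : ℕ) (i : ℤ × Fin 2)

include hK

theorem meas_rowLen (u v : ℝ) :
    Measurable (fun p : ℝ × ℝ => rowLen (BB K j i p.1) u v p.2) := by
  unfold rowLen
  apply Measurable.ennreal_toReal
  have hS : MeasurableSet {q : (ℝ × ℝ) × ℝ | u ≤ q.2 ∧ q.2 < v ∧ (q.2, q.1.2) ∈ BB K j i q.1.1} := by
    have h1 : MeasurableSet {q : (ℝ × ℝ) × ℝ | u ≤ q.2} :=
      measurableSet_le measurable_const measurable_snd
    have h2 : MeasurableSet {q : (ℝ × ℝ) × ℝ | q.2 < v} :=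
      measurableSet_lt measurable_snd measurable_const
    have h3 : MeasurableSet {q : (ℝ × ℝ) × ℝ | (q.2, q.1.2) ∈ BB K j i q.1.1} := by
      have h4 : MeasurableSet {q : (ℝ × ℝ) × ℝ | 0 ≤ q.2} :=
        measurableSet_le measurable_const measurable_snd
      have h5 : MeasurableSet {q : (ℝ × ℝ) × ℝ | q.2 < 4} :=
        measurableSet_lt measurable_snd measurable_const
      have h6 : MeasurableSet {q : (ℝ × ℝ) × ℝ | (win j i + 2 ^ j * q.2,
          q.1.1 * (win j i + 2 ^ j * q.2) + q.1.2 / 2 ^ j) ∈ K} := by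
        apply IsClosed.measurableSet
        apply hK.isClosed.preimage
        fun_prop
      exact h4.inter (h5.inter h6)
    exact h1.inter (h2.inter h3)
  exact measurable_measure_prodMk_left hS

theorem meas_En (u v : ℝ) :
    Measurable (fun q : ℝ × ℝ => En (rowLen (BB K j i q.1) u v) q.2) := by
  unfold En
  have hg := meas_rowLen hK j i u v
  have h1 : Measurable (fun w : (ℝ × ℝ) × ℝ => rowLen (BB K j i w.1.1) u v (w.2 + w.1.2)) :=
    hg.comp (f := fun w : (ℝ × ℝ) × ℝ => (w.1.1, w.2 + w.1.2)) (by fun_prop)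
  have h2 : Measurable (fun w : (ℝ × ℝ) × ℝ => rowLen (BB K j i w.1.1) u v w.2) :=
    hg.comp (f := fun w : (ℝ × ℝ) × ℝ => (w.1.1, w.2)) (by fun_prop)
  have h3 : Measurable (fun w : (ℝ × ℝ) × ℝ => ENNReal.ofReal
      ((rowLen (BB K j i w.1.1) u v (w.2 + w.1.2) - rowLen (BB K j i w.1.1) u v w.2) ^ 2)) :=
    ((h1.sub h2).pow_const 2).ennreal_ofReal
  exact h3.lintegral_prod_right'

theorem meas_W {ι : Type} (s : Finset ι) (u v : ι → ℝ) (L : ℝ) :
    Measurable (fun σ : ℝ => ∫⁻ t in Ioo (0 : ℝ) L, ∑ γ ∈ s,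
      En (rowLen (BB K j i σ) (u γ) (v γ)) t) := by
  have h : Measurable (fun q : ℝ × ℝ => ∑ γ ∈ s,
      En (rowLen (BB K j i q.1) (u γ) (v γ)) q.2) :=
    Finset.measurable_sum _ (fun γ _ => meas_En hK j i (u γ) (v γ))
  exact h.lintegral_prod_right'

end meas

theorem fB_eq (B : Set (ℝ × ℝ)) :
    fB B = rowLen B ((((0 : ℕ) : ℝ)) * (4 / ((1 : ℕ) : ℝ))) (((((0 : ℕ) : ℝ)) + 1) *
      (4 / ((1 : ℕ) : ℝ))) := by
  ext y
  simp [fB]

theorem col_eq (B : Set (ℝ × ℝ)) (k γ : ℕ) :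
    col B k (γ : ℤ) = rowLen B ((γ : ℝ) * (4 / ((2 * 16 ^ k : ℕ) : ℝ)))
      (((γ : ℝ) + 1) * (4 / ((2 * 16 ^ k : ℕ) : ℝ))) := by
  have : (4 / ((2 * 16 ^ k : ℕ) : ℝ)) = rho k := by
    rw [rho]
    push_cast
    have : (16 : ℝ) ^ k ≠ 0 := by positivity
    field_simp
    norm_num
  ext y
  rw [col, this]
  simp

/-- total energies -/
theorem window_sum {K : Set (ℝ × ℝ)} (hK : IsCompact K) {η : ℝ} (hη : 0 < η)
    (gap : ∀ p ∈ K, ∀ q ∈ K, ∀ r ∈ K, η ≤ |dt p q r - 2|) {D : ℝ → ℝ≥0∞}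
    (hD : EnergyBound K D) (j : ℕ) :
    ∫⁻ σ : ℝ, ∑' i : ℤ × Fin 2, volume (Q (BB K j i σ)) ≤
      10 ^ 6 * (2 * (∫⁻ s in Ioo (0 : ℝ) (4 / 2 ^ j), D s) +
        (∑' k : ℕ, ENNReal.ofReal ((2 / 3) ^ k * 256 ^ k) *
          (2 * ∫⁻ s in Ioo (0 : ℝ) ((2 / 16 ^ k) / 2 ^ j), D s)) +
        (∑' k : ℕ, ENNReal.ofReal (8 ^ k) *
          (2 * ∫⁻ s in Ioo (0 : ℝ) ((2 / 4 ^ k) / 2 ^ j), D s))) := by
  set F1 : ℝ → ℝ≥0∞ := fun σ => ∑' i : ℤ × Fin 2, ∫⁻ t in Ioo (0 : ℝ) 4, En (fB (BB K j i σ)) t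
    with hF1
  set F2 : ℕ → ℝ → ℝ≥0∞ := fun k σ => ∑' i : ℤ × Fin 2,
    ∫⁻ t in Ioo (0 : ℝ) (2 / 16 ^ k), En (fB (BB K j i σ)) t with hF2
  set F3 : ℕ → ℝ → ℝ≥0∞ := fun k σ => ∑' i : ℤ × Fin 2,
    ∫⁻ t in Ioo (0 : ℝ) (2 / 4 ^ k), ∑ γ ∈ Finset.range (2 * 16 ^ k),
      En (col (BB K j i σ) k (γ : ℤ)) t with hF3
  have e1 : ∀ (L σ : ℝ) (i : ℤ × Fin 2), ∫⁻ t in Ioo (0 : ℝ) L, En (fB (BB K j i σ)) t =
      ∫⁻ t in Ioo (0 : ℝ) L, ∑ γ ∈ Finset.range 1,
        En (rowLen (BB K j i σ) ((γ : ℝ) * (4 / ((1 : ℕ) : ℝ))) (((γ : ℝ) + 1) *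
          (4 / ((1 : ℕ) : ℝ)))) t := by
    intro L σ i
    simp only [Finset.sum_range_one]
    rw [fB_eq]
  have e3 : ∀ (k : ℕ) (L σ : ℝ) (i : ℤ × Fin 2), ∫⁻ t in Ioo (0 : ℝ) L,
      ∑ γ ∈ Finset.range (2 * 16 ^ k), En (col (BB K j i σ) k (γ : ℤ)) t =
      ∫⁻ t in Ioo (0 : ℝ) L, ∑ γ ∈ Finset.range (2 * 16 ^ k),
        En (rowLen (BB K j i σ) ((γ : ℝ) * (4 / ((2 * 16 ^ k : ℕ) : ℝ))) (((γ : ℝ) + 1) *
          (4 / ((2 * 16 ^ k : ℕ) : ℝ)))) t := by
    intro k L σ i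
    simp only [col_eq]
  have m1 : Measurable F1 := by
    simp only [hF1, e1]
    exact Measurable.tsum (fun i => meas_W hK j i _ _ _ _)
  have m2 : ∀ k, Measurable (F2 k) := by
    intro k
    simp only [hF2, e1]
    exact Measurable.tsum (fun i => meas_W hK j i _ _ _ _)
  have m3 : ∀ k, Measurable (F3 k) := by
    intro k
    simp only [hF3, e3]
    exact Measurable.tsum (fun i => meas_W hK j i _ _ _ _)
  have b1 : ∫⁻ σ, F1 σ ≤ 2 * ∫⁻ s in Ioo (0 : ℝ) (4 / 2 ^ j), D s := by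
    simp only [hF1, e1]
    exact energies_BB hK hD j 1 one_pos 4
  have b2 : ∀ k, ∫⁻ σ, F2 k σ ≤ 2 * ∫⁻ s in Ioo (0 : ℝ) ((2 / 16 ^ k) / 2 ^ j), D s := by
    intro k
    simp only [hF2, e1]
    exact energies_BB hK hD j 1 one_pos _
  have b3 : ∀ k, ∫⁻ σ, F3 k σ ≤ 2 * ∫⁻ s in Ioo (0 : ℝ) ((2 / 4 ^ k) / 2 ^ j), D s := by
    intro k
    simp only [hF3, e3]
    exact energies_BB hK hD j (2 * 16 ^ k) (by positivity) _
  have hpt : ∀ σ : ℝ, ∑' i : ℤ × Fin 2, volume (Q (BB K j i σ)) ≤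
      10 ^ 6 * (F1 σ + ∑' k : ℕ, ENNReal.ofReal ((2 / 3) ^ k * 256 ^ k) * F2 k σ +
        ∑' k : ℕ, ENNReal.ofReal (8 ^ k) * F3 k σ) := by
    intro σ
    have h1 : ∀ i : ℤ × Fin 2, volume (Q (BB K j i σ)) ≤ _ := fun i =>
      lemmaI (nice_BB hK hη gap j i σ).choose_spec
    refine (ENNReal.tsum_le_tsum h1).trans (le_of_eq ?_)
    rw [ENNReal.tsum_mul_left, ENNReal.tsum_add, ENNReal.tsum_add]
    simp only [hF1, hF2, hF3]
    congr 2
    · congr 1
      rw [ENNReal.tsum_comm]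
      refine tsum_congr fun k => ?_
      rw [ENNReal.tsum_mul_left]
    · rw [ENNReal.tsum_comm]
      refine tsum_congr fun k => ?_
      rw [ENNReal.tsum_mul_left]
  have mA : Measurable (fun σ => ∑' k : ℕ, ENNReal.ofReal ((2 / 3) ^ k * 256 ^ k) * F2 k σ) :=
    Measurable.tsum (fun k => (m2 k).const_mul _)
  have mB : Measurable (fun σ => ∑' k : ℕ, ENNReal.ofReal (8 ^ k) * F3 k σ) :=
    Measurable.tsum (fun k => (m3 k).const_mul _)
  have m1A : Measurable (fun σ => F1 σ + ∑' k : ℕ, ENNReal.ofReal ((2 / 3) ^ k * 256 ^ k) *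
      F2 k σ) := m1.add mA
  have mAll : Measurable (fun σ => F1 σ + ∑' k : ℕ, ENNReal.ofReal ((2 / 3) ^ k * 256 ^ k) *
      F2 k σ + ∑' k : ℕ, ENNReal.ofReal (8 ^ k) * F3 k σ) := m1A.add mB
  refine (lintegral_mono hpt).trans ?_
  rw [lintegral_const_mul _ mAll, lintegral_add_left m1A, lintegral_add_left m1,
    lintegral_tsum (fun k => ((m2 k).const_mul _).aemeasurable),
    lintegral_tsum (fun k => ((m3 k).const_mul _).aemeasurable)]
  gcongr with k k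
  · rw [lintegral_const_mul _ (m2 k)]
    gcongr
    exact b2 k
  · rw [lintegral_const_mul _ (m3 k)]
    gcongr
    exact b3 k

theorem tsum_geo (c : ℝ) (hc : 0 ≤ c) (r : ℝ) (hr0 : 0 ≤ r) (hr1 : r < 1) :
    ∑' k : ℕ, ENNReal.ofReal (c * r ^ k) = ENNReal.ofReal (c / (1 - r)) := by
  rw [← ENNReal.ofReal_tsum_of_nonneg (fun k => by positivity)
    ((summable_geometric_of_lt_one hr0 hr1).mul_left c), tsum_mul_left,
    tsum_geometric_of_lt_one hr0 hr1]
  rfl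

/-- pairs of `K` with horizontal distance at least `1` -/
def T1 (K : Set (ℝ × ℝ)) : Set ((ℝ × ℝ) × (ℝ × ℝ)) := {w | w.1 ∈ K ∧ w.2 ∈ K ∧ 1 ≤ w.2.1 - w.1.1}

theorem meas_T1 {K : Set (ℝ × ℝ)} (hK : IsCompact K) : MeasurableSet (T1 K) := by
  have h1 : MeasurableSet {w : (ℝ × ℝ) × (ℝ × ℝ) | w.1 ∈ K} :=
    hK.measurableSet.preimage measurable_fst
  have h2 : MeasurableSet {w : (ℝ × ℝ) × (ℝ × ℝ) | w.2 ∈ K} :=
    hK.measurableSet.preimage measurable_snd
  have h3 : MeasurableSet {w : (ℝ × ℝ) × (ℝ × ℝ) | 1 ≤ w.2.1 - w.1.1} :=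
    measurableSet_le measurable_const (by fun_prop)
  exact h1.inter (h2.inter h3)

theorem meas_pair {K : Set (ℝ × ℝ)} (hK : IsCompact K) (a b : ℝ) :
    Measurable (fun p : ℝ × ℝ => volume {q : ℝ × ℝ | q ∈ K ∧ a ≤ q.1 - p.1 ∧ q.1 - p.1 ≤ b}) := by
  have hS : MeasurableSet {w : (ℝ × ℝ) × (ℝ × ℝ) | w.2 ∈ K ∧ a ≤ w.2.1 - w.1.1 ∧
      w.2.1 - w.1.1 ≤ b} := by
    have h2 : MeasurableSet {w : (ℝ × ℝ) × (ℝ × ℝ) | w.2 ∈ K} :=
      hK.measurableSet.preimage measurable_snd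
    have h3 : MeasurableSet {w : (ℝ × ℝ) × (ℝ × ℝ) | a ≤ w.2.1 - w.1.1} :=
      measurableSet_le measurable_const (by fun_prop)
    have h4 : MeasurableSet {w : (ℝ × ℝ) × (ℝ × ℝ) | w.2.1 - w.1.1 ≤ b} :=
      measurableSet_le (by fun_prop) measurable_const
    exact h2.inter (h3.inter h4)
  exact measurable_measure_prodMk_left hS

theorem exists_scale {x : ℝ} (hx : 1 ≤ x) : ∃ j : ℕ, (2 : ℝ) ^ j ≤ x ∧ x ≤ 2 * 2 ^ j := by
  obtain ⟨n, h1, h2⟩ := exists_nat_pow_near hx (by norm_num : (1 : ℝ) < 2)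
  exact ⟨n, h1, by rw [pow_succ] at h2; linarith⟩

end TaskF

open TaskF in
/-- half of the pairs -/
theorem pairs_total {K : Set (ℝ × ℝ)} (hK : IsCompact K) {η : ℝ} (hη : 0 < η)
    (gap : ∀ p ∈ K, ∀ q ∈ K, ∀ r ∈ K, η ≤ |dt p q r - 2|) :
    ∫⁻ p in K, volume {q : ℝ × ℝ | q ∈ K ∧ 1 ≤ q.1 - p.1} ≤ 10 ^ 11 * volume K := by
  obtain ⟨D, hD, hI⟩ := energy hK
  set I : ℝ≥0∞ := ∫⁻ s in Ioi (0 : ℝ), D s * ENNReal.ofReal (1 / s ^ 2) with hIdef
  have h1 : ∫⁻ p in K, volume {q : ℝ × ℝ | q ∈ K ∧ 1 ≤ q.1 - p.1} ≤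
      ∑' j : ℕ, ∫⁻ p in K, volume {q : ℝ × ℝ | q ∈ K ∧ 2 ^ j ≤ q.1 - p.1 ∧
        q.1 - p.1 ≤ 2 * 2 ^ j} := by
    rw [← lintegral_tsum (fun j => (meas_pair hK _ _).aemeasurable)]
    apply lintegral_mono
    intro p
    refine (measure_mono ?_).trans (measure_iUnion_le _)
    rintro q ⟨hq, hq1⟩
    obtain ⟨j, hj1, hj2⟩ := exists_scale hq1
    exact mem_iUnion.2 ⟨j, hq, hj1, hj2⟩
  set G : ℝ → ℝ≥0∞ := fun x => ∫⁻ s in Ioo (0 : ℝ) x, D s with hG
  have h2 : ∀ j : ℕ, ∫⁻ p in K, volume {q : ℝ × ℝ | q ∈ K ∧ 2 ^ j ≤ q.1 - p.1 ∧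
        q.1 - p.1 ≤ 2 * 2 ^ j} ≤ (4 * 10 ^ 6) * (ENNReal.ofReal (4 ^ j) * G (4 / 2 ^ j) +
        (∑' k : ℕ, ENNReal.ofReal ((2 / 3) ^ k * 256 ^ k) *
          (ENNReal.ofReal (4 ^ j) * G ((2 / 16 ^ k) / 2 ^ j))) +
        (∑' k : ℕ, ENNReal.ofReal (8 ^ k) *
          (ENNReal.ofReal (4 ^ j) * G ((2 / 4 ^ k) / 2 ^ j)))) := by
    intro j
    refine (pairs_le hK j).trans ?_
    have h3 := window_sum hK hη gap hD j
    refine (mul_le_mul_right h3 _).trans (le_of_eq ?_)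
    rw [ENNReal.ofReal_mul (by norm_num : (0 : ℝ) ≤ 2)]
    have e2 : ∀ k : ℕ, ENNReal.ofReal ((2 / 3) ^ k * 256 ^ k) *
          (2 * ∫⁻ s in Ioo (0 : ℝ) ((2 / 16 ^ k) / 2 ^ j), D s) =
        2 * (ENNReal.ofReal ((2 / 3) ^ k * 256 ^ k) * G ((2 / 16 ^ k) / 2 ^ j)) := by
      intro k; simp only [hG]; ring
    have e3 : ∀ k : ℕ, ENNReal.ofReal (8 ^ k) *
          (2 * ∫⁻ s in Ioo (0 : ℝ) ((2 / 4 ^ k) / 2 ^ j), D s) =
        2 * (ENNReal.ofReal (8 ^ k) * G ((2 / 4 ^ k) / 2 ^ j)) := by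
      intro k; simp only [hG]; ring
    have e4 : ∀ k : ℕ, ENNReal.ofReal ((2 / 3) ^ k * 256 ^ k) *
          (ENNReal.ofReal (4 ^ j) * G ((2 / 16 ^ k) / 2 ^ j)) =
        ENNReal.ofReal (4 ^ j) * (ENNReal.ofReal ((2 / 3) ^ k * 256 ^ k) *
          G ((2 / 16 ^ k) / 2 ^ j)) := by
      intro k; ring
    have e5 : ∀ k : ℕ, ENNReal.ofReal (8 ^ k) *
          (ENNReal.ofReal (4 ^ j) * G ((2 / 4 ^ k) / 2 ^ j)) =
        ENNReal.ofReal (4 ^ j) * (ENNReal.ofReal (8 ^ k) * G ((2 / 4 ^ k) / 2 ^ j)) := by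
      intro k; ring
    simp_rw [e2, e3, e4, e5]
    rw [ENNReal.tsum_mul_left, ENNReal.tsum_mul_left, ENNReal.tsum_mul_left,
      ENNReal.tsum_mul_left]
    have : ENNReal.ofReal 2 = 2 := by norm_num
    rw [this]
    simp only [hG]
    ring
  have hs : ∀ {L : ℝ}, 0 < L → ∑' j : ℕ, ENNReal.ofReal (4 ^ j) * G (L / 2 ^ j) ≤
      ENNReal.ofReal (2 * L ^ 2) * I := fun hL => sum_scales hD.1 hL
  have h4 : ∑' j : ℕ, ∫⁻ p in K, volume {q : ℝ × ℝ | q ∈ K ∧ 2 ^ j ≤ q.1 - p.1 ∧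
        q.1 - p.1 ≤ 2 * 2 ^ j} ≤ (4 * 10 ^ 6) * (72 * I) := by
    refine (ENNReal.tsum_le_tsum h2).trans ?_
    rw [ENNReal.tsum_mul_left, ENNReal.tsum_add, ENNReal.tsum_add]
    have c1 : ∑' j : ℕ, ENNReal.ofReal (4 ^ j) * G (4 / 2 ^ j) ≤ 32 * I := by
      refine (hs (by norm_num : (0 : ℝ) < 4)).trans (le_of_eq ?_)
      norm_num
    have c2 : ∑' j : ℕ, ∑' k : ℕ, ENNReal.ofReal ((2 / 3) ^ k * 256 ^ k) *
          (ENNReal.ofReal (4 ^ j) * G ((2 / 16 ^ k) / 2 ^ j)) ≤ 24 * I := by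
      rw [ENNReal.tsum_comm]
      calc ∑' k : ℕ, ∑' j : ℕ, ENNReal.ofReal ((2 / 3) ^ k * 256 ^ k) *
            (ENNReal.ofReal (4 ^ j) * G ((2 / 16 ^ k) / 2 ^ j))
          = ∑' k : ℕ, ENNReal.ofReal ((2 / 3) ^ k * 256 ^ k) *
            ∑' j : ℕ, (ENNReal.ofReal (4 ^ j) * G ((2 / 16 ^ k) / 2 ^ j)) :=
            tsum_congr fun k => ENNReal.tsum_mul_left
        _ ≤ ∑' k : ℕ, ENNReal.ofReal (8 * (2 / 3) ^ k) * I := by
            refine ENNReal.tsum_le_tsum fun k => ?_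
            refine (mul_le_mul_right (hs (by positivity : (0 : ℝ) < 2 / 16 ^ k)) _).trans
              (le_of_eq ?_)
            rw [← mul_assoc, ← ENNReal.ofReal_mul (by positivity)]
            congr 2
            have h256 : (256 : ℝ) ^ k = (16 ^ k) ^ 2 := by
              rw [← pow_mul, mul_comm k 2, pow_mul]; norm_num
            rw [h256]
            have : (16 : ℝ) ^ k ≠ 0 := by positivity
            field_simp
            norm_num
        _ = 24 * I := by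
            rw [ENNReal.tsum_mul_right, tsum_geo 8 (by norm_num) (2 / 3) (by norm_num)
              (by norm_num)]
            norm_num
    have c3 : ∑' j : ℕ, ∑' k : ℕ, ENNReal.ofReal (8 ^ k) *
          (ENNReal.ofReal (4 ^ j) * G ((2 / 4 ^ k) / 2 ^ j)) ≤ 16 * I := by
      rw [ENNReal.tsum_comm]
      calc ∑' k : ℕ, ∑' j : ℕ, ENNReal.ofReal (8 ^ k) *
            (ENNReal.ofReal (4 ^ j) * G ((2 / 4 ^ k) / 2 ^ j))
          = ∑' k : ℕ, ENNReal.ofReal (8 ^ k) *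
            ∑' j : ℕ, (ENNReal.ofReal (4 ^ j) * G ((2 / 4 ^ k) / 2 ^ j)) :=
            tsum_congr fun k => ENNReal.tsum_mul_left
        _ ≤ ∑' k : ℕ, ENNReal.ofReal (8 * (1 / 2) ^ k) * I := by
            refine ENNReal.tsum_le_tsum fun k => ?_
            refine (mul_le_mul_right (hs (by positivity : (0 : ℝ) < 2 / 4 ^ k)) _).trans
              (le_of_eq ?_)
            rw [← mul_assoc, ← ENNReal.ofReal_mul (by positivity)]
            congr 2
            have h4 : (4 : ℝ) ^ k = (2 ^ k) ^ 2 := by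
              rw [← pow_mul, mul_comm k 2, pow_mul]; norm_num
            have h8 : (8 : ℝ) ^ k = (2 ^ k) ^ 3 := by
              rw [← pow_mul, mul_comm k 3, pow_mul]; norm_num
            rw [h4, h8, one_div, inv_pow]
            have : (2 : ℝ) ^ k ≠ 0 := by positivity
            field_simp
            norm_num
        _ = 16 * I := by
            rw [ENNReal.tsum_mul_right, tsum_geo 8 (by norm_num) (1 / 2) (by norm_num)
              (by norm_num)]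
            norm_num
    refine mul_le_mul_right ?_ _
    calc _ ≤ 32 * I + 24 * I + 16 * I := add_le_add (add_le_add c1 c2) c3
      _ = 72 * I := by ring
  calc ∫⁻ p in K, volume {q : ℝ × ℝ | q ∈ K ∧ 1 ≤ q.1 - p.1}
      ≤ (4 * 10 ^ 6) * (72 * I) := h1.trans h4
    _ ≤ (4 * 10 ^ 6) * (72 * (44 * volume K)) := by gcongr
    _ = (4 * 10 ^ 6 * 72 * 44) * volume K := by ring
    _ ≤ 10 ^ 11 * volume K := by
        gcongr
        norm_num

namespace TaskF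

theorem prod_T1 {K : Set (ℝ × ℝ)} (hK : IsCompact K) :
    (volume : Measure ((ℝ × ℝ) × (ℝ × ℝ))) (T1 K) =
      ∫⁻ p in K, volume {q : ℝ × ℝ | q ∈ K ∧ 1 ≤ q.1 - p.1} := by
  rw [Measure.volume_eq_prod, Measure.prod_apply (meas_T1 hK), ← lintegral_indicator hK.measurableSet]
  refine lintegral_congr fun p => ?_
  by_cases hp : p ∈ K
  · rw [Set.indicator_of_mem hp]
    congr 1
    ext q
    simp [T1, hp]
  · rw [Set.indicator_of_notMem hp]
    convert measure_empty (μ := (volume : Measure (ℝ × ℝ)))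
    ext q
    simp [T1, hp]

theorem dt_swap (p q r : ℝ × ℝ) : dt p.swap q.swap r.swap = dt p r q := by
  simp only [dt, Prod.fst_swap, Prod.snd_swap]
  ring

/-- the coordinates of both points interchanged -/
theorem mp_swap2 : MeasurePreserving
    (Prod.map (Prod.swap : ℝ × ℝ → ℝ × ℝ) (Prod.swap : ℝ × ℝ → ℝ × ℝ))
    (volume : Measure ((ℝ × ℝ) × (ℝ × ℝ))) volume := by
  have h : MeasurePreserving (Prod.swap : ℝ × ℝ → ℝ × ℝ) volume volume :=
    Measure.measurePreserving_swap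
  exact h.prod h

end TaskF

open TaskF in
theorem main_bound {K : Set (ℝ × ℝ)} (hK : IsCompact K) {η : ℝ} (hη : 0 < η)
    (gap : ∀ p ∈ K, ∀ q ∈ K, ∀ r ∈ K, η ≤ |dt p q r - 2|) :
    volume K ≤ 10 ^ 12 := by
  -- the set with the coordinates interchanged
  set K' : Set (ℝ × ℝ) := Prod.swap ⁻¹' K with hK'
  have hK'c : IsCompact K' := by
    have : K' = Prod.swap '' K := by
      rw [hK', Set.image_swap_eq_preimage_swap]
    rw [this]
    exact hK.image continuous_swap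
  have gap' : ∀ p ∈ K', ∀ q ∈ K', ∀ r ∈ K', η ≤ |dt p q r - 2| := by
    intro p hp q hq r hr
    have := gap _ hp _ hr _ hq
    rwa [← dt_swap, Prod.swap_swap, Prod.swap_swap, Prod.swap_swap] at this
  have hvK' : volume K' = volume K :=
    (Measure.measurePreserving_swap (μ := (volume : Measure ℝ))
      (ν := (volume : Measure ℝ))).measure_preimage hK.measurableSet.nullMeasurableSet
  have b1 : volume (T1 K) ≤ 10 ^ 11 * volume K := by
    rw [prod_T1 hK]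
    exact pairs_total hK hη gap
  have b2 : volume (T1 K') ≤ 10 ^ 11 * volume K := by
    rw [prod_T1 hK'c, ← hvK']
    exact pairs_total hK'c hη gap'
  have hsw : MeasurePreserving (Prod.swap : (ℝ × ℝ) × (ℝ × ℝ) → (ℝ × ℝ) × (ℝ × ℝ))
      volume volume := Measure.measurePreserving_swap
  have b3 : volume (Prod.swap ⁻¹' T1 K) ≤ 10 ^ 11 * volume K := by
    rw [hsw.measure_preimage (meas_T1 hK).nullMeasurableSet]
    exact b1
  have b4 : volume (Prod.map Prod.swap Prod.swap ⁻¹' T1 K' : Set ((ℝ × ℝ) × (ℝ × ℝ))) ≤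
      10 ^ 11 * volume K := by
    rw [mp_swap2.measure_preimage (meas_T1 hK'c).nullMeasurableSet]
    exact b2
  have b5 : volume (Prod.map Prod.swap Prod.swap ⁻¹' (Prod.swap ⁻¹' T1 K') :
      Set ((ℝ × ℝ) × (ℝ × ℝ))) ≤ 10 ^ 11 * volume K := by
    rw [mp_swap2.measure_preimage ((meas_T1 hK'c).preimage measurable_swap).nullMeasurableSet,
      hsw.measure_preimage (meas_T1 hK'c).nullMeasurableSet]
    exact b2
  -- close pairs
  set C0 : Set ((ℝ × ℝ) × (ℝ × ℝ)) := {w | w.1 ∈ K ∧ w.2 ∈ K ∧ |w.2.1 - w.1.1| ≤ 1 ∧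
    |w.2.2 - w.1.2| ≤ 1} with hC0
  have mC0 : MeasurableSet C0 := by
    have h1 : MeasurableSet {w : (ℝ × ℝ) × (ℝ × ℝ) | w.1 ∈ K} :=
      hK.measurableSet.preimage measurable_fst
    have h2 : MeasurableSet {w : (ℝ × ℝ) × (ℝ × ℝ) | w.2 ∈ K} :=
      hK.measurableSet.preimage measurable_snd
    have h3 : MeasurableSet {w : (ℝ × ℝ) × (ℝ × ℝ) | |w.2.1 - w.1.1| ≤ 1} := by
      apply IsClosed.measurableSet
      exact isClosed_le (by fun_prop) continuous_const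
    have h4 : MeasurableSet {w : (ℝ × ℝ) × (ℝ × ℝ) | |w.2.2 - w.1.2| ≤ 1} := by
      apply IsClosed.measurableSet
      exact isClosed_le (by fun_prop) continuous_const
    exact h1.inter (h2.inter (h3.inter h4))
  have b0 : volume C0 ≤ 4 * volume K := by
    rw [Measure.volume_eq_prod, Measure.prod_apply mC0]
    calc ∫⁻ p, volume (Prod.mk p ⁻¹' C0) ≤ ∫⁻ p, K.indicator (fun _ => (4 : ℝ≥0∞)) p := by
          refine lintegral_mono fun p => ?_
          by_cases hp : p ∈ K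
          · rw [Set.indicator_of_mem hp]
            have hsub : Prod.mk p ⁻¹' C0 ⊆ Icc (p.1 - 1) (p.1 + 1) ×ˢ Icc (p.2 - 1) (p.2 + 1) := by
              intro q hq
              obtain ⟨_, _, h1, h2⟩ := hq
              rw [abs_le] at h1 h2
              simp only at h1 h2
              exact ⟨⟨by linarith, by linarith⟩, ⟨by linarith, by linarith⟩⟩
            refine (measure_mono hsub).trans ?_
            rw [Measure.volume_eq_prod, Measure.prod_prod, Real.volume_Icc, Real.volume_Icc]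
            have e1 : p.1 + 1 - (p.1 - 1) = 2 := by ring
            have e2 : p.2 + 1 - (p.2 - 1) = 2 := by ring
            rw [e1, e2, ← ENNReal.ofReal_mul (by norm_num)]
            norm_num
          · rw [Set.indicator_of_notMem hp]
            have : Prod.mk p ⁻¹' C0 = ∅ := by
              ext q
              simp [hC0, hp]
            rw [this]
            simp
      _ = 4 * volume K := by
          rw [lintegral_indicator_const hK.measurableSet]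
  have hcover : K ×ˢ K ⊆ C0 ∪ (T1 K ∪ (Prod.swap ⁻¹' T1 K ∪
      (Prod.map Prod.swap Prod.swap ⁻¹' T1 K' ∪
        Prod.map Prod.swap Prod.swap ⁻¹' (Prod.swap ⁻¹' T1 K')))) := by
    rintro ⟨p, q⟩ ⟨hp, hq⟩
    simp only at hp hq
    by_cases h1 : 1 ≤ q.1 - p.1
    · exact Or.inr (Or.inl ⟨hp, hq, h1⟩)
    by_cases h2 : 1 ≤ p.1 - q.1
    · exact Or.inr (Or.inr (Or.inl ⟨hq, hp, h2⟩))
    by_cases h3 : 1 ≤ q.2 - p.2
    · exact Or.inr (Or.inr (Or.inr (Or.inl ⟨by simpa [hK'] using hp, by simpa [hK'] using hq, h3⟩)))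
    by_cases h4 : 1 ≤ p.2 - q.2
    · exact Or.inr (Or.inr (Or.inr (Or.inr
        ⟨by simpa [hK'] using hq, by simpa [hK'] using hp, h4⟩)))
    · push Not at h1 h2 h3 h4
      left
      refine ⟨hp, hq, ?_, ?_⟩
      · rw [abs_le]; constructor <;> (simp only; linarith)
      · rw [abs_le]; constructor <;> (simp only; linarith)
  have hsq : volume K * volume K ≤ (4 + 4 * 10 ^ 11) * volume K := by
    have h1 : volume (K ×ˢ K) = volume K * volume K := by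
      rw [Measure.volume_eq_prod, Measure.prod_prod]
    rw [← h1]
    calc volume (K ×ˢ K) ≤ volume C0 + (volume (T1 K) + (volume (Prod.swap ⁻¹' T1 K) +
          (volume (Prod.map Prod.swap Prod.swap ⁻¹' T1 K' : Set ((ℝ × ℝ) × (ℝ × ℝ))) +
            volume (Prod.map Prod.swap Prod.swap ⁻¹' (Prod.swap ⁻¹' T1 K') :
              Set ((ℝ × ℝ) × (ℝ × ℝ)))))) := by
          refine (measure_mono hcover).trans ?_
          refine (measure_union_le _ _).trans (add_le_add_right ?_ _)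
          refine (measure_union_le _ _).trans (add_le_add_right ?_ _)
          refine (measure_union_le _ _).trans (add_le_add_right ?_ _)
          exact measure_union_le _ _
      _ ≤ 4 * volume K + (10 ^ 11 * volume K + (10 ^ 11 * volume K +
          (10 ^ 11 * volume K + 10 ^ 11 * volume K))) := by gcongr
      _ = (4 + 4 * 10 ^ 11) * volume K := by ring
  by_cases h0 : volume K = 0
  · rw [h0]; exact zero_le
  have hfin : volume K ≠ ∞ := hK.measure_lt_top.ne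
  have h5 : volume K ≤ 4 + 4 * 10 ^ 11 := by
    rwa [ENNReal.mul_le_mul_iff_left h0 hfin] at hsq
  refine h5.trans ?_
  norm_num

theorem main :
    ∃ c : ℝ, 0 < c ∧ ∀ A : Set (ℝ × ℝ), NullMeasurableSet A volume →
      ENNReal.ofReal c ≤ volume A →
      ∃ p ∈ A, ∃ q ∈ A, ∃ r ∈ A,
        |(q.1 - p.1) * (r.2 - p.2) - (r.1 - p.1) * (q.2 - p.2)| = 2 := by
  refine ⟨2 * 10 ^ 12, by norm_num, ?_⟩
  intro A hA hvol
  by_contra hno
  push Not at hno
  obtain ⟨A', hA'A, hA'm, hA'e⟩ := hA.exists_measurable_subset_ae_eq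
  have hv' : volume A' = volume A := measure_congr hA'e
  have hlt : (10 ^ 12 : ℝ≥0∞) < volume A' := by
    rw [hv']
    refine lt_of_lt_of_le ?_ hvol
    have : (10 ^ 12 : ℝ≥0∞) = ENNReal.ofReal (10 ^ 12) := by
      rw [ENNReal.ofReal_pow (by norm_num)]
      norm_num
    rw [this]
    exact (ENNReal.ofReal_lt_ofReal_iff (by norm_num)).2 (by norm_num)
  obtain ⟨K, hKA, hKc, hKv⟩ := hA'm.exists_lt_isCompact hlt
  have hKne : K.Nonempty := by
    rw [Set.nonempty_iff_ne_empty]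
    rintro rfl
    simp at hKv
  set φ : (ℝ × ℝ) × (ℝ × ℝ) × (ℝ × ℝ) → ℝ := fun w => |dt w.1 w.2.1 w.2.2 - 2| with hφ
  have hφc : Continuous φ := by
    simp only [hφ, dt]
    fun_prop
  obtain ⟨w, hw, hmin⟩ := (hKc.prod (hKc.prod hKc)).exists_isMinOn
    (hKne.prod (hKne.prod hKne)) hφc.continuousOn
  have hpos : 0 < φ w := by
    rw [hφ]
    simp only
    rw [abs_pos, sub_ne_zero]
    intro h
    apply hno w.1 (hA'A (hKA hw.1)) w.2.1 (hA'A (hKA hw.2.1)) w.2.2 (hA'A (hKA hw.2.2))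
    have : (w.2.1.1 - w.1.1) * (w.2.2.2 - w.1.2) - (w.2.2.1 - w.1.1) * (w.2.1.2 - w.1.2) = 2 := h
    rw [this]
    norm_num
  have h := main_bound hKc hpos (fun p hp q hq r hr => hmin (show (p, q, r) ∈ _ from
    ⟨hp, hq, hr⟩))
  exact absurd hKv (not_lt.2 h)

end Pool.Agent.H270R2.UT
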