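import Pool.Agent.H270R2.UT.Defs

/-!
# Blueprint: exact statements of the tasks (all `sorry`; do not import in final files)
-/

open MeasureTheory Set
open scoped ENNReal

namespace Pool.Agent.H270R2.UT

/-! ## Task E : energy of the X-ray transform over all slopes (Plancherel) -/

/-- `D` bounds the total energy of the X-ray transforms of disjoint column sets -/
def EnergyBound (K : Set (ℝ × ℝ)) (D : ℝ → ℝ≥0∞) : Prop :=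
  Measurable D ∧ ∀ (s : ℝ) (ι : Type) [Countable ι] (E : ι → Set ℝ),
    (∀ i, MeasurableSet (E i)) → Pairwise (Function.onFun Disjoint E) →
      ∑' i, ∫⁻ σ, En (xray K (E i) σ) s ≤ D s

theorem energy {K : Set (ℝ × ℝ)} (hK : IsCompact K) :
    ∃ D : ℝ → ℝ≥0∞, EnergyBound K D ∧
      ∫⁻ s in Ioi (0 : ℝ), D s * ENNReal.ofReal (1 / s ^ 2) ≤ 44 * volume K := sorry

/-! ## Task V : one-dimensional averages -/

theorem avg_var {g : ℝ → ℝ} (hg : Measurable g) {M R : ℝ} (hM : ∀ y, |g y| ≤ M)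
    (hR : ∀ y, R < |y| → g y = 0) {L : ℝ} (hL : 0 < L) :
    ∫⁻ y, ENNReal.ofReal ((g y - av L g (ix L y)) ^ 2) ≤
      ENNReal.ofReal (1 / L) * ∫⁻ t in Ioo 0 L, En g t := sorry

theorem child_sum {g : ℝ → ℝ} (hg : Measurable g) {M R : ℝ} (hM : ∀ y, |g y| ≤ M)
    (hR : ∀ y, R < |y| → g y = 0) {L : ℝ} (hL : 0 < L) :
    ∑' n : ℤ, ENNReal.ofReal ((av (L / 16) g n - av L g (n / 16)) ^ 2) ≤
      ENNReal.ofReal (16 / L ^ 2) * ∫⁻ t in Ioo 0 L, En g t := sorry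

theorem neighbour_sum {g : ℝ → ℝ} (hg : Measurable g) {M R : ℝ} (hM : ∀ y, |g y| ≤ M)
    (hR : ∀ y, R < |y| → g y = 0) {L : ℝ} (hL : 0 < L) :
    ∑' n : ℤ, ENNReal.ofReal ((av L g n - av L g (n + 1)) ^ 2) ≤
      ENNReal.ofReal (1 / L ^ 2) * ∫⁻ t in Ioo 0 (2 * L), En g t := sorry

/-! ## Task W : bad rows -/

theorem bad_energy {f : ℝ → ℝ} (hf : Measurable f) {M R : ℝ} (h0 : ∀ y, 0 ≤ f y)
    (hM : ∀ y, |f y| ≤ M) (hR : ∀ y, R < |y| → f y = 0) (K : ℕ) :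
    ∫⁻ y in (Good f K)ᶜ, ENNReal.ofReal (f y ^ 2) ≤ 9 * ∫⁻ t in Ioo (0 : ℝ) 4, En f t := sorry

/-! ## Task U : pairs in big columns -/

theorem type2 {B : Set (ℝ × ℝ)} {R η : ℝ} (h : Nice B R η) {K k : ℕ} (hk : k ≤ K) :
    volume {p : ℝ × ℝ × ℝ | p ∈ Q B ∧ p.1 ∈ Good (fB B) K ∧
      (Big B k (ix (rho k) p.2.1) p.1 ∨ Big B k (ix (rho k) p.2.2) p.1)} ≤
    ENNReal.ofReal (8 * 8 ^ k) * ∫⁻ t in Ioo (0 : ℝ) (2 / 4 ^ k),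
      ∑ γ ∈ Finset.range (2 * 16 ^ k), En (col B k (γ : ℤ)) t := sorry

/-! ## Task T : pairs in columns that are not big -/

theorem type1 {B : Set (ℝ × ℝ)} {R η : ℝ} (h : Nice B R η) {K k : ℕ} (hk : k ≤ K) (n : ℤ) :
    volume {p : ℝ × ℝ × ℝ | p ∈ Q B ∧ p.1 ∈ Good (fB B) K ∧
      ¬ Big B k (ix (rho k) p.2.1) p.1 ∧ ¬ Big B k (ix (rho k) p.2.2) p.1 ∧
      ix (rho k) (p.1 + 2 / (p.2.2 - p.2.1)) = n} ≤
    ENNReal.ofReal (3000 / 2 ^ k * (av 2 (fB B) (n / 16 ^ k)) ^ 2) := sorry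

/-! ## Task A : assembly of the combinatorial inequality -/

theorem lemmaI {B : Set (ℝ × ℝ)} {R η : ℝ} (h : Nice B R η) :
    volume (Q B) ≤ 10 ^ 6 * ((∫⁻ t in Ioo (0 : ℝ) 4, En (fB B) t)
      + (∑' k : ℕ, ENNReal.ofReal ((2 / 3) ^ k * 256 ^ k) *
          ∫⁻ t in Ioo (0 : ℝ) (2 / 16 ^ k), En (fB B) t)
      + (∑' k : ℕ, ENNReal.ofReal (8 ^ k) * ∫⁻ t in Ioo (0 : ℝ) (2 / 4 ^ k),
          ∑ γ ∈ Finset.range (2 * 16 ^ k), En (col B k (γ : ℤ)) t)) := sorry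

/-! ## Task P : pairs of points of `K` and the window sets -/

theorem pairs_le {K : Set (ℝ × ℝ)} (hK : IsCompact K) (j : ℕ) :
    ∫⁻ p in K, volume {q : ℝ × ℝ | q ∈ K ∧ 2 ^ j ≤ q.1 - p.1 ∧ q.1 - p.1 ≤ 2 * 2 ^ j} ≤
      ENNReal.ofReal (2 * 4 ^ j) * ∫⁻ σ : ℝ, ∑' i : ℤ × Fin 2, volume (Q (BB K j i σ)) := sorry

/-! ## Task S : the window sets are nice, and their energies -/

theorem nice_BB {K : Set (ℝ × ℝ)} (hK : IsCompact K) {η : ℝ} (hη : 0 < η)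
    (gap : ∀ p ∈ K, ∀ q ∈ K, ∀ r ∈ K, η ≤ |dt p q r - 2|) (j : ℕ) (i : ℤ × Fin 2) (σ : ℝ) :
    ∃ R : ℝ, Nice (BB K j i σ) R η := sorry

theorem energies_BB {K : Set (ℝ × ℝ)} (hK : IsCompact K) {D : ℝ → ℝ≥0∞}
    (hD : EnergyBound K D) (j N : ℕ) (hN : 0 < N) (L : ℝ) :
    ∫⁻ σ : ℝ, ∑' i : ℤ × Fin 2, ∫⁻ t in Ioo (0 : ℝ) L,
      ∑ γ ∈ Finset.range N,
        En (rowLen (BB K j i σ) ((γ : ℝ) * (4 / N)) (((γ : ℝ) + 1) * (4 / N))) t ≤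
      2 * ∫⁻ s in Ioo (0 : ℝ) (L / 2 ^ j), D s := sorry


end Pool.Agent.H270R2.UT
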