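import Pool.Agent.H270R2.UT.Defs
import Pool.Agent.Helper76.HPlanch

/-! # Task E: energy of the X-ray transform over all slopes (Plancherel) -/

open MeasureTheory Set
open scoped ENNReal FourierTransform Real

namespace Pool.Agent.H270R2.UT

/-- `D` bounds the total energy of the X-ray transforms of disjoint column sets -/
def EnergyBound (K : Set (ℝ × ℝ)) (D : ℝ → ℝ≥0∞) : Prop :=
  Measurable D ∧ ∀ (s : ℝ) (ι : Type) [Countable ι] (E : ι → Set ℝ),
    (∀ i, MeasurableSet (E i)) → Pairwise (Function.onFun Disjoint E) →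
      ∑' i, ∫⁻ σ, En (xray K (E i) σ) s ≤ D s

namespace TE

/-- the character `e^{-2πix}` -/
noncomputable def ee (x : ℝ) : ℂ := Complex.exp (((-2 * π * x : ℝ) : ℂ) * Complex.I)

lemma ee_add (x y : ℝ) : ee (x + y) = ee x * ee y := by
  unfold ee
  rw [← Complex.exp_add]
  congr 1
  push_cast
  ring

lemma norm_ee (x : ℝ) : ‖ee x‖ = 1 := Complex.norm_exp_ofReal_mul_I _

lemma ee_zero : ee 0 = 1 := by simp [ee]

lemma continuous_ee : Continuous ee := by
  unfold ee
  fun_prop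

lemma measurable_ee : Measurable ee := continuous_ee.measurable

lemma fourier_eq (f : ℝ → ℂ) (w : ℝ) : 𝓕 f w = ∫ v, ee (v * w) * f v := by
  rw [Real.fourier_real_eq_integral_exp_smul]
  apply integral_congr_ae
  refine Filter.Eventually.of_forall fun v => ?_
  simp only [ee, smul_eq_mul]
  congr 4
  ring

lemma memLp_of_bdd {α : Type*} [MeasureSpace α] {f : α → ℂ} (hf : Measurable f) {M : ℝ}
    (hM : ∀ x, ‖f x‖ ≤ M) {S : Set α} (hS : MeasurableSet S) (hS' : volume S < ∞)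
    (h0 : ∀ x, x ∉ S → f x = 0) (p : ℝ≥0∞) : MemLp f p volume := by
  have h1 : f = S.indicator f := by
    ext x
    by_cases hx : x ∈ S
    · simp [hx]
    · simp [hx, h0 x hx]
  rw [h1, memLp_indicator_iff_restrict hS]
  have : IsFiniteMeasure (volume.restrict S) := ⟨by simpa using hS'⟩
  exact MemLp.of_bound hf.aestronglyMeasurable M (Filter.Eventually.of_forall hM)

lemma integrable_of_bdd {α : Type*} [MeasureSpace α] {f : α → ℂ} (hf : Measurable f) {M : ℝ}
    (hM : ∀ x, ‖f x‖ ≤ M) {S : Set α} (hS : MeasurableSet S) (hS' : volume S < ∞)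
    (h0 : ∀ x, x ∉ S → f x = 0) : Integrable f := 
  memLp_one_iff_integrable.1 (memLp_of_bdd hf hM hS hS' h0 1)

/-- Fourier transform of a translate -/
lemma fourier_shift (g : ℝ → ℂ) (t ξ : ℝ) :
    𝓕 (fun y => g (y + t)) ξ = ee (-(t * ξ)) * 𝓕 g ξ := by
  rw [fourier_eq, fourier_eq, ← integral_const_mul, 
    ← integral_add_right_eq_self (fun v : ℝ => ee (-(t * ξ)) * (ee (v * ξ) * g v)) t]
  apply integral_congr_ae
  refine Filter.Eventually.of_forall fun v => ?_
  simp only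
  rw [← mul_assoc, ← ee_add]
  congr 2
  ring

/-- Plancherel for the difference of two translates -/
lemma plancherel_diff (g : ℝ → ℂ) (h1 : Integrable g) (h2 : MemLp g 2) (t : ℝ) :
    ∫⁻ y, ‖g (y + t) - g y‖ₑ ^ 2 = ∫⁻ ξ, ‖ee (-(t * ξ)) - 1‖ₑ ^ 2 * ‖𝓕 g ξ‖ₑ ^ 2 := by
  have h1' : Integrable (fun y => g (y + t)) := h1.comp_add_right t
  have h2' : MemLp (fun y => g (y + t)) 2 := 
    h2.comp_measurePreserving (measurePreserving_add_right volume t)
  have h3 := Pool.Agent.Helper76.NormalHP.plancherel_lintegral (fun y => g (y + t) - g y)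
    (h1'.sub h1) (h2'.sub h2)
  rw [← h3]
  apply lintegral_congr
  intro ξ
  have h4 : 𝓕 (fun y => g (y + t) - g y) ξ = (ee (-(t * ξ)) - 1) * 𝓕 g ξ := by
    rw [sub_mul, one_mul, ← fourier_shift, fourier_eq, fourier_eq, fourier_eq, ← integral_sub]
    · apply integral_congr_ae
      refine Filter.Eventually.of_forall fun v => ?_
      simp only
      ring
    · refine h1'.bdd_mul (c := 1) ?_ ?_
      · exact (measurable_ee.comp (measurable_id.mul_const ξ)).aestronglyMeasurable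
      · exact Filter.Eventually.of_forall fun v => (norm_ee _).le
    · refine h1.bdd_mul (c := 1) ?_ ?_
      · exact (measurable_ee.comp (measurable_id.mul_const ξ)).aestronglyMeasurable
      · exact Filter.Eventually.of_forall fun v => (norm_ee _).le
  rw [h4, enorm_mul, mul_pow]

/-- indicator of `K` -/
noncomputable def kk (K : Set (ℝ × ℝ)) (a b : ℝ) : ℂ := K.indicator (fun _ => (1 : ℂ)) (a, b)

/-- indicator of `E` -/
noncomputable def ie (E : Set ℝ) (a : ℝ) : ℂ := E.indicator (fun _ => (1 : ℂ)) a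

lemma measurable_kk {K : Set (ℝ × ℝ)} (hK : MeasurableSet K) :
    Measurable (fun p : ℝ × ℝ => kk K p.1 p.2) :=
  measurable_const.indicator hK

lemma measurable_ie {E : Set ℝ} (hE : MeasurableSet E) : Measurable (ie E) :=
  measurable_const.indicator hE

lemma norm_kk_le (K : Set (ℝ × ℝ)) (a b : ℝ) : ‖kk K a b‖ ≤ 1 := by
  unfold kk
  by_cases h : (a, b) ∈ K <;> simp [h]

lemma norm_ie_le (E : Set ℝ) (a : ℝ) : ‖ie E a‖ ≤ 1 := by
  unfold ie
  by_cases h : a ∈ E <;> simp [h]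

lemma xray_eq {K : Set (ℝ × ℝ)} (hK : MeasurableSet K) {E : Set ℝ} (hE : MeasurableSet E)
    (σ c : ℝ) : ((xray K E σ c : ℝ) : ℂ) = ∫ a, ie E a * kk K a (σ * a + c) := by
  have hm : MeasurableSet {a : ℝ | a ∈ E ∧ (a, σ * a + c) ∈ K} := by
    apply hE.inter
    have : Measurable (fun a : ℝ => (a, σ * a + c)) := by fun_prop
    exact this hK
  have h1 : xray K E σ c = ∫ a, ({a : ℝ | a ∈ E ∧ (a, σ * a + c) ∈ K}.indicator 1 a : ℝ) := by
    rw [integral_indicator_one hm]
    rfl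
  rw [h1, ← integral_complex_ofReal]
  apply integral_congr_ae
  refine Filter.Eventually.of_forall fun a => ?_
  simp only [ie, kk, indicator, mem_ofPred_eq]
  by_cases h2 : a ∈ E <;> by_cases h3 : (a, σ * a + c) ∈ K <;> simp [h2, h3]

lemma measurable_xx {K : Set (ℝ × ℝ)} (hK : MeasurableSet K) {E : Set ℝ} (hE : MeasurableSet E) :
    Measurable (fun p : (ℝ × ℝ) × ℝ => ie E p.2 * kk K p.2 (p.1.1 * p.2 + p.1.2)) := by
  have h1 : Measurable (fun p : (ℝ × ℝ) × ℝ => (p.2, p.1.1 * p.2 + p.1.2)) := by fun_prop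
  exact ((measurable_ie hE).comp measurable_snd).mul ((measurable_kk hK).comp h1)

lemma measurable_xray {K : Set (ℝ × ℝ)} (hK : MeasurableSet K) {E : Set ℝ}
    (hE : MeasurableSet E) :
    Measurable (fun p : ℝ × ℝ => ((xray K E p.1 p.2 : ℝ) : ℂ)) := by
  have h := (measurable_xx hK hE).stronglyMeasurable.integral_prod_right' (ν := volume)
  have h2 : (fun p : ℝ × ℝ => ((xray K E p.1 p.2 : ℝ) : ℂ)) =
      fun p : ℝ × ℝ => ∫ a, ie E a * kk K a (p.1 * a + p.2) := by
    ext p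
    exact xray_eq hK hE _ _
  rw [h2]
  exact h.measurable

/-- Fourier transform of the sections of `K` -/
noncomputable def GG (K : Set (ℝ × ℝ)) (a ξ : ℝ) : ℂ := 𝓕 (kk K a) ξ

lemma measurable_GG {K : Set (ℝ × ℝ)} (hK : MeasurableSet K) :
    Measurable (fun p : ℝ × ℝ => GG K p.1 p.2) := by
  have h1 : Measurable (fun p : (ℝ × ℝ) × ℝ => ee (p.2 * p.1.2) * kk K p.1.1 p.2) := by
    have h2 : Measurable (fun p : (ℝ × ℝ) × ℝ => (p.1.1, p.2)) := by fun_prop
    have h3 : Measurable (fun p : (ℝ × ℝ) × ℝ => p.2 * p.1.2) := by fun_prop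
    exact (measurable_ee.comp h3).mul ((measurable_kk hK).comp h2)
  have h := h1.stronglyMeasurable.integral_prod_right' (ν := volume)
  have h2 : (fun p : ℝ × ℝ => GG K p.1 p.2) =
      fun p : ℝ × ℝ => ∫ b, ee (b * p.2) * kk K p.1 b := by
    ext p
    simp only [GG]
    rw [fourier_eq]
  rw [h2]
  exact h.measurable

lemma measurable_kk_right {K : Set (ℝ × ℝ)} (hK : MeasurableSet K) (a : ℝ) :
    Measurable (kk K a) := (measurable_kk hK).comp (measurable_const.prodMk measurable_id)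

section bounded

variable {K : Set (ℝ × ℝ)} (hK : MeasurableSet K) {R : ℝ} 
  (hR : ∀ p ∈ K, |p.1| ≤ R ∧ |p.2| ≤ R)

include hR in
lemma kk_eq_zero {a b : ℝ} (h : R < |a| ∨ R < |b|) : kk K a b = 0 := by
  unfold kk
  rw [indicator_of_notMem]
  intro h2
  have h3 := hR _ h2
  rcases h with h | h
  · exact absurd h3.1 (not_le.2 h)
  · exact absurd h3.2 (not_le.2 h)

include hK hR in
lemma memLp_kk (a : ℝ) (p : ℝ≥0∞) : MemLp (kk K a) p := by
  refine memLp_of_bdd (S := Icc (-R) R) (measurable_kk_right hK a) (norm_kk_le K a)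
    measurableSet_Icc (by simp [Real.volume_Icc]) ?_ p
  intro b hb
  apply kk_eq_zero hR
  right
  by_contra h
  exact hb (abs_le.1 (not_lt.1 h))

include hK hR in
lemma integrable_kk (a : ℝ) : Integrable (kk K a) := 
  memLp_one_iff_integrable.1 (memLp_kk hK hR a 1)

include hR in
lemma norm_GG_le (hR0 : 0 ≤ R) (a ξ : ℝ) : ‖GG K a ξ‖ ≤ 2 * R := by
  unfold GG
  rw [fourier_eq]
  have h1 : ∀ b, ee (b * ξ) * kk K a b = (Icc (-R) R).indicator (fun b => ee (b * ξ) * kk K a b) b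
      := by
    intro b
    by_cases hb : b ∈ Icc (-R) R
    · simp [hb]
    · have : kk K a b = 0 := by
        apply kk_eq_zero hR
        right
        by_contra h
        exact hb (abs_le.1 (not_lt.1 h))
      simp [hb, this]
  rw [integral_congr_ae (Filter.Eventually.of_forall h1), integral_indicator measurableSet_Icc]
  refine (norm_setIntegral_le_of_norm_le_const (C := 1) (by simp [Real.volume_Icc]) ?_).trans ?_
  · intro b _
    rw [norm_mul, norm_ee, one_mul]
    exact norm_kk_le K a b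
  · rw [one_mul, Real.volume_real_Icc]
    have : max (R - -R) 0 = 2 * R := by
      rw [max_eq_left (by linarith)]; ring
    rw [this]

include hR in
lemma GG_eq_zero {a : ℝ} (h : R < |a|) (ξ : ℝ) : GG K a ξ = 0 := by
  unfold GG
  rw [fourier_eq]
  have h1 : ∀ b, ee (b * ξ) * kk K a b = 0 := by
    intro b
    rw [kk_eq_zero hR (Or.inl h), mul_zero]
  simp [h1]

include hK hR in
/-- `1_E G(., ξ)` is in every `L^p` -/
lemma memLp_ieGG (hR0 : 0 ≤ R) {E : Set ℝ} (hE : MeasurableSet E) (ξ : ℝ) (p : ℝ≥0∞) :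
    MemLp (fun a => ie E a * GG K a ξ) p := by
  refine memLp_of_bdd (S := Icc (-R) R) (M := 2 * R) ?_ ?_ measurableSet_Icc
    (by simp [Real.volume_Icc]) ?_ p
  · have h : Measurable (fun a : ℝ => (a, ξ)) := by fun_prop
    have h' := (measurable_GG hK).comp h
    exact (measurable_ie hE).mul h'
  · intro a
    rw [norm_mul]
    calc ‖ie E a‖ * ‖GG K a ξ‖ ≤ 1 * (2 * R) := by
          apply mul_le_mul (norm_ie_le E a) (norm_GG_le hR hR0 a ξ) (norm_nonneg _) (by norm_num)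
      _ = 2 * R := one_mul _
  · intro a ha
    rw [GG_eq_zero hR, mul_zero]
    by_contra h
    exact ha (abs_le.1 (not_lt.1 h))

include hR in
lemma xx_eq_zero (E : Set ℝ) {σ c a : ℝ} (h : R < |a| ∨ R + |σ| * R < |c|) :
    ie E a * kk K a (σ * a + c) = 0 := by
  by_cases h1 : R < |a|
  · rw [kk_eq_zero hR (Or.inl h1), mul_zero]
  · have h2 : R + |σ| * R < |c| := by
      rcases h with h | h
      · exact absurd h h1
      · exact h
    rw [kk_eq_zero hR, mul_zero]
    right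
    have h3 : |c| ≤ |σ * a + c| + |σ * a| := by
      have := abs_sub (σ * a + c) (σ * a)
      simpa using this
    have h4 : |σ * a| ≤ |σ| * R := by
      rw [abs_mul]
      exact mul_le_mul_of_nonneg_left (not_lt.1 h1) (abs_nonneg _)
    linarith

include hR in
lemma xray_le (hR0 : 0 ≤ R) (E : Set ℝ) (σ c : ℝ) : xray K E σ c ≤ 2 * R := by
  unfold xray
  have h1 : {a : ℝ | a ∈ E ∧ (a, σ * a + c) ∈ K} ⊆ Icc (-R) R := by
    intro a ha
    exact abs_le.1 (hR _ ha.2).1
  have h2 := measure_mono (μ := volume) h1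
  rw [Real.volume_Icc] at h2
  calc (volume {a : ℝ | a ∈ E ∧ (a, σ * a + c) ∈ K}).toReal 
      ≤ (ENNReal.ofReal (R - -R)).toReal := ENNReal.toReal_mono ENNReal.ofReal_ne_top h2
    _ = 2 * R := by rw [ENNReal.toReal_ofReal (by linarith)]; ring

include hR in
lemma xray_eq_zero (E : Set ℝ) {σ c : ℝ} (h : R + |σ| * R < |c|) : xray K E σ c = 0 := by
  unfold xray
  have h1 : {a : ℝ | a ∈ E ∧ (a, σ * a + c) ∈ K} = ∅ := by
    apply eq_empty_of_forall_notMem
    intro a ha
    obtain ⟨h2, h3⟩ := hR _ ha.2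
    simp only at h2 h3
    have h4 : |c| ≤ |σ * a + c| + |σ * a| := by
      have := abs_sub (σ * a + c) (σ * a)
      simpa using this
    have h5 : |σ * a| ≤ |σ| * R := by
      rw [abs_mul]
      exact mul_le_mul_of_nonneg_left h2 (abs_nonneg _)
    linarith
  rw [h1]
  simp

include hK hR in
lemma memLp_xray (hR0 : 0 ≤ R) {E : Set ℝ} (hE : MeasurableSet E) (σ : ℝ) (p : ℝ≥0∞) :
    MemLp (fun c => ((xray K E σ c : ℝ) : ℂ)) p := by
  refine memLp_of_bdd (S := Icc (-(R + |σ| * R)) (R + |σ| * R)) (M := 2 * R) ?_ ?_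
    measurableSet_Icc (by simp [Real.volume_Icc]) ?_ p
  · have h : Measurable (fun c : ℝ => (σ, c)) := by fun_prop
    have h' := (measurable_xray hK hE).comp h
    exact h'
  · intro c
    rw [Complex.norm_real, Real.norm_eq_abs, 
      abs_of_nonneg (show 0 ≤ xray K E σ c from ENNReal.toReal_nonneg)]
    exact xray_le hR hR0 E σ c
  · intro c hc
    rw [xray_eq_zero hR]
    · simp
    · by_contra h
      exact hc (abs_le.1 (not_lt.1 h))

include hK hR in
/-- the Fourier transform of the X-ray transform -/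
lemma fourier_xray {E : Set ℝ} (hE : MeasurableSet E) (σ ξ : ℝ) :
    𝓕 (fun c => ((xray K E σ c : ℝ) : ℂ)) ξ = 𝓕 (fun a => ie E a * GG K a ξ) (-(σ * ξ)) := by
  rw [fourier_eq, fourier_eq]
  have h1 : ∀ c : ℝ, ee (c * ξ) * ((xray K E σ c : ℝ) : ℂ) = 
      ∫ a, ee (c * ξ) * (ie E a * kk K a (σ * a + c)) := by
    intro c
    rw [xray_eq hK hE, integral_const_mul]
  rw [integral_congr_ae (Filter.Eventually.of_forall h1)]
  rw [integral_integral_swap]
  · apply integral_congr_ae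
    refine Filter.Eventually.of_forall fun a => ?_
    simp only
    have h2 : GG K a ξ = ∫ c, ee ((c + σ * a) * ξ) * kk K a (c + σ * a) := by
      unfold GG
      rw [fourier_eq]
      exact (integral_add_right_eq_self (fun v : ℝ => ee (v * ξ) * kk K a v) (σ * a)).symm
    rw [h2, ← integral_const_mul, ← integral_const_mul]
    apply integral_congr_ae
    refine Filter.Eventually.of_forall fun c => ?_
    simp only
    have h3 : ee (c * ξ) = ee (a * -(σ * ξ)) * ee ((c + σ * a) * ξ) := by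
      rw [← ee_add]
      congr 1
      ring
    rw [h3, add_comm (σ * a) c]
    ring
  · refine integrable_of_bdd (M := 1)
      (S := Icc (-(R + |σ| * R)) (R + |σ| * R) ×ˢ Icc (-R) R) ?_ ?_
      (measurableSet_Icc.prod measurableSet_Icc) ?_ ?_
    · have h4 : Measurable (fun p : ℝ × ℝ => ((σ, p.1), p.2)) := by fun_prop
      have h5 := (measurable_xx hK hE).comp h4
      have h6 : Measurable (fun p : ℝ × ℝ => p.1 * ξ) := by fun_prop
      have h7 := (measurable_ee.comp h6).mul h5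
      exact h7
    · rintro ⟨c, a⟩
      simp only [Function.uncurry]
      rw [norm_mul, norm_mul, norm_ee, one_mul]
      calc ‖ie E a‖ * ‖kk K a (σ * a + c)‖ ≤ 1 * 1 := 
            mul_le_mul (norm_ie_le E a) (norm_kk_le K _ _) (norm_nonneg _) (by norm_num)
        _ = 1 := one_mul _
    · rw [Measure.volume_eq_prod, Measure.prod_prod]
      simp [Real.volume_Icc, ENNReal.mul_lt_top_iff]
    · rintro ⟨c, a⟩ hca
      simp only [Function.uncurry]
      rw [xx_eq_zero hR E, mul_zero]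
      by_contra h
      push Not at h
      apply hca
      exact ⟨abs_le.1 h.2, abs_le.1 h.1⟩

include hK hR in
/-- Plancherel in the slope variable -/
lemma slope_plancherel (hR0 : 0 ≤ R) {E : Set ℝ} (hE : MeasurableSet E) {ξ : ℝ} (hξ : ξ ≠ 0) :
    ∫⁻ σ : ℝ, ‖𝓕 (fun a => ie E a * GG K a ξ) (-(σ * ξ))‖ₑ ^ 2 =
      ENNReal.ofReal |ξ|⁻¹ * ∫⁻ a in E, ‖GG K a ξ‖ₑ ^ 2 := by
  have hm : Measurable (fun a : ℝ => ie E a * GG K a ξ) := by
    have h : Measurable (fun a : ℝ => (a, ξ)) := by fun_prop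
    have h' := (measurable_GG hK).comp h
    exact (measurable_ie hE).mul h'
  have hF : Measurable (fun u : ℝ => ‖𝓕 (fun a => ie E a * GG K a ξ) u‖ₑ ^ 2) := by
    have h1 : Measurable (fun p : ℝ × ℝ => ee (p.2 * p.1) * (ie E p.2 * GG K p.2 ξ)) := by
      have h2 : Measurable (fun p : ℝ × ℝ => p.2 * p.1) := by fun_prop
      exact (measurable_ee.comp h2).mul (hm.comp measurable_snd)
    have h3 := h1.stronglyMeasurable.integral_prod_right' (ν := volume)
    have h4 : (fun u : ℝ => 𝓕 (fun a => ie E a * GG K a ξ) u) =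
        fun u : ℝ => ∫ a, ee (a * u) * (ie E a * GG K a ξ) := by
      ext u
      rw [fourier_eq]
    have h5 : Measurable (fun u : ℝ => 𝓕 (fun a => ie E a * GG K a ξ) u) := by
      rw [h4]
      exact h3.measurable
    exact h5.enorm.pow_const 2
  have h1 : ∀ σ : ℝ, ‖𝓕 (fun a => ie E a * GG K a ξ) (-(σ * ξ))‖ₑ ^ 2 =
      (fun u : ℝ => ‖𝓕 (fun a => ie E a * GG K a ξ) u‖ₑ ^ 2) ((-ξ) * σ) := by
    intro σ
    simp only
    congr 3
    ring
  rw [lintegral_congr h1, ← lintegral_map (g := fun σ : ℝ => (-ξ) * σ) hF (by fun_prop),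
    Real.map_volume_mul_left (neg_ne_zero.2 hξ), lintegral_smul_measure]
  have h2 : |(-ξ)⁻¹| = |ξ|⁻¹ := by rw [abs_inv, abs_neg]
  rw [h2, smul_eq_mul, Pool.Agent.Helper76.NormalHP.plancherel_lintegral _
    (memLp_one_iff_integrable.1 (memLp_ieGG hK hR hR0 hE ξ 1)) (memLp_ieGG hK hR hR0 hE ξ 2),
    ← lintegral_indicator hE]
  congr 1
  apply lintegral_congr
  intro a
  unfold ie
  by_cases ha : a ∈ E
  · simp [ha]
  · simp [ha]

include hK in
lemma measurable_fourier_xray {E : Set ℝ} (hE : MeasurableSet E) :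
    Measurable (fun p : ℝ × ℝ => 𝓕 (fun c => ((xray K E p.1 c : ℝ) : ℂ)) p.2) := by
  have h1 : Measurable (fun p : (ℝ × ℝ) × ℝ => 
      ee (p.2 * p.1.2) * ((xray K E p.1.1 p.2 : ℝ) : ℂ)) := by
    have h2 : Measurable (fun p : (ℝ × ℝ) × ℝ => (p.1.1, p.2)) := by fun_prop
    have h3 : Measurable (fun p : (ℝ × ℝ) × ℝ => p.2 * p.1.2) := by fun_prop
    have h4 := (measurable_xray hK hE).comp h2
    have h5 := (measurable_ee.comp h3).mul h4
    exact h5
  have h := h1.stronglyMeasurable.integral_prod_right' (ν := volume)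
  have h2 : (fun p : ℝ × ℝ => 𝓕 (fun c => ((xray K E p.1 c : ℝ) : ℂ)) p.2) =
      fun p : ℝ × ℝ => ∫ c, ee (c * p.2) * ((xray K E p.1 c : ℝ) : ℂ) := by
    ext p
    rw [fourier_eq]
  rw [h2]
  exact h.measurable

include hK hR in
lemma energy_one (hR0 : 0 ≤ R) {E : Set ℝ} (hE : MeasurableSet E) (t : ℝ) :
    ∫⁻ σ, En (xray K E σ) t = ∫⁻ ξ : ℝ, ‖ee (-(t * ξ)) - 1‖ₑ ^ 2 *
      (ENNReal.ofReal |ξ|⁻¹ * ∫⁻ a in E, ‖GG K a ξ‖ₑ ^ 2) := by
  have h1 : ∀ σ : ℝ, En (xray K E σ) t = ∫⁻ ξ : ℝ, ‖ee (-(t * ξ)) - 1‖ₑ ^ 2 *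
      ‖𝓕 (fun c => ((xray K E σ c : ℝ) : ℂ)) ξ‖ₑ ^ 2 := by
    intro σ
    rw [← plancherel_diff _ (memLp_one_iff_integrable.1 (memLp_xray hK hR hR0 hE σ 1))
      (memLp_xray hK hR hR0 hE σ 2) t]
    unfold En
    apply lintegral_congr
    intro y
    rw [← Complex.ofReal_sub, ← ofReal_norm, Complex.norm_real, Real.norm_eq_abs,
      ← ENNReal.ofReal_pow (abs_nonneg _), sq_abs]
  rw [lintegral_congr h1, lintegral_lintegral_swap]
  · apply lintegral_congr
    intro ξ
    by_cases hξ : ξ = 0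
    · subst hξ
      simp [ee_zero]
    · rw [← slope_plancherel hK hR hR0 hE hξ, lintegral_const_mul']
      · congr 1
        apply lintegral_congr
        intro σ
        rw [fourier_xray hK hR hE]
      · exact ENNReal.pow_ne_top enorm_ne_top
  · apply Measurable.aemeasurable
    have h2 : Measurable (fun p : ℝ × ℝ => ‖ee (-(t * p.2)) - 1‖ₑ ^ 2) := by
      have h3 : Measurable (fun p : ℝ × ℝ => -(t * p.2)) := by fun_prop
      exact (((measurable_ee.comp h3).sub measurable_const).enorm).pow_const 2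
    exact h2.mul ((measurable_fourier_xray hK hE).enorm.pow_const 2)

end bounded

lemma measurable_sq_GG {K : Set (ℝ × ℝ)} (hK : MeasurableSet K) (μ : Measure ℝ) [SFinite μ] :
    Measurable (fun ξ : ℝ => ∫⁻ a, ‖GG K a ξ‖ₑ ^ 2 ∂μ) := by
  have h1 := ((measurable_GG hK).enorm.pow_const 2).lintegral_prod_left' (μ := μ)
  exact h1

lemma norm_sub_one_le (x : ℝ) : ‖ee x - 1‖ ≤ 2 * π * |x| := by
  have h := Real.norm_exp_I_mul_ofReal_sub_one_le (x := -2 * π * x)
  unfold ee
  rw [mul_comm]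
  refine h.trans ?_
  rw [Real.norm_eq_abs, abs_mul, abs_mul, abs_neg, abs_of_pos Real.pi_pos]
  norm_num

lemma norm_sub_one_le_two (x : ℝ) : ‖ee x - 1‖ ≤ 2 := by
  calc ‖ee x - 1‖ ≤ ‖ee x‖ + ‖(1 : ℂ)‖ := norm_sub_le _ _
    _ = 2 := by rw [norm_ee]; norm_num

lemma tail_sq {T : ℝ} (hT : 0 < T) :
    ∫⁻ s in Ioi T, ENNReal.ofReal (1 / s ^ 2) = ENNReal.ofReal (1 / T) := by
  have h1 : ∀ s ∈ Ioi T, ENNReal.ofReal (1 / s ^ 2) = ENNReal.ofReal (s ^ (-2 : ℝ)) := by
    intro s hs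
    have hs0 : 0 < s := hT.trans hs
    congr 1
    rw [Real.rpow_neg hs0.le]
    norm_num
  rw [setLIntegral_congr_fun measurableSet_Ioi h1, ← ofReal_integral_eq_lintegral_ofReal]
  · rw [integral_Ioi_rpow_of_lt (by norm_num) hT]
    congr 1
    have : (-2 : ℝ) + 1 = -1 := by norm_num
    rw [this, Real.rpow_neg_one]
    field_simp
  · exact integrableOn_Ioi_rpow_of_lt (by norm_num) hT
  · refine (ae_restrict_iff' measurableSet_Ioi).2 (Filter.Eventually.of_forall fun s hs => ?_)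
    exact Real.rpow_nonneg (hT.trans hs).le _

lemma weight_bound (ξ : ℝ) (hξ : ξ ≠ 0) :
    ∫⁻ s in Ioi (0 : ℝ), ‖ee (-(s * ξ)) - 1‖ₑ ^ 2 * ENNReal.ofReal (1 / s ^ 2) ≤
      ENNReal.ofReal (44 * |ξ|) := by
  have hx : 0 < |ξ| := abs_pos.2 hξ
  set T : ℝ := 1 / (π * |ξ|) with hTdef
  have hpi := Real.pi_pos
  have hT : 0 < T := by positivity
  have h0 : Ioi (0 : ℝ) ⊆ Ioc 0 T ∪ Ioi T := by
    intro s hs
    by_cases h : s ≤ T
    · exact Or.inl ⟨hs, h⟩
    · exact Or.inr (not_le.1 h)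
  refine (lintegral_mono_set h0).trans ((lintegral_union_le _ _ _).trans ?_)
  have h1 : ∫⁻ s in Ioc (0 : ℝ) T, ‖ee (-(s * ξ)) - 1‖ₑ ^ 2 * ENNReal.ofReal (1 / s ^ 2) ≤
      ENNReal.ofReal (4 * π * |ξ|) := by
    calc ∫⁻ s in Ioc (0 : ℝ) T, ‖ee (-(s * ξ)) - 1‖ₑ ^ 2 * ENNReal.ofReal (1 / s ^ 2)
        ≤ ∫⁻ s in Ioc (0 : ℝ) T, ENNReal.ofReal (4 * π ^ 2 * ξ ^ 2) := by
          apply setLIntegral_mono' measurableSet_Ioc
          intro s hs
          rw [← ofReal_norm, ← ENNReal.ofReal_pow (norm_nonneg _),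
            ← ENNReal.ofReal_mul (by positivity)]
          apply ENNReal.ofReal_le_ofReal
          have h2 := norm_sub_one_le (-(s * ξ))
          rw [abs_neg, abs_mul, abs_of_pos hs.1] at h2
          have h3 : ‖ee (-(s * ξ)) - 1‖ ^ 2 ≤ (2 * π * (s * |ξ|)) ^ 2 := 
            pow_le_pow_left₀ (norm_nonneg _) h2 2
          calc ‖ee (-(s * ξ)) - 1‖ ^ 2 * (1 / s ^ 2) ≤ (2 * π * (s * |ξ|)) ^ 2 * (1 / s ^ 2) := by
                apply mul_le_mul_of_nonneg_right h3; positivity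
            _ = 4 * π ^ 2 * |ξ| ^ 2 := by
                have hs0 := hs.1.ne'
                field_simp
                ring
            _ = 4 * π ^ 2 * ξ ^ 2 := by rw [sq_abs]
      _ = ENNReal.ofReal (4 * π * |ξ|) := by
          rw [setLIntegral_const, Real.volume_Ioc, ← ENNReal.ofReal_mul (by positivity)]
          congr 1
          rw [hTdef, ← sq_abs ξ]
          field_simp
          ring
  have h2 : ∫⁻ s in Ioi T, ‖ee (-(s * ξ)) - 1‖ₑ ^ 2 * ENNReal.ofReal (1 / s ^ 2) ≤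
      ENNReal.ofReal (4 * π * |ξ|) := by
    calc ∫⁻ s in Ioi T, ‖ee (-(s * ξ)) - 1‖ₑ ^ 2 * ENNReal.ofReal (1 / s ^ 2)
        ≤ ∫⁻ s in Ioi T, 4 * ENNReal.ofReal (1 / s ^ 2) := by
          apply lintegral_mono
          intro s
          simp only
          gcongr
          rw [← ofReal_norm, ← ENNReal.ofReal_pow (norm_nonneg _)]
          have h3 : ‖ee (-(s * ξ)) - 1‖ ^ 2 ≤ 2 ^ 2 := 
            pow_le_pow_left₀ (norm_nonneg _) (norm_sub_one_le_two _) 2
          calc ENNReal.ofReal (‖ee (-(s * ξ)) - 1‖ ^ 2) ≤ ENNReal.ofReal (2 ^ 2) := 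
                ENNReal.ofReal_le_ofReal h3
            _ = 4 := by norm_num
      _ = ENNReal.ofReal (4 * π * |ξ|) := by
          rw [lintegral_const_mul' _ _ (by norm_num), tail_sq hT]
          have : (4 : ℝ≥0∞) = ENNReal.ofReal 4 := by norm_num
          rw [this, ← ENNReal.ofReal_mul (by norm_num)]
          congr 1
          rw [hTdef]
          field_simp
  calc _ ≤ ENNReal.ofReal (4 * π * |ξ|) + ENNReal.ofReal (4 * π * |ξ|) := add_le_add h1 h2
    _ = ENNReal.ofReal (8 * π * |ξ|) := by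
        rw [← ENNReal.ofReal_add (by positivity) (by positivity)]
        congr 1
        ring
    _ ≤ ENNReal.ofReal (44 * |ξ|) := by
        apply ENNReal.ofReal_le_ofReal
        have := Real.pi_lt_four
        nlinarith

/-- the total energy -/
noncomputable def DD (K : Set (ℝ × ℝ)) (t : ℝ) : ℝ≥0∞ :=
  ∫⁻ ξ : ℝ, ‖ee (-(t * ξ)) - 1‖ₑ ^ 2 * (ENNReal.ofReal |ξ|⁻¹ * ∫⁻ a, ‖GG K a ξ‖ₑ ^ 2)

lemma measurable_ww : Measurable (fun p : ℝ × ℝ => ‖ee (-(p.1 * p.2)) - 1‖ₑ ^ 2) := by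
  have h3 : Measurable (fun p : ℝ × ℝ => -(p.1 * p.2)) := by fun_prop
  exact (((measurable_ee.comp h3).sub measurable_const).enorm).pow_const 2

lemma measurable_cc {K : Set (ℝ × ℝ)} (hK : MeasurableSet K) (μ : Measure ℝ) [SFinite μ] :
    Measurable (fun ξ : ℝ => ENNReal.ofReal |ξ|⁻¹ * ∫⁻ a, ‖GG K a ξ‖ₑ ^ 2 ∂μ) := by
  have h1 : Measurable (fun ξ : ℝ => ENNReal.ofReal |ξ|⁻¹) := by fun_prop
  exact h1.mul (measurable_sq_GG hK μ)

lemma measurable_integrand {K : Set (ℝ × ℝ)} (hK : MeasurableSet K) :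
    Measurable (fun p : ℝ × ℝ => ‖ee (-(p.1 * p.2)) - 1‖ₑ ^ 2 * 
      (ENNReal.ofReal |p.2|⁻¹ * ∫⁻ a, ‖GG K a p.2‖ₑ ^ 2)) := by
  have h0 : Measurable (fun p : ℝ × ℝ => p.2) := measurable_snd
  have h := (measurable_cc hK volume).comp h0
  exact measurable_ww.mul h

lemma measurable_DD {K : Set (ℝ × ℝ)} (hK : MeasurableSet K) : Measurable (DD K) := by
  have h := (measurable_integrand hK).lintegral_prod_right' (ν := volume)
  exact h

lemma exists_bound {K : Set (ℝ × ℝ)} (hK : IsCompact K) :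
    ∃ R : ℝ, 0 ≤ R ∧ ∀ p ∈ K, |p.1| ≤ R ∧ |p.2| ≤ R := by
  obtain ⟨R, hR⟩ := hK.isBounded.exists_norm_le
  refine ⟨max R 0, le_max_right _ _, fun p hp => ?_⟩
  have h1 := hR p hp
  exact ⟨(norm_fst_le p).trans (h1.trans (le_max_left _ _)),
    (norm_snd_le p).trans (h1.trans (le_max_left _ _))⟩

/-- Plancherel in the sections of `K` -/
lemma total_mass {K : Set (ℝ × ℝ)} (hK : MeasurableSet K) {R : ℝ}
    (hR : ∀ p ∈ K, |p.1| ≤ R ∧ |p.2| ≤ R) :
    ∫⁻ ξ : ℝ, ∫⁻ a : ℝ, ‖GG K a ξ‖ₑ ^ 2 = volume K := by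
  rw [lintegral_lintegral_swap]
  · have h1 : ∀ a : ℝ, ∫⁻ ξ : ℝ, ‖GG K a ξ‖ₑ ^ 2 = volume (Prod.mk a ⁻¹' K) := by
      intro a
      have h2 := Pool.Agent.Helper76.NormalHP.plancherel_lintegral (kk K a)
        (integrable_kk hK hR a) (memLp_kk hK hR a 2)
      unfold GG
      rw [h2, ← lintegral_indicator_one (measurable_prodMk_left hK)]
      apply lintegral_congr
      intro b
      unfold kk
      by_cases hb : (a, b) ∈ K
      · simp [hb]
      · simp [hb]
    rw [lintegral_congr h1, Measure.volume_eq_prod, Measure.prod_apply hK]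
  · apply Measurable.aemeasurable
    have h3 := ((measurable_GG hK).comp measurable_swap).enorm.pow_const 2
    exact h3

end TE

open TE

theorem energy {K : Set (ℝ × ℝ)} (hK : IsCompact K) :
    ∃ D : ℝ → ℝ≥0∞, EnergyBound K D ∧
      ∫⁻ s in Ioi (0 : ℝ), D s * ENNReal.ofReal (1 / s ^ 2) ≤ 44 * volume K := by
  have hKm := hK.isClosed.measurableSet
  obtain ⟨R, hR0, hR⟩ := exists_bound hK
  refine ⟨DD K, ⟨measurable_DD hKm, ?_⟩, ?_⟩
  · intro t ι _ E hE hd
    have h1 : ∀ i, ∫⁻ σ, En (xray K (E i) σ) t = ∫⁻ ξ : ℝ, ‖ee (-(t * ξ)) - 1‖ₑ ^ 2 *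
      (ENNReal.ofReal |ξ|⁻¹ * ∫⁻ a in E i, ‖GG K a ξ‖ₑ ^ 2) := fun i =>
        energy_one hKm hR hR0 (hE i) t
    have h2 : Measurable (fun ξ : ℝ => ‖ee (-(t * ξ)) - 1‖ₑ ^ 2) := by
      have h3 : Measurable (fun ξ : ℝ => -(t * ξ)) := by fun_prop
      exact (((measurable_ee.comp h3).sub measurable_const).enorm).pow_const 2
    rw [tsum_congr h1, ← lintegral_tsum]
    · unfold DD
      apply lintegral_mono
      intro ξ
      simp only
      rw [ENNReal.tsum_mul_left, ENNReal.tsum_mul_left, ← lintegral_iUnion hE hd]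
      gcongr
      exact Measure.restrict_le_self
    · intro i
      exact (h2.mul (measurable_cc hKm (volume.restrict (E i)))).aemeasurable
  · unfold DD
    have h4 : ∀ s : ℝ, (∫⁻ ξ : ℝ, ‖ee (-(s * ξ)) - 1‖ₑ ^ 2 * 
        (ENNReal.ofReal |ξ|⁻¹ * ∫⁻ a, ‖GG K a ξ‖ₑ ^ 2)) * ENNReal.ofReal (1 / s ^ 2) =
        ∫⁻ ξ : ℝ, (‖ee (-(s * ξ)) - 1‖ₑ ^ 2 * ENNReal.ofReal (1 / s ^ 2)) * 
        (ENNReal.ofReal |ξ|⁻¹ * ∫⁻ a, ‖GG K a ξ‖ₑ ^ 2) := by
      intro s
      rw [← lintegral_mul_const' _ _ ENNReal.ofReal_ne_top]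
      apply lintegral_congr
      intro ξ
      ring
    rw [lintegral_congr h4, lintegral_lintegral_swap]
    · calc ∫⁻ ξ : ℝ, ∫⁻ s in Ioi (0 : ℝ), (‖ee (-(s * ξ)) - 1‖ₑ ^ 2 * ENNReal.ofReal (1 / s ^ 2)) * 
            (ENNReal.ofReal |ξ|⁻¹ * ∫⁻ a, ‖GG K a ξ‖ₑ ^ 2)
          ≤ ∫⁻ ξ : ℝ, 44 * ∫⁻ a : ℝ, ‖GG K a ξ‖ₑ ^ 2 := by
            apply lintegral_mono
            intro ξ
            simp only
            by_cases hξ : ξ = 0
            · subst hξ
              simp [ee_zero]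
            · have hm : Measurable (fun s : ℝ => 
                  ‖ee (-(s * ξ)) - 1‖ₑ ^ 2 * ENNReal.ofReal (1 / s ^ 2)) := by
                have h3 : Measurable (fun s : ℝ => -(s * ξ)) := by fun_prop
                have h5 : Measurable (fun s : ℝ => ENNReal.ofReal (1 / s ^ 2)) := by fun_prop
                exact ((((measurable_ee.comp h3).sub measurable_const).enorm).pow_const 2).mul h5
              rw [lintegral_mul_const _ hm, ← mul_assoc]
              gcongr
              calc (∫⁻ s in Ioi (0 : ℝ), ‖ee (-(s * ξ)) - 1‖ₑ ^ 2 * ENNReal.ofReal (1 / s ^ 2)) *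
                    ENNReal.ofReal |ξ|⁻¹ 
                  ≤ ENNReal.ofReal (44 * |ξ|) * ENNReal.ofReal |ξ|⁻¹ := by
                    gcongr
                    exact weight_bound ξ hξ
                _ = 44 := by
                    rw [← ENNReal.ofReal_mul (by positivity)]
                    have hx : |ξ| ≠ 0 := abs_ne_zero.2 hξ
                    rw [mul_assoc, mul_inv_cancel₀ hx]
                    norm_num
        _ = 44 * volume K := by
            rw [lintegral_const_mul _ (measurable_sq_GG hKm volume), total_mass hKm hR]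
    · apply Measurable.aemeasurable
      have h5 : Measurable (fun p : ℝ × ℝ => ENNReal.ofReal (1 / p.1 ^ 2)) := by fun_prop
      have h0 : Measurable (fun p : ℝ × ℝ => p.2) := measurable_snd
      have h := (measurable_cc hKm volume).comp h0
      exact (measurable_ww.mul h5).mul h

end Pool.Agent.H270R2.UT
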