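import Pool.Agent.H270R2.UT.Defs

/-!
# Task T : pairs in columns that are not big
-/

open MeasureTheory Set
open scoped ENNReal

namespace Pool.Agent.H270R2.UT

namespace T

/-! ### row lengths -/

/-- the section of `B` -/
def sec (B : Set (ℝ × ℝ)) (u v y : ℝ) : Set ℝ := {x : ℝ | u ≤ x ∧ x < v ∧ (x, y) ∈ B}

lemma sec_meas {B : Set (ℝ × ℝ)} (hB : MeasurableSet B) (u v : ℝ) :
    MeasurableSet {p : ℝ × ℝ | u ≤ p.1 ∧ p.1 < v ∧ p ∈ B} := by
  have h1 : MeasurableSet {p : ℝ × ℝ | u ≤ p.1} := measurableSet_le measurable_const measurable_fst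
  have h2 : MeasurableSet {p : ℝ × ℝ | p.1 < v} := measurableSet_lt measurable_fst measurable_const
  exact h1.inter (h2.inter hB)

lemma vol_sec_meas {B : Set (ℝ × ℝ)} (hB : MeasurableSet B) (u v : ℝ) :
    Measurable fun y => volume (sec B u v y) :=
  measurable_measure_prodMk_right (sec_meas hB u v)

lemma vol_sec_le (B : Set (ℝ × ℝ)) (u v y : ℝ) :
    volume (sec B u v y) ≤ ENNReal.ofReal (v - u) := by
  calc volume (sec B u v y) ≤ volume (Ico u v) := measure_mono (fun x hx => ⟨hx.1, hx.2.1⟩)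
    _ = _ := Real.volume_Ico

lemma vol_sec_ne (B : Set (ℝ × ℝ)) (u v y : ℝ) : volume (sec B u v y) ≠ ∞ :=
  ne_top_of_le_ne_top ENNReal.ofReal_ne_top (vol_sec_le B u v y)

lemma ofReal_rowLen (B : Set (ℝ × ℝ)) (u v y : ℝ) :
    ENNReal.ofReal (rowLen B u v y) = volume (sec B u v y) :=
  ENNReal.ofReal_toReal (vol_sec_ne B u v y)

lemma rowLen_nonneg (B : Set (ℝ × ℝ)) (u v y : ℝ) : 0 ≤ rowLen B u v y := ENNReal.toReal_nonneg

lemma rowLen_le (B : Set (ℝ × ℝ)) {u v : ℝ} (h : u ≤ v) (y : ℝ) : rowLen B u v y ≤ v - u :=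
  ENNReal.toReal_le_of_le_ofReal (by linarith) (vol_sec_le B u v y)

lemma rowLen_meas {B : Set (ℝ × ℝ)} (hB : MeasurableSet B) (u v : ℝ) :
    Measurable (rowLen B u v) := (vol_sec_meas hB u v).ennreal_toReal

lemma rowLen_add {B : Set (ℝ × ℝ)} (hB : MeasurableSet B) {u v w : ℝ} (h1 : u ≤ v) (h2 : v ≤ w)
    (y : ℝ) : rowLen B u w y = rowLen B u v y + rowLen B v w y := by
  have e : sec B u w y = sec B u v y ∪ sec B v w y := by
    ext x
    simp only [sec, mem_ofPred_eq, mem_union]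
    constructor
    · rintro ⟨a, b, c⟩
      by_cases hx : x < v
      · exact Or.inl ⟨a, hx, c⟩
      · exact Or.inr ⟨not_lt.1 hx, b, c⟩
    · rintro (⟨a, b, c⟩ | ⟨a, b, c⟩)
      · exact ⟨a, by linarith, c⟩
      · exact ⟨by linarith, b, c⟩
  have hd : Disjoint (sec B u v y) (sec B v w y) := by
    rw [Set.disjoint_left]
    rintro x ⟨_, a, _⟩ ⟨b, _, _⟩
    linarith
  have hm : MeasurableSet (sec B v w y) :=
    measurable_prodMk_right (y := y) (sec_meas hB v w)
  show (volume (sec B u w y)).toReal = (volume (sec B u v y)).toReal + (volume (sec B v w y)).toReal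
  rw [e, measure_union hd hm, ENNReal.toReal_add (vol_sec_ne _ _ _ _) (vol_sec_ne _ _ _ _)]

lemma rowLen_sum {B : Set (ℝ × ℝ)} (hB : MeasurableSet B) {r : ℝ} (hr : 0 ≤ r) (y : ℝ) (N : ℕ) :
    rowLen B 0 (N * r) y = ∑ i ∈ Finset.range N, rowLen B (i * r) ((i + 1) * r) y := by
  induction N with
  | zero =>
    simp only [Nat.cast_zero, zero_mul, Finset.range_zero, Finset.sum_empty]
    have : (sec B 0 0 y) = ∅ := by
      ext x
      simp only [sec, mem_ofPred_eq, mem_empty_iff_false, iff_false, not_and]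
      intro a b
      linarith
    show (volume (sec B 0 0 y)).toReal = 0
    rw [this]; simp
  | succ n ih =>
    rw [Finset.sum_range_succ, ← ih]
    push_cast
    exact rowLen_add hB (by positivity) (by nlinarith) y

lemma rho_pos (k : ℕ) : 0 < rho k := by unfold rho; positivity
lemma rho'_pos (k : ℕ) : 0 < rho' k := by unfold rho'; positivity

lemma fB_sum {B : Set (ℝ × ℝ)} (hB : MeasurableSet B) (k : ℕ) (y : ℝ) :
    fB B y = ∑ i ∈ Finset.range (2 * 16 ^ k), col B k (i : ℤ) y := by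
  have h := rowLen_sum hB (rho_pos k).le y (2 * 16 ^ k)
  have e : ((2 * 16 ^ k : ℕ) : ℝ) * rho k = 4 := by
    unfold rho; push_cast
    field_simp
    norm_num
  rw [e] at h
  unfold fB
  rw [h]
  refine Finset.sum_congr rfl fun i _ => ?_
  unfold col
  simp

lemma col_meas {B : Set (ℝ × ℝ)} (hB : MeasurableSet B) (k : ℕ) (γ : ℤ) :
    Measurable (col B k γ) := rowLen_meas hB _ _

lemma col_nonneg (B : Set (ℝ × ℝ)) (k : ℕ) (γ : ℤ) (y : ℝ) : 0 ≤ col B k γ y :=
  rowLen_nonneg _ _ _ _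

lemma col_le (B : Set (ℝ × ℝ)) (k : ℕ) (γ : ℤ) (y : ℝ) : col B k γ y ≤ rho k := by
  have := rowLen_le B (u := γ * rho k) (v := (γ + 1) * rho k) (by nlinarith [rho_pos k]) y
  unfold col
  linarith

/-! ### averages -/

lemma av_nonneg {L : ℝ} (hL : 0 < L) {g : ℝ → ℝ} (hg : ∀ y, 0 ≤ g y) (n : ℤ) : 0 ≤ av L g n := by
  unfold av
  refine mul_nonneg (by positivity) ?_
  exact intervalIntegral.integral_nonneg (by nlinarith) (fun y _ => hg y)

lemma av_sum {L : ℝ} {ι : Type} (s : Finset ι) (g : ι → ℝ → ℝ)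
    (hg : ∀ i ∈ s, ∀ a b : ℝ, IntervalIntegrable (g i) volume a b) (n : ℤ) :
    av L (fun y => ∑ i ∈ s, g i y) n = ∑ i ∈ s, av L (g i) n := by
  unfold av
  rw [intervalIntegral.integral_finsetSum (fun i hi => hg i hi _ _), Finset.mul_sum]

lemma ix_meas (L : ℝ) : Measurable (ix L) := by
  unfold ix
  exact Int.measurable_floor.comp (measurable_id.div_const L)

lemma avix_meas (L L' : ℝ) (g : ℝ → ℝ) : Measurable fun y => av L g (ix L' y) :=
  (Measurable.of_discrete (f := av L g)).comp (ix_meas L')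

lemma avix_meas' (L L' : ℝ) (g : ℝ → ℝ) : Measurable fun y => av L g (ix L' y + 1) :=
  (Measurable.of_discrete (f := fun n : ℤ => av L g (n + 1))).comp (ix_meas L')

lemma good_meas {f : ℝ → ℝ} (hf : Measurable f) (K : ℕ) : MeasurableSet (Good f K) := by
  unfold Good
  have h1 := avix_meas 2 2 f
  have h2 := avix_meas' 2 2 f
  refine (measurableSet_lt measurable_const h1).inter ((measurableSet_le hf (h1.const_mul 2)).inter
    (MeasurableSet.inter ?_ ((measurableSet_le h1 (h2.const_mul 2)).inter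
    (measurableSet_le h2 (h1.const_mul 2)))))
  have : {y : ℝ | ∀ k ≤ K, av (rho' k) f (ix (rho' k) y) ≤ 2 * av 2 f (ix 2 y)} =
      ⋂ (k : ℕ) (_ : k ≤ K), {y | av (rho' k) f (ix (rho' k) y) ≤ 2 * av 2 f (ix 2 y)} := by
    ext y; simp
  show MeasurableSet {y : ℝ | ∀ k ≤ K, av (rho' k) f (ix (rho' k) y) ≤ 2 * av 2 f (ix 2 y)}
  rw [this]
  exact MeasurableSet.iInter fun k => MeasurableSet.iInter fun _ =>
    measurableSet_le (avix_meas _ _ f) (h1.const_mul 2)

lemma big_meas {B : Set (ℝ × ℝ)} (hB : MeasurableSet B) (k : ℕ) (γ : ℤ) :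
    MeasurableSet {y | Big B k γ y} := by
  unfold Big
  exact (measurableSet_lt ((avix_meas 2 2 (fB B)).div_const _) (col_meas hB k γ)).inter
    (measurableSet_lt ((avix_meas (rho' k) (rho' k) (col B k γ)).const_mul 2) (col_meas hB k γ))

/-! ### the relation -/

/-- the relation -/
def P (ρ : ℝ) (n : ℤ) (e : ℤ) (y : ℝ) : Prop :=
  ∃ u : ℝ, 1 ≤ u ∧ u ≤ 2 ∧ 2 < (e + 1) * ρ * u ∧ (e - 1) * ρ * u < 2 ∧
    n * ρ ≤ y + u ∧ y + u < (n + 1) * ρ

lemma P_meas (ρ : ℝ) (n e : ℤ) : MeasurableSet {y | P ρ n e y} := by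
  have hc : Convex ℝ {y | P ρ n e y} := by
    rintro y1 ⟨u1, a1, b1, c1, d1, e1, f1⟩ y2 ⟨u2, a2, b2, c2, d2, e2, f2⟩ a b ha hb hab
    have hb' : b = 1 - a := by linarith
    subst hb'
    simp only [smul_eq_mul, mem_ofPred_eq]
    refine ⟨a * u1 + (1 - a) * u2, by nlinarith, by nlinarith, ?_, ?_, by nlinarith, ?_⟩
    · rcases eq_or_lt_of_le ha with h | h
      · rw [← h]; linarith
      · nlinarith [mul_lt_mul_of_pos_left c1 h, mul_le_mul_of_nonneg_left c2.le hb]
    · rcases eq_or_lt_of_le ha with h | h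
      · rw [← h]; linarith
      · nlinarith [mul_lt_mul_of_pos_left d1 h, mul_le_mul_of_nonneg_left d2.le hb]
    · rcases eq_or_lt_of_le ha with h | h
      · rw [← h]; linarith
      · nlinarith [mul_lt_mul_of_pos_left f1 h, mul_le_mul_of_nonneg_left f2.le hb]
  exact hc.ordConnected.measurableSet

lemma P_of {ρ : ℝ} (hρ : 0 < ρ) {n : ℤ} {x x' y : ℝ} (h1 : 1 ≤ x' - x) (h2 : x' - x ≤ 2)
    (hn : ix ρ (y + 2 / (x' - x)) = n) : P ρ n (ix ρ x' - ix ρ x) y := by
  have hd : 0 < x' - x := by linarith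
  have e0 : 2 / (x' - x) * (x' - x) = 2 := by field_simp
  refine ⟨2 / (x' - x), ?_, ?_, ?_, ?_, ?_, ?_⟩
  · rw [le_div_iff₀ hd]; linarith
  · rw [div_le_iff₀ hd]; linarith
  · have a1 : x' / ρ < ix ρ x' + 1 := Int.lt_floor_add_one _
    have a2 : (ix ρ x : ℝ) ≤ x / ρ := Int.floor_le _
    have a3 : x' - x < ((ix ρ x' : ℝ) - ix ρ x + 1) * ρ := by
      have : (x' - x) / ρ < (ix ρ x' : ℝ) - ix ρ x + 1 := by rw [sub_div]; linarith
      rwa [div_lt_iff₀ hρ] at this
    push_cast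
    have : 0 < 2 / (x' - x) := by positivity
    nlinarith
  · have a1 : (ix ρ x' : ℝ) ≤ x' / ρ := Int.floor_le _
    have a2 : x / ρ < ix ρ x + 1 := Int.lt_floor_add_one _
    have a3 : ((ix ρ x' : ℝ) - ix ρ x - 1) * ρ < x' - x := by
      have : (ix ρ x' : ℝ) - ix ρ x - 1 < (x' - x) / ρ := by rw [sub_div]; linarith
      rwa [lt_div_iff₀ hρ] at this
    push_cast
    have : 0 < 2 / (x' - x) := by positivity
    nlinarith
  · have : (n : ℝ) ≤ (y + 2 / (x' - x)) / ρ := by rw [← hn]; exact Int.floor_le _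
    rwa [le_div_iff₀ hρ] at this
  · have : (y + 2 / (x' - x)) / ρ < n + 1 := by rw [← hn]; exact Int.lt_floor_add_one _
    rwa [div_lt_iff₀ hρ] at this

lemma P_e {ρ : ℝ} (hρ : 0 < ρ) {n e1 e2 : ℤ} {y : ℝ} (h1 : P ρ n e1 y) (h2 : P ρ n e2 y) :
    e2 - e1 < 4 := by
  obtain ⟨u1, a1, b1, c1, d1, f1, g1⟩ := h1
  obtain ⟨u2, a2, b2, c2, d2, f2, g2⟩ := h2
  have hu : u1 - u2 < ρ := by linarith
  by_contra hcon
  push Not at hcon
  have hc : (4 : ℝ) ≤ (e2 : ℝ) - e1 := by exact_mod_cast hcon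
  -- (e2-1) ρ < 2/u2, (e1+1) ρ > 2/u1
  have k1 : ((e2 : ℝ) - 1) * ρ < 2 / u2 := by
    rw [lt_div_iff₀ (by linarith)]; exact d2
  have k2 : 2 / u1 < ((e1 : ℝ) + 1) * ρ := by
    rw [div_lt_iff₀ (by linarith)]; exact c1
  have k3 : 2 / u2 - 2 / u1 ≤ 2 * ρ := by
    rw [div_sub_div _ _ (by linarith) (by linarith), div_le_iff₀ (by nlinarith)]
    have : 1 ≤ u2 * u1 := by nlinarith
    nlinarith
  nlinarith

lemma P_y {ρ : ℝ} (hρ : 0 < ρ) {n e : ℤ} {y1 y2 : ℝ} (h1 : P ρ n e y1) (h2 : P ρ n e y2) :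
    y1 - y2 ≤ 5 * ρ := by
  obtain ⟨u1, a1, b1, c1, d1, f1, g1⟩ := h1
  obtain ⟨u2, a2, b2, c2, d2, f2, g2⟩ := h2
  have k1 : 2 / u1 < ((e : ℝ) + 1) * ρ := by
    rw [div_lt_iff₀ (by linarith)]; exact c1
  have k2 : ((e : ℝ) - 1) * ρ < 2 / u2 := by
    rw [lt_div_iff₀ (by linarith)]; exact d2
  have k3 : 2 / u1 - 2 / u2 < 2 * ρ := by linarith
  rw [div_sub_div _ _ (by linarith) (by linarith), div_lt_iff₀ (by nlinarith)] at k3
  have : u1 * u2 ≤ 4 := by nlinarith
  nlinarith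

lemma P_vol {ρ : ℝ} (hρ : 0 < ρ) (n e : ℤ) : volume {y | P ρ n e y} ≤ ENNReal.ofReal (5 * ρ) := by
  refine (Real.volume_le_diam _).trans ?_
  refine Metric.ediam_le ?_
  intro y1 h1 y2 h2
  rw [edist_dist, Real.dist_eq]
  refine ENNReal.ofReal_le_ofReal (abs_le.2 ⟨?_, P_y hρ h1 h2⟩)
  have := P_y hρ h2 h1
  linarith

lemma P_range {ρ : ℝ} {n e : ℤ} {y : ℝ} (h : P ρ n e y) :
    n * ρ - 2 ≤ y ∧ y < (n + 1) * ρ - 1 := by
  obtain ⟨u1, a1, b1, c1, d1, f1, g1⟩ := h
  constructor <;> linarith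

lemma P_ix {k : ℕ} {n e : ℤ} {y : ℝ} (h : P (rho k) n e y) :
    n / 16 ^ k = ix 2 y ∨ n / 16 ^ k = ix 2 y + 1 := by
  obtain ⟨u, a1, b1, c1, d1, f1, g1⟩ := h
  have hr := rho_pos k
  have hn : ⌊(y + u) / rho k⌋ = n := by
    rw [Int.floor_eq_iff, le_div_iff₀ hr, div_lt_iff₀ hr]
    exact ⟨f1, g1⟩
  have h2 : n / 16 ^ k = ⌊(y + u) / 2⌋ := by
    have e1 : (y + u) / 2 = ((y + u) / rho k) / ((16 ^ k : ℕ) : ℝ) := by
      unfold rho; push_cast; field_simp
    rw [e1, Int.floor_div_natCast, hn]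
    push_cast
    rfl
  rw [h2]
  have l1 : (ix 2 y : ℝ) ≤ y / 2 := Int.floor_le _
  have l2 : y / 2 < (ix 2 y : ℝ) + 1 := Int.lt_floor_add_one _
  have m1 : (⌊(y + u) / 2⌋ : ℝ) ≤ (y + u) / 2 := Int.floor_le _
  have m2 : (y + u) / 2 < (⌊(y + u) / 2⌋ : ℝ) + 1 := Int.lt_floor_add_one _
  have k1 : ix 2 y < ⌊(y + u) / 2⌋ + 1 := by
    have : (ix 2 y : ℝ) < (⌊(y + u) / 2⌋ : ℝ) + 1 := by linarith
    exact_mod_cast this
  have k2 : ⌊(y + u) / 2⌋ < ix 2 y + 2 := by
    have : (⌊(y + u) / 2⌋ : ℝ) < (ix 2 y : ℝ) + 2 := by linarith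
    exact_mod_cast this
  omega

/-! ### volumes of product pieces -/

/-- the piece of the set in the columns `i`, `j` over `Y` -/
def piece (B : Set (ℝ × ℝ)) (k : ℕ) (i j : ℤ) (Y : Set ℝ) : Set (ℝ × ℝ × ℝ) :=
  {p | p.1 ∈ Y ∧ p.2.1 ∈ sec B (i * rho k) ((i + 1) * rho k) p.1 ∧
    p.2.2 ∈ sec B (j * rho k) ((j + 1) * rho k) p.1}

lemma piece_vol {B : Set (ℝ × ℝ)} (hB : MeasurableSet B) (k : ℕ) (i j : ℤ) {Y : Set ℝ}
    (hY : MeasurableSet Y) :
    volume (piece B k i j Y) ≤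
      ∫⁻ y in Y, ENNReal.ofReal (col B k i y) * ENNReal.ofReal (col B k j y) := by
  have hm : MeasurableSet (piece B k i j Y) := by
    unfold piece
    refine (measurable_fst hY).inter (MeasurableSet.inter ?_ ?_)
    · exact (measurable_snd.fst.prodMk measurable_fst)
        (sec_meas hB (i * rho k) ((i + 1) * rho k))
    · exact (measurable_snd.snd.prodMk measurable_fst)
        (sec_meas hB (j * rho k) ((j + 1) * rho k))
  rw [Measure.volume_eq_prod, Measure.prod_apply hm, ← lintegral_indicator hY]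
  refine lintegral_mono fun y => ?_
  by_cases hy : y ∈ Y
  · rw [indicator_of_mem hy]
    have e : (Prod.mk y ⁻¹' piece B k i j Y) =
        sec B (i * rho k) ((i + 1) * rho k) y ×ˢ sec B (j * rho k) ((j + 1) * rho k) y := by
      ext q
      simp only [piece, mem_preimage, mem_ofPred_eq, hy, true_and, mem_prod]
    rw [e, Measure.volume_eq_prod, Measure.prod_prod]
    unfold col
    rw [ofReal_rowLen, ofReal_rowLen]
  · rw [indicator_of_notMem hy]
    have e : (Prod.mk y ⁻¹' piece B k i j Y) = ∅ := by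
      ext q
      simp only [piece, mem_preimage, mem_ofPred_eq, hy, false_and, mem_empty_iff_false]
    rw [e]; simp

/-- superadditivity of the lower integral -/
lemma sum_lintegral_le {α ι : Type} [MeasurableSpace α] {μ : Measure α} (s : Finset ι)
    (f : ι → α → ℝ≥0∞) : ∑ i ∈ s, ∫⁻ a, f i a ∂μ ≤ ∫⁻ a, ∑ i ∈ s, f i a ∂μ := by
  classical
  induction s using Finset.induction_on with
  | empty => simp
  | insert i s hi ih =>
    rw [Finset.sum_insert hi]
    calc ∫⁻ a, f i a ∂μ + ∑ i ∈ s, ∫⁻ a, f i a ∂μ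
        ≤ ∫⁻ a, f i a ∂μ + ∫⁻ a, ∑ i ∈ s, f i a ∂μ := by gcongr
      _ ≤ ∫⁻ a, (f i a + ∑ i ∈ s, f i a) ∂μ := le_lintegral_add _ _
      _ = _ := by
        refine lintegral_congr fun a => ?_
        rw [Finset.sum_insert hi]

/-! ### the main computation -/

/-- active rows in the columns `i`, `j` -/
def Y (B : Set (ℝ × ℝ)) (K k : ℕ) (n : ℤ) (i j : ℤ) : Set ℝ :=
  {y | y ∈ Good (fB B) K ∧ ¬ Big B k i y ∧ ¬ Big B k j y ∧ P (rho k) n (j - i) y}

lemma Y_meas {B : Set (ℝ × ℝ)} (hB : MeasurableSet B) (K k : ℕ) (n i j : ℤ) :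
    MeasurableSet (Y B K k n i j) :=
  (good_meas (rowLen_meas hB 0 4) K).inter ((big_meas hB k i).compl.inter
    ((big_meas hB k j).compl.inter (P_meas _ _ _)))

lemma cover {B : Set (ℝ × ℝ)} {R η : ℝ} (h : Nice B R η) {K k : ℕ} (n : ℤ) :
    {p : ℝ × ℝ × ℝ | p ∈ Q B ∧ p.1 ∈ Good (fB B) K ∧
      ¬ Big B k (ix (rho k) p.2.1) p.1 ∧ ¬ Big B k (ix (rho k) p.2.2) p.1 ∧
      ix (rho k) (p.1 + 2 / (p.2.2 - p.2.1)) = n} ⊆
    ⋃ i ∈ Finset.range (2 * 16 ^ k), ⋃ j ∈ Finset.range (2 * 16 ^ k),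
      piece B k (i : ℤ) (j : ℤ) (Y B K k n i j) := by
  rintro ⟨y, x, x'⟩ ⟨⟨hx, hx', h1, h2⟩, hg, b1, b2, hn⟩
  simp only at *
  have hr := rho_pos k
  have key : ∀ z : ℝ, (z, y) ∈ B → ∃ i : ℕ, i < 2 * 16 ^ k ∧ (i : ℤ) = ix (rho k) z ∧
      z ∈ sec B (((i : ℤ) : ℝ) * rho k) ((((i : ℤ) : ℝ) + 1) * rho k) y := by
    intro z hz
    have z0 := h.x0 _ hz
    have z4 := h.x4 _ hz
    simp only at z0 z4
    have p0 : 0 ≤ ix (rho k) z := Int.floor_nonneg.2 (by positivity)
    refine ⟨(ix (rho k) z).toNat, ?_, Int.toNat_of_nonneg p0, ?_⟩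
    · have : ix (rho k) z < (2 * 16 ^ k : ℕ) := by
        unfold ix
        rw [Int.floor_lt, div_lt_iff₀ hr]
        have e : (((2 * 16 ^ k : ℕ) : ℤ) : ℝ) * rho k = 4 := by
          unfold rho; push_cast
          field_simp
          norm_num
        rw [e]; exact z4
      omega
    · rw [Int.toNat_of_nonneg p0]
      refine ⟨?_, ?_, hz⟩
      · rw [← le_div_iff₀ hr]; exact Int.floor_le _
      · rw [← div_lt_iff₀ hr]; exact Int.lt_floor_add_one _
  obtain ⟨i, hi, ei, si⟩ := key x hx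
  obtain ⟨j, hj, ej, sj⟩ := key x' hx'
  simp only [mem_iUnion, Finset.mem_range]
  refine ⟨i, hi, j, hj, ⟨hg, ?_, ?_, ?_⟩, si, sj⟩
  · rw [ei]; exact b1
  · rw [ej]; exact b2
  · rw [ei, ej]; exact P_of hr h1 h2 hn

/-- a finite set of naturals of diameter `≤ 3` has at most `4` elements -/
lemma card_le_four (s : Finset ℕ) (hs : ∀ a ∈ s, ∀ b ∈ s, (b : ℤ) - a < 4) : s.card ≤ 4 := by
  rcases s.eq_empty_or_nonempty with h | h
  · simp [h]
  · have : s ⊆ Finset.Icc (s.min' h) (s.min' h + 3) := by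
      intro b hb
      have h1 := s.min'_le b hb
      have h2 := hs _ (s.min'_mem h) b hb
      rw [Finset.mem_Icc]
      omega
    calc s.card ≤ _ := Finset.card_le_card this
      _ = 4 := by rw [Nat.card_Icc]; omega

lemma good_F {f : ℝ → ℝ} {K k : ℕ} {n e : ℤ} {y : ℝ} (hg : y ∈ Good f K)
    (hP : P (rho k) n e y) : av 2 f (ix 2 y) ≤ 2 * av 2 f (n / 16 ^ k) := by
  obtain ⟨g1, -, -, g4, -⟩ := hg
  rcases P_ix hP with h | h
  · rw [h]; linarith
  · rw [h]; exact g4

/-- first part, pointwise -/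
lemma part1_point {B : Set (ℝ × ℝ)} (hB : MeasurableSet B) {K k : ℕ} (n : ℤ) (y : ℝ) :
    ∑ i ∈ Finset.range (2 * 16 ^ k), ∑ j ∈ Finset.range (2 * 16 ^ k),
      (Y B K k n i j).indicator (fun y => ENNReal.ofReal (1 / 2 ^ k * av 2 (fB B) (ix 2 y) *
        (col B k i y + col B k j y))) y ≤
    (Icc (n * rho k - 2) ((n + 1) * rho k - 1)).indicator
      (fun _ => ENNReal.ofReal (64 / 2 ^ k * (av 2 (fB B) (n / 16 ^ k)) ^ 2)) y := by
  classical
  by_cases hex : ∃ i ∈ Finset.range (2 * 16 ^ k), ∃ j ∈ Finset.range (2 * 16 ^ k),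
      y ∈ Y B K k n i j
  swap
  · push Not at hex
    rw [Finset.sum_eq_zero]
    · exact zero_le
    · intro i hi
      refine Finset.sum_eq_zero fun j hj => ?_
      rw [indicator_of_notMem (hex i hi j hj)]
  obtain ⟨i0, -, j0, -, hg, -, -, hP⟩ := hex
  have hr := P_range hP
  rw [indicator_of_mem (show y ∈ Icc _ _ from ⟨hr.1, hr.2.le⟩)]
  have hF := good_F hg hP
  have hF0 := hg.1
  have hfF := hg.2.1
  set F := av 2 (fB B) (ix 2 y) with hFdef
  set Fs := av 2 (fB B) (n / 16 ^ k) with hFs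
  set t : ℝ := 1 / 2 ^ k with ht
  have ht0 : 0 < t := by positivity
  set N := 2 * 16 ^ k with hN
  -- pass to reals
  have step1 : ∑ i ∈ Finset.range N, ∑ j ∈ Finset.range N,
      (Y B K k n i j).indicator (fun y => ENNReal.ofReal (t * av 2 (fB B) (ix 2 y) *
        (col B k i y + col B k j y))) y ≤
      ENNReal.ofReal (∑ i ∈ Finset.range N, ∑ j ∈ Finset.range N,
        if P (rho k) n ((j : ℤ) - i) y then t * F * (col B k i y + col B k j y) else 0) := by
    have nn : ∀ i j : ℕ, 0 ≤ (if P (rho k) n ((j : ℤ) - i) y then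
        t * F * (col B k i y + col B k j y) else 0) := by
      intro i j
      split_ifs
      · have := col_nonneg B k i y
        have := col_nonneg B k j y
        positivity
      · exact le_rfl
    rw [ENNReal.ofReal_sum_of_nonneg (fun i _ => Finset.sum_nonneg fun j _ => nn i j)]
    refine Finset.sum_le_sum fun i _ => ?_
    rw [ENNReal.ofReal_sum_of_nonneg (fun j _ => nn i j)]
    refine Finset.sum_le_sum fun j _ => ?_
    by_cases hy : y ∈ Y B K k n i j
    · rw [indicator_of_mem hy, if_pos hy.2.2.2]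
    · rw [indicator_of_notMem hy]; exact zero_le
  refine step1.trans (ENNReal.ofReal_le_ofReal ?_)
  have c1 : ∀ i : ℕ, ((Finset.range N).filter (fun j : ℕ => P (rho k) n ((j : ℤ) - i) y)).card
      ≤ 4 := by
    intro i
    refine card_le_four _ fun a ha b hb => ?_
    rw [Finset.mem_filter] at ha hb
    have := P_e (rho_pos k) ha.2 hb.2
    omega
  have c2 : ∀ j : ℕ, ((Finset.range N).filter (fun i : ℕ => P (rho k) n ((j : ℤ) - i) y)).card
      ≤ 4 := by
    intro j
    refine card_le_four _ fun a ha b hb => ?_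
    rw [Finset.mem_filter] at ha hb
    have := P_e (rho_pos k) hb.2 ha.2
    omega
  have hsum := fB_sum hB k y
  have hA : ∑ i ∈ Finset.range N, ∑ j ∈ Finset.range N,
      (if P (rho k) n ((j : ℤ) - i) y then t * F * col B k i y else 0) ≤ 4 * (t * F * fB B y) := by
    calc _ = ∑ i ∈ Finset.range N, (((Finset.range N).filter
          (fun j : ℕ => P (rho k) n ((j : ℤ) - i) y)).card : ℝ) * (t * F * col B k i y) := by
          refine Finset.sum_congr rfl fun i _ => ?_
          rw [← Finset.sum_filter, Finset.sum_const, nsmul_eq_mul]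
      _ ≤ ∑ i ∈ Finset.range N, 4 * (t * F * col B k i y) := by
          refine Finset.sum_le_sum fun i _ => ?_
          have := col_nonneg B k i y
          have h4 : (((Finset.range N).filter
            (fun j : ℕ => P (rho k) n ((j : ℤ) - i) y)).card : ℝ) ≤ 4 := by exact_mod_cast c1 i
          have : 0 ≤ t * F * col B k i y := by positivity
          nlinarith
      _ = 4 * (t * F * fB B y) := by
          rw [hsum, ← Finset.mul_sum, ← Finset.mul_sum]
  have hC : ∑ i ∈ Finset.range N, ∑ j ∈ Finset.range N,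
      (if P (rho k) n ((j : ℤ) - i) y then t * F * col B k j y else 0) ≤ 4 * (t * F * fB B y) := by
    rw [Finset.sum_comm]
    calc _ = ∑ j ∈ Finset.range N, (((Finset.range N).filter
          (fun i : ℕ => P (rho k) n ((j : ℤ) - i) y)).card : ℝ) * (t * F * col B k j y) := by
          refine Finset.sum_congr rfl fun j _ => ?_
          rw [← Finset.sum_filter, Finset.sum_const, nsmul_eq_mul]
      _ ≤ ∑ j ∈ Finset.range N, 4 * (t * F * col B k j y) := by
          refine Finset.sum_le_sum fun j _ => ?_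
          have := col_nonneg B k j y
          have h4 : (((Finset.range N).filter
            (fun i : ℕ => P (rho k) n ((j : ℤ) - i) y)).card : ℝ) ≤ 4 := by exact_mod_cast c2 j
          have : 0 ≤ t * F * col B k j y := by positivity
          nlinarith
      _ = 4 * (t * F * fB B y) := by
          rw [hsum, ← Finset.mul_sum, ← Finset.mul_sum]
  have hAC : ∑ i ∈ Finset.range N, ∑ j ∈ Finset.range N,
      (if P (rho k) n ((j : ℤ) - i) y then t * F * (col B k i y + col B k j y) else 0) =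
      (∑ i ∈ Finset.range N, ∑ j ∈ Finset.range N,
      (if P (rho k) n ((j : ℤ) - i) y then t * F * col B k i y else 0)) +
      ∑ i ∈ Finset.range N, ∑ j ∈ Finset.range N,
      (if P (rho k) n ((j : ℤ) - i) y then t * F * col B k j y else 0) := by
    rw [← Finset.sum_add_distrib]
    refine Finset.sum_congr rfl fun i _ => ?_
    rw [← Finset.sum_add_distrib]
    refine Finset.sum_congr rfl fun j _ => ?_
    split_ifs <;> ring
  rw [hAC]
  have e64 : (64 : ℝ) / 2 ^ k * Fs ^ 2 = 64 * t * Fs ^ 2 := by rw [ht]; ring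
  rw [e64]
  have hf0 : 0 ≤ fB B y := rowLen_nonneg _ _ _ _
  have hFsq : F ^ 2 ≤ 4 * Fs ^ 2 := by nlinarith
  have h8 : 8 * (t * F * fB B y) ≤ 16 * (t * F ^ 2) := by
    have : t * F * fB B y ≤ t * F * (2 * F) := by
      apply mul_le_mul_of_nonneg_left hfF; positivity
    nlinarith
  have h9 : t * F ^ 2 ≤ t * (4 * Fs ^ 2) := mul_le_mul_of_nonneg_left hFsq ht0.le
  linarith

lemma rho_le (k : ℕ) : rho k ≤ 2 := by
  unfold rho
  rw [div_le_iff₀ (by positivity)]
  have : (1 : ℝ) ≤ 16 ^ k := one_le_pow₀ (by norm_num)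
  linarith

lemma rho'_le (k : ℕ) : rho' k ≤ 2 := by
  unfold rho'
  rw [div_le_iff₀ (by positivity)]
  have : (1 : ℝ) ≤ 4 ^ k := one_le_pow₀ (by norm_num)
  linarith

lemma part1 {B : Set (ℝ × ℝ)} (hB : MeasurableSet B) {K k : ℕ} (n : ℤ) :
    ∑ i ∈ Finset.range (2 * 16 ^ k), ∑ j ∈ Finset.range (2 * 16 ^ k),
      ∫⁻ y in Y B K k n i j, ENNReal.ofReal (1 / 2 ^ k * av 2 (fB B) (ix 2 y) *
        (col B k i y + col B k j y)) ≤
    ENNReal.ofReal (192 / 2 ^ k * (av 2 (fB B) (n / 16 ^ k)) ^ 2) := by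
  calc _ = ∑ i ∈ Finset.range (2 * 16 ^ k), ∑ j ∈ Finset.range (2 * 16 ^ k),
      ∫⁻ y, (Y B K k n i j).indicator (fun y => ENNReal.ofReal (1 / 2 ^ k *
        av 2 (fB B) (ix 2 y) * (col B k i y + col B k j y))) y := by
        refine Finset.sum_congr rfl fun i _ => Finset.sum_congr rfl fun j _ => ?_
        rw [lintegral_indicator (Y_meas hB K k n i j)]
    _ ≤ ∑ i ∈ Finset.range (2 * 16 ^ k), ∫⁻ y, ∑ j ∈ Finset.range (2 * 16 ^ k),
       (Y B K k n i j).indicator (fun y => ENNReal.ofReal (1 / 2 ^ k *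
        av 2 (fB B) (ix 2 y) * (col B k i y + col B k j y))) y :=
        Finset.sum_le_sum fun i _ => sum_lintegral_le _ _
    _ ≤ ∫⁻ y, ∑ i ∈ Finset.range (2 * 16 ^ k), ∑ j ∈ Finset.range (2 * 16 ^ k),
       (Y B K k n i j).indicator (fun y => ENNReal.ofReal (1 / 2 ^ k *
        av 2 (fB B) (ix 2 y) * (col B k i y + col B k j y))) y := sum_lintegral_le _ _
    _ ≤ ∫⁻ y, (Icc (n * rho k - 2) ((n + 1) * rho k - 1)).indicator
      (fun _ => ENNReal.ofReal (64 / 2 ^ k * (av 2 (fB B) (n / 16 ^ k)) ^ 2)) y :=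
        lintegral_mono fun y => part1_point hB n y
    _ = ENNReal.ofReal (64 / 2 ^ k * (av 2 (fB B) (n / 16 ^ k)) ^ 2) *
        ENNReal.ofReal (((n + 1) * rho k - 1) - (n * rho k - 2)) := by
        rw [lintegral_indicator_const measurableSet_Icc, Real.volume_Icc]
    _ ≤ ENNReal.ofReal (64 / 2 ^ k * (av 2 (fB B) (n / 16 ^ k)) ^ 2) * ENNReal.ofReal 3 := by
        gcongr
        have := rho_le k
        nlinarith
    _ = _ := by
        rw [← ENNReal.ofReal_mul (by positivity)]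
        congr 1; ring

/-- block averages -/
noncomputable def mb (B : Set (ℝ × ℝ)) (k : ℕ) (i β : ℤ) : ℝ := av (rho' k) (col B k i) β

lemma mb_nonneg (B : Set (ℝ × ℝ)) (k : ℕ) (i β : ℤ) : 0 ≤ mb B k i β :=
  av_nonneg (rho'_pos k) (fun y => col_nonneg B k i y) β

lemma mb_sum {B : Set (ℝ × ℝ)} (hB : MeasurableSet B) (k : ℕ) (β : ℤ) :
    ∑ i ∈ Finset.range (2 * 16 ^ k), mb B k (i : ℤ) β = av (rho' k) (fB B) β := by
  have e : fB B = fun y => ∑ i ∈ Finset.range (2 * 16 ^ k), col B k (i : ℤ) y := by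
    funext y; exact fB_sum hB k y
  rw [e, av_sum]
  · rfl
  · intro i _ a b
    refine (intervalIntegrable_const (c := rho k)).mono_fun
      (col_meas hB k i).aestronglyMeasurable ?_
    refine Filter.Eventually.of_forall fun y => ?_
    show ‖col B k (i : ℤ) y‖ ≤ ‖rho k‖
    rw [Real.norm_eq_abs, Real.norm_eq_abs, abs_of_nonneg (col_nonneg B k i y),
      abs_of_pos (rho_pos k)]
    exact col_le B k i y

/-- active blocks -/
def Act (B : Set (ℝ × ℝ)) (K k : ℕ) (n β : ℤ) : Prop :=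
  ∃ y ∈ Good (fB B) K, ix (rho' k) y = β ∧ ∃ e : ℤ, P (rho k) n e y

/-- the range of blocks -/
noncomputable def TT (k : ℕ) (n : ℤ) : Finset ℤ :=
  Finset.Icc ⌊(n * rho k - 2) / rho' k⌋ ⌊((n + 1) * rho k - 1) / rho' k⌋

lemma TT_card (k : ℕ) (n : ℤ) : ((TT k n).card : ℝ) ≤ 7 / rho' k := by
  have hr' := rho'_pos k
  have hr := rho_pos k
  have h2 := rho_le k
  have h3 := rho'_le k
  unfold TT
  rw [Int.card_Icc]
  have a1 : (⌊((n + 1) * rho k - 1) / rho' k⌋ : ℝ) ≤ ((n + 1) * rho k - 1) / rho' k :=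
    Int.floor_le _
  have a2 : (n * rho k - 2) / rho' k < (⌊(n * rho k - 2) / rho' k⌋ : ℝ) + 1 :=
    Int.lt_floor_add_one _
  have a3 : ((n + 1) * rho k - 1) / rho' k - (n * rho k - 2) / rho' k + 2 ≤ 7 / rho' k := by
    rw [← sub_div, div_add' _ _ _ hr'.ne', div_le_div_iff_of_pos_right hr']
    nlinarith
  have a4 : ((⌊((n + 1) * rho k - 1) / rho' k⌋ + 1 - ⌊(n * rho k - 2) / rho' k⌋ : ℤ) : ℝ)
      ≤ 7 / rho' k := by
    push_cast
    linarith
  have hle : ⌊(n * rho k - 2) / rho' k⌋ ≤ ⌊((n + 1) * rho k - 1) / rho' k⌋ := by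
    apply Int.floor_le_floor
    rw [div_le_div_iff_of_pos_right hr']
    nlinarith
  have e : (((⌊((n + 1) * rho k - 1) / rho' k⌋ + 1 - ⌊(n * rho k - 2) / rho' k⌋).toNat : ℕ) : ℝ)
      = ((⌊((n + 1) * rho k - 1) / rho' k⌋ + 1 - ⌊(n * rho k - 2) / rho' k⌋ : ℤ) : ℝ) := by
    have := Int.toNat_of_nonneg (show 0 ≤ ⌊((n + 1) * rho k - 1) / rho' k⌋ + 1 -
      ⌊(n * rho k - 2) / rho' k⌋ by omega)
    exact_mod_cast this
  rw [e]; exact a4

open Classical in
lemma part2_one {B : Set (ℝ × ℝ)} (hB : MeasurableSet B) {K k : ℕ} (n i j : ℤ) :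
    ∫⁻ y in Y B K k n i j, ENNReal.ofReal (4 * mb B k i (ix (rho' k) y) *
        mb B k j (ix (rho' k) y)) ≤
    ∑ β ∈ TT k n, if Act B K k n β then
      ENNReal.ofReal (4 * mb B k i β * mb B k j β * (5 * rho k)) else 0 := by
  rw [← lintegral_indicator (Y_meas hB K k n i j)]
  calc ∫⁻ y, (Y B K k n i j).indicator (fun y => ENNReal.ofReal (4 * mb B k i (ix (rho' k) y) *
        mb B k j (ix (rho' k) y))) y
      ≤ ∫⁻ y, ∑ β ∈ TT k n, {y | P (rho k) n (j - i) y}.indicator
          (fun _ => if Act B K k n β then ENNReal.ofReal (4 * mb B k i β * mb B k j β) else 0) y := by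
        refine lintegral_mono fun y => ?_
        by_cases hy : y ∈ Y B K k n i j
        · rw [indicator_of_mem hy]
          obtain ⟨hg, -, -, hP⟩ := hy
          have hr := P_range hP
          have hr' := rho'_pos k
          have hT : ix (rho' k) y ∈ TT k n := by
            unfold TT
            rw [Finset.mem_Icc]
            constructor
            · apply Int.floor_le_floor
              rw [div_le_div_iff_of_pos_right hr']
              exact hr.1
            · apply Int.floor_le_floor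
              rw [div_le_div_iff_of_pos_right hr']
              exact hr.2.le
          have hA : Act B K k n (ix (rho' k) y) := ⟨y, hg, rfl, _, hP⟩
          refine le_trans ?_ (Finset.single_le_sum (f := fun β =>
            {y | P (rho k) n (j - i) y}.indicator (fun _ => if Act B K k n β then
              ENNReal.ofReal (4 * mb B k i β * mb B k j β) else 0) y)
            (fun β _ => zero_le) hT)
          simp only
          rw [indicator_of_mem (show y ∈ {y | P (rho k) n (j - i) y} from hP), if_pos hA]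
        · rw [indicator_of_notMem hy]; exact zero_le
    _ = ∑ β ∈ TT k n, ∫⁻ y, {y | P (rho k) n (j - i) y}.indicator
          (fun _ => if Act B K k n β then ENNReal.ofReal (4 * mb B k i β * mb B k j β) else 0) y := by
        rw [lintegral_finsetSum]
        intro β _
        exact measurable_const.indicator (P_meas _ _ _)
    _ ≤ _ := by
        refine Finset.sum_le_sum fun β _ => ?_
        rw [lintegral_indicator_const (P_meas _ _ _)]
        split_ifs with hA
        · have m1 := mb_nonneg B k i β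
          have m2 := mb_nonneg B k j β
          rw [ENNReal.ofReal_mul (p := 4 * mb B k i β * mb B k j β) (by positivity)]
          gcongr
          exact P_vol (rho_pos k) _ _
        · simp

lemma act_le {B : Set (ℝ × ℝ)} {K k : ℕ} (hk : k ≤ K) {n β : ℤ} (h : Act B K k n β) :
    av (rho' k) (fB B) β ≤ 4 * av 2 (fB B) (n / 16 ^ k) := by
  obtain ⟨y, hg, rfl, e, hP⟩ := h
  have hF := good_F hg hP
  have := hg.2.2.1 k hk
  linarith

lemma part2 {B : Set (ℝ × ℝ)} (hB : MeasurableSet B) {K k : ℕ} (hk : k ≤ K) (n : ℤ) :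
    ∑ i ∈ Finset.range (2 * 16 ^ k), ∑ j ∈ Finset.range (2 * 16 ^ k),
      ∫⁻ y in Y B K k n i j, ENNReal.ofReal (4 * mb B k (i : ℤ) (ix (rho' k) y) *
        mb B k (j : ℤ) (ix (rho' k) y)) ≤
    ENNReal.ofReal (2240 / 2 ^ k * (av 2 (fB B) (n / 16 ^ k)) ^ 2) := by
  classical
  set Fs := av 2 (fB B) (n / 16 ^ k) with hFs
  have hr := rho_pos k
  have hr' := rho'_pos k
  calc _ ≤ ∑ i ∈ Finset.range (2 * 16 ^ k), ∑ j ∈ Finset.range (2 * 16 ^ k),
      ∑ β ∈ TT k n, (if Act B K k n β then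
      ENNReal.ofReal (4 * mb B k (i : ℤ) β * mb B k (j : ℤ) β * (5 * rho k)) else 0) :=
        Finset.sum_le_sum fun i _ => Finset.sum_le_sum fun j _ => part2_one hB n i j
    _ = ∑ β ∈ TT k n, ∑ i ∈ Finset.range (2 * 16 ^ k), ∑ j ∈ Finset.range (2 * 16 ^ k),
      (if Act B K k n β then
      ENNReal.ofReal (4 * mb B k (i : ℤ) β * mb B k (j : ℤ) β * (5 * rho k)) else 0) := by
        refine (Finset.sum_congr rfl fun i _ => ?_).trans Finset.sum_comm
        exact Finset.sum_comm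
    _ ≤ ∑ β ∈ TT k n, ENNReal.ofReal (320 * rho k * Fs ^ 2) := by
        refine Finset.sum_le_sum fun β _ => ?_
        split_ifs with hA
        · have hA' := act_le hk hA
          rw [← mb_sum hB] at hA'
          have nn : ∀ i j : ℕ, 0 ≤ 4 * mb B k (i : ℤ) β * mb B k (j : ℤ) β * (5 * rho k) := by
            intro i j
            have m1 := mb_nonneg B k i β
            have m2 := mb_nonneg B k j β
            positivity
          have e1 : ∑ i ∈ Finset.range (2 * 16 ^ k), ∑ j ∈ Finset.range (2 * 16 ^ k),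
              ENNReal.ofReal (4 * mb B k (i : ℤ) β * mb B k (j : ℤ) β * (5 * rho k)) =
              ENNReal.ofReal (20 * rho k * (∑ i ∈ Finset.range (2 * 16 ^ k),
                mb B k (i : ℤ) β) ^ 2) := by
            rw [sq, Finset.sum_mul_sum, Finset.mul_sum,
              ENNReal.ofReal_sum_of_nonneg]
            · refine Finset.sum_congr rfl fun i _ => ?_
              rw [Finset.mul_sum, ENNReal.ofReal_sum_of_nonneg]
              · refine Finset.sum_congr rfl fun j _ => ?_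
                congr 1; ring
              · intro j _
                have := nn i j
                nlinarith
            · intro i _
              rw [Finset.mul_sum]
              refine Finset.sum_nonneg fun j _ => ?_
              have := nn i j
              nlinarith
          rw [e1]
          apply ENNReal.ofReal_le_ofReal
          set Z := ∑ i ∈ Finset.range (2 * 16 ^ k), mb B k (i : ℤ) β with hZ
          have hZ0 : 0 ≤ Z := Finset.sum_nonneg fun i _ => mb_nonneg B k i β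
          have : Z ^ 2 ≤ 16 * Fs ^ 2 := by nlinarith
          nlinarith
        · simp
    _ = ENNReal.ofReal ((TT k n).card * (320 * rho k * Fs ^ 2)) := by
        rw [Finset.sum_const, nsmul_eq_mul, ENNReal.ofReal_mul (p := ((TT k n).card : ℝ))
          (by positivity), ENNReal.ofReal_natCast]
    _ ≤ _ := by
        apply ENNReal.ofReal_le_ofReal
        have hc := TT_card k n
        have h1 : (TT k n).card * (320 * rho k * Fs ^ 2) ≤ 7 / rho' k * (320 * rho k * Fs ^ 2) := by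
          gcongr
        refine h1.trans ?_
        have e : 7 / rho' k * (320 * rho k * Fs ^ 2) = 2240 / 4 ^ k * Fs ^ 2 := by
          unfold rho rho'
          have : (16 : ℝ) ^ k = 4 ^ k * 4 ^ k := by rw [← mul_pow]; norm_num
          rw [this]
          field_simp
          ring
        rw [e]
        have : (2240 : ℝ) / 4 ^ k ≤ 2240 / 2 ^ k := by
          gcongr
          norm_num
        gcongr

lemma prod_le {B : Set (ℝ × ℝ)} {K k : ℕ} {n i j : ℤ} {y : ℝ} (hy : y ∈ Y B K k n i j) :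
    ENNReal.ofReal (col B k i y) * ENNReal.ofReal (col B k j y) ≤
      ENNReal.ofReal (1 / 2 ^ k * av 2 (fB B) (ix 2 y) * (col B k i y + col B k j y)) +
      ENNReal.ofReal (4 * mb B k i (ix (rho' k) y) * mb B k j (ix (rho' k) y)) := by
  obtain ⟨hg, b1, b2, -⟩ := hy
  have c1 := col_nonneg B k i y
  have c2 := col_nonneg B k j y
  have m1 := mb_nonneg B k i (ix (rho' k) y)
  have m2 := mb_nonneg B k j (ix (rho' k) y)
  have hF := hg.1
  have ht : (0 : ℝ) < 1 / 2 ^ k := by positivity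
  rw [← ENNReal.ofReal_mul c1, ← ENNReal.ofReal_add (by positivity) (by positivity)]
  apply ENNReal.ofReal_le_ofReal
  unfold Big at b1 b2
  rw [not_and_or, not_lt, not_lt] at b1 b2
  have e : av 2 (fB B) (ix 2 y) / 2 ^ k = 1 / 2 ^ k * av 2 (fB B) (ix 2 y) := by ring
  rw [e] at b1 b2
  set s := 1 / 2 ^ k * av 2 (fB B) (ix 2 y) with hs
  have hs0 : 0 < s := by positivity
  have p1 : 0 ≤ 4 * mb B k i (ix (rho' k) y) * mb B k j (ix (rho' k) y) := by positivity
  rcases b1 with b1 | b1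
  · nlinarith [mul_nonneg (sub_nonneg.2 b1) c2, mul_nonneg hs0.le c1]
  · rcases b2 with b2 | b2
    · nlinarith [mul_nonneg (sub_nonneg.2 b2) c1, mul_nonneg hs0.le c2]
    · have : col B k i y * col B k j y ≤ (2 * mb B k i (ix (rho' k) y)) *
          (2 * mb B k j (ix (rho' k) y)) := by
        apply mul_le_mul b1 b2 c2 (by positivity)
      nlinarith [mul_nonneg hs0.le c1, mul_nonneg hs0.le c2]

end T

open T in
theorem type1 {B : Set (ℝ × ℝ)} {R η : ℝ} (h : Nice B R η) {K k : ℕ} (hk : k ≤ K) (n : ℤ) :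
    volume {p : ℝ × ℝ × ℝ | p ∈ Q B ∧ p.1 ∈ Good (fB B) K ∧
      ¬ Big B k (ix (rho k) p.2.1) p.1 ∧ ¬ Big B k (ix (rho k) p.2.2) p.1 ∧
      ix (rho k) (p.1 + 2 / (p.2.2 - p.2.1)) = n} ≤
    ENNReal.ofReal (3000 / 2 ^ k * (av 2 (fB B) (n / 16 ^ k)) ^ 2) := by
  have hB := h.meas
  calc _ ≤ volume (⋃ i ∈ Finset.range (2 * 16 ^ k), ⋃ j ∈ Finset.range (2 * 16 ^ k),
      piece B k (i : ℤ) (j : ℤ) (Y B K k n i j)) := measure_mono (cover h n)
    _ ≤ ∑ i ∈ Finset.range (2 * 16 ^ k), ∑ j ∈ Finset.range (2 * 16 ^ k),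
      volume (piece B k (i : ℤ) (j : ℤ) (Y B K k n i j)) := by
        refine (measure_biUnion_finset_le _ _).trans ?_
        exact Finset.sum_le_sum fun i _ => measure_biUnion_finset_le _ _
    _ ≤ ∑ i ∈ Finset.range (2 * 16 ^ k), ∑ j ∈ Finset.range (2 * 16 ^ k),
      ((∫⁻ y in Y B K k n i j, ENNReal.ofReal (1 / 2 ^ k * av 2 (fB B) (ix 2 y) *
        (col B k i y + col B k j y))) +
      ∫⁻ y in Y B K k n i j, ENNReal.ofReal (4 * mb B k (i : ℤ) (ix (rho' k) y) *
        mb B k (j : ℤ) (ix (rho' k) y))) := by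
        refine Finset.sum_le_sum fun i _ => Finset.sum_le_sum fun j _ => ?_
        refine (piece_vol hB k i j (Y_meas hB K k n i j)).trans ?_
        have hm : Measurable fun y => ENNReal.ofReal (4 * mb B k (i : ℤ) (ix (rho' k) y) *
            mb B k (j : ℤ) (ix (rho' k) y)) := by
          have m1 : Measurable fun y => mb B k (i : ℤ) (ix (rho' k) y) :=
            avix_meas (rho' k) (rho' k) (col B k i)
          have m2 : Measurable fun y => mb B k (j : ℤ) (ix (rho' k) y) :=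
            avix_meas (rho' k) (rho' k) (col B k j)
          exact ((m1.const_mul 4).mul m2).ennreal_ofReal
        rw [← lintegral_add_right _ hm]
        exact setLIntegral_mono' (Y_meas hB K k n i j) (fun y hy => prod_le hy)
    _ = _ := by
        simp only [Finset.sum_add_distrib]
        rfl
    _ ≤ ENNReal.ofReal (192 / 2 ^ k * (av 2 (fB B) (n / 16 ^ k)) ^ 2) +
        ENNReal.ofReal (2240 / 2 ^ k * (av 2 (fB B) (n / 16 ^ k)) ^ 2) :=
        add_le_add (part1 hB n) (part2 hB hk n)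
    _ = ENNReal.ofReal (192 / 2 ^ k * (av 2 (fB B) (n / 16 ^ k)) ^ 2 +
        2240 / 2 ^ k * (av 2 (fB B) (n / 16 ^ k)) ^ 2) := by
        rw [ENNReal.ofReal_add (by positivity) (by positivity)]
    _ ≤ _ := by
        apply ENNReal.ofReal_le_ofReal
        have : 0 ≤ (av 2 (fB B) (n / 16 ^ k)) ^ 2 / 2 ^ k := by positivity
        have e1 : 192 / 2 ^ k * (av 2 (fB B) (n / 16 ^ k)) ^ 2 +
          2240 / 2 ^ k * (av 2 (fB B) (n / 16 ^ k)) ^ 2 =
          2432 * ((av 2 (fB B) (n / 16 ^ k)) ^ 2 / 2 ^ k) := by ring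
        have e2 : 3000 / 2 ^ k * (av 2 (fB B) (n / 16 ^ k)) ^ 2 =
          3000 * ((av 2 (fB B) (n / 16 ^ k)) ^ 2 / 2 ^ k) := by ring
        rw [e1, e2]
        linarith

end Pool.Agent.H270R2.UT
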