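import Pool.Agent.H270R2.UT.Defs

/-!
# Task V : one-dimensional averages (helper825)
-/

set_option autoImplicit false

open MeasureTheory Set
open scoped ENNReal

namespace Pool.Agent.H270R2.UT

/-! ### the intervals -/

/-- the `n`-th interval of length `L` -/
def vJ (L : ℝ) (n : ℤ) : Set ℝ := Ico (L * (n : ℝ)) (L * ((n : ℝ) + 1))

theorem vJ_meas (L : ℝ) (n : ℤ) : MeasurableSet (vJ L n) := measurableSet_Ico

theorem mem_vJ {L : ℝ} (hL : 0 < L) {n : ℤ} {y : ℝ} : y ∈ vJ L n ↔ ix L y = n := by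
  unfold vJ ix
  rw [mem_Ico, Int.floor_eq_iff, le_div_iff₀ hL, div_lt_iff₀ hL, mul_comm L, mul_comm L]

theorem vJ_vol {L : ℝ} (_ : 0 < L) (n : ℤ) : volume (vJ L n) = ENNReal.ofReal L := by
  unfold vJ
  rw [Real.volume_Ico]
  congr 1
  ring

theorem vJ_disj {L : ℝ} (hL : 0 < L) : Pairwise (Function.onFun Disjoint (vJ L)) := by
  intro m n hmn
  refine Set.disjoint_left.2 fun y hm hn => hmn ?_
  rw [mem_vJ hL] at hm hn
  rw [← hm, hn]

theorem vJ_union {L : ℝ} (hL : 0 < L) : ⋃ n, vJ L n = univ := by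
  refine eq_univ_of_forall fun y => mem_iUnion.2 ⟨ix L y, ?_⟩
  rw [mem_vJ hL]

theorem lint_split {L : ℝ} (hL : 0 < L) (F : ℝ → ℝ≥0∞) :
    ∫⁻ y, F y = ∑' n : ℤ, ∫⁻ y in vJ L n, F y := by
  rw [← lintegral_iUnion (vJ_meas L) (vJ_disj hL), vJ_union hL, Measure.restrict_univ]

theorem av_eq {L : ℝ} (hL : 0 < L) (g : ℝ → ℝ) (n : ℤ) :
    av L g n = (1 / L) * ∫ z in vJ L n, g z := by
  unfold av vJ
  rw [intervalIntegral.integral_of_le (by nlinarith), integral_Ioc_eq_integral_Ioo,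
    integral_Ico_eq_integral_Ioo]

/-! ### one or two intervals -/

section basic

variable {g : ℝ → ℝ} (hg : Measurable g) {M : ℝ} (hM : ∀ y, |g y| ≤ M)

include hg hM in
theorem v_int {J : Set ℝ} (hJ : volume J ≠ ∞) : IntegrableOn g J := by
  have : IsFiniteMeasure (volume.restrict J) := ⟨by
    rw [Measure.restrict_apply_univ]; exact lt_top_iff_ne_top.2 hJ⟩
  exact Integrable.of_bound hg.aestronglyMeasurable M (Filter.Eventually.of_forall fun y => hM y)

include hg hM in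
theorem v_int2 {J : Set ℝ} (hJ : volume J ≠ ∞) : IntegrableOn (fun y => g y ^ 2) J := by
  have : IsFiniteMeasure (volume.restrict J) := ⟨by
    rw [Measure.restrict_apply_univ]; exact lt_top_iff_ne_top.2 hJ⟩
  refine Integrable.of_bound (hg.pow_const 2).aestronglyMeasurable (M ^ 2)
    (Filter.Eventually.of_forall fun y => ?_)
  rw [Real.norm_eq_abs, abs_pow]
  exact pow_le_pow_left₀ (abs_nonneg _) (hM y) 2

include hg hM in
theorem v_lin {J : Set ℝ} {L : ℝ} (hL : 0 < L) (hJ : volume J = ENNReal.ofReal L) (a b c : ℝ) :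
    IntegrableOn (fun y => a * g y ^ 2 + b * g y + c) J ∧
      ∫ y in J, (a * g y ^ 2 + b * g y + c) =
        a * (∫ y in J, g y ^ 2) + b * (∫ y in J, g y) + c * L := by
  have hJf : volume J ≠ ∞ := by rw [hJ]; exact ENNReal.ofReal_ne_top
  have h1 := v_int hg hM hJf
  have h2 := v_int2 hg hM hJf
  have : IsFiniteMeasure (volume.restrict J) := ⟨by
    rw [Measure.restrict_apply_univ]; exact lt_top_iff_ne_top.2 hJf⟩
  have ha : IntegrableOn (fun y => a * g y ^ 2) J := h2.const_mul a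
  have hb : IntegrableOn (fun y => b * g y) J := h1.const_mul b
  have hab : IntegrableOn (fun y => a * g y ^ 2 + b * g y) J := Integrable.add ha hb
  have hc : IntegrableOn (fun _ : ℝ => c) J := integrable_const c
  refine ⟨Integrable.add hab hc, ?_⟩
  have e1 : ∫ y in J, (a * g y ^ 2 + b * g y + c) =
      (∫ y in J, (a * g y ^ 2 + b * g y)) + ∫ _ in J, c := integral_add hab hc
  have e2 : ∫ y in J, (a * g y ^ 2 + b * g y) =
      (∫ y in J, a * g y ^ 2) + ∫ y in J, b * g y := integral_add ha hb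
  rw [e1, e2, integral_const_mul, integral_const_mul, integral_const,
    measureReal_restrict_apply_univ, Measure.real, hJ, ENNReal.toReal_ofReal hL.le,
    smul_eq_mul]
  ring

include hg hM in
theorem v_var {J : Set ℝ} {L : ℝ} (hL : 0 < L) (hJ : volume J = ENNReal.ofReal L) (c : ℝ) :
    ∫⁻ y in J, ENNReal.ofReal ((g y - c) ^ 2) =
      ENNReal.ofReal ((∫ y in J, g y ^ 2) - 2 * c * (∫ y in J, g y) + L * c ^ 2) := by
  have this : (fun y => (g y - c) ^ 2) = fun y => 1 * g y ^ 2 + (-2 * c) * g y + c ^ 2 := by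
    funext y; ring
  obtain ⟨h3, h4⟩ := v_lin hg hM hL hJ 1 (-2 * c) (c ^ 2)
  rw [← this] at h3 h4
  rw [← ofReal_integral_eq_lintegral_ofReal h3 (Filter.Eventually.of_forall fun y => sq_nonneg _),
    h4]
  congr 1
  ring

include hg hM in
theorem v_cs {J : Set ℝ} {L : ℝ} (hL : 0 < L) (hJ : volume J = ENNReal.ofReal L) :
    (∫ y in J, g y) ^ 2 ≤ L * ∫ y in J, g y ^ 2 := by
  set c : ℝ := (∫ y in J, g y) / L with hc
  have h0 : 0 ≤ ∫ y in J, (g y - c) ^ 2 := integral_nonneg fun y => sq_nonneg _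
  have this : (fun y => (g y - c) ^ 2) = fun y => 1 * g y ^ 2 + (-2 * c) * g y + c ^ 2 := by
    funext y; ring
  rw [this, (v_lin hg hM hL hJ 1 (-2 * c) (c ^ 2)).2] at h0
  have hcL : (∫ y in J, g y) = c * L := by rw [hc]; field_simp
  rw [hcL] at h0 ⊢
  nlinarith

include hg hM in
theorem v_dd {J J' : Set ℝ} {L : ℝ} (hL : 0 < L) (hJ : volume J = ENNReal.ofReal L)
    (hJ' : volume J' = ENNReal.ofReal L) :
    ∫⁻ y in J, ∫⁻ z in J', ENNReal.ofReal ((g z - g y) ^ 2) =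
      ENNReal.ofReal (L * (∫ y in J, g y ^ 2) + L * (∫ y in J', g y ^ 2)
        - 2 * (∫ y in J, g y) * (∫ y in J', g y)) := by
  simp_rw [v_var hg hM hL hJ']
  have hcs := v_cs hg hM hL hJ'
  set A := ∫ y in J', g y ^ 2 with hA
  set I := ∫ y in J', g y with hI
  have this : (fun y => A - 2 * g y * I + L * g y ^ 2) =
      fun y => L * g y ^ 2 + (-2 * I) * g y + A := by
    funext y; ring
  obtain ⟨h3, h4⟩ := v_lin hg hM hL hJ L (-2 * I) A
  rw [← this] at h3 h4
  rw [← ofReal_integral_eq_lintegral_ofReal h3 (Filter.Eventually.of_forall fun y => ?_)]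
  · rw [h4]
    congr 1
    ring
  · have h5 : 0 ≤ L * (A - 2 * g y * I + L * g y ^ 2) := by nlinarith [sq_nonneg (L * g y - I)]
    exact nonneg_of_mul_nonneg_right h5 hL

end basic

/-! ### summation over all intervals -/

theorem En_neg (g : ℝ → ℝ) (t : ℝ) : En g (-t) = En g t := by
  unfold En
  rw [← lintegral_add_right_eq_self _ t]
  refine lintegral_congr fun y => ?_
  congr 1
  rw [show y + t + -t = y by ring]
  ring

theorem measurable_En_aux {g : ℝ → ℝ} (hg : Measurable g) :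
    Measurable (Function.uncurry fun y t : ℝ => ENNReal.ofReal ((g (y + t) - g y) ^ 2)) := by
  unfold Function.uncurry
  exact (((hg.comp (measurable_fst.add measurable_snd)).sub (hg.comp measurable_fst)).pow_const
    2).ennreal_ofReal

theorem v_sum {g : ℝ → ℝ} (hg : Measurable g) {L : ℝ} (hL : 0 < L) (a : ℤ → ℤ) {T : Set ℝ}
    (hT : MeasurableSet T) (h : ∀ n, ∀ y ∈ vJ L n, ∀ z ∈ vJ L (a n), z - y ∈ T) :
    ∑' n, ∫⁻ y in vJ L n, ∫⁻ z in vJ L (a n), ENNReal.ofReal ((g z - g y) ^ 2) ≤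
      ∫⁻ t in T, En g t := by
  have h1 : ∀ n, ∫⁻ y in vJ L n, ∫⁻ z in vJ L (a n), ENNReal.ofReal ((g z - g y) ^ 2) ≤
      ∫⁻ y in vJ L n, ∫⁻ t in T, ENNReal.ofReal ((g (y + t) - g y) ^ 2) := by
    intro n
    refine setLIntegral_mono' (vJ_meas L n) fun y hy => ?_
    rw [← lintegral_indicator (vJ_meas L _), ← lintegral_indicator hT,
      ← lintegral_add_left_eq_self _ y]
    refine lintegral_mono fun t => ?_
    by_cases ht : y + t ∈ vJ L (a n)
    · have := h n y hy _ ht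
      rw [add_sub_cancel_left] at this
      rw [indicator_of_mem ht, indicator_of_mem this]
    · rw [indicator_of_notMem ht]
      exact bot_le
  refine (ENNReal.tsum_le_tsum h1).trans ?_
  rw [← lint_split hL, lintegral_lintegral_swap]
  · exact le_rfl
  · exact (measurable_En_aux hg).aemeasurable

theorem En_symm_int (g : ℝ → ℝ) (L : ℝ) :
    ∫⁻ t in Ioo (-L) L, En g t ≤ 2 * ∫⁻ t in Ioo 0 L, En g t := by
  have h1 : ∫⁻ t in Ioo (-L) 0, En g t = ∫⁻ t in Ioo 0 L, En g t := by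
    rw [← lintegral_indicator measurableSet_Ioo, ← lintegral_indicator measurableSet_Ioo,
      ← lintegral_neg_eq_self]
    refine lintegral_congr fun t => ?_
    by_cases h : t ∈ Ioo 0 L
    · have h2 : -t ∈ Ioo (-L) 0 := ⟨by linarith [h.2], by linarith [h.1]⟩
      rw [indicator_of_mem h, indicator_of_mem h2, En_neg]
    · have h2 : -t ∉ Ioo (-L) 0 := fun h' => h ⟨by linarith [h'.2], by linarith [h'.1]⟩
      rw [indicator_of_notMem h, indicator_of_notMem h2]
  have h2 : Ioo (-L) L ⊆ (Ioo (-L) 0 ∪ {0}) ∪ Ioo 0 L := by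
    intro t ht
    rcases lt_trichotomy t 0 with h | h | h
    · exact Or.inl (Or.inl ⟨ht.1, h⟩)
    · exact Or.inl (Or.inr h)
    · exact Or.inr ⟨h, ht.2⟩
  calc ∫⁻ t in Ioo (-L) L, En g t ≤ ∫⁻ t in (Ioo (-L) 0 ∪ {0}) ∪ Ioo 0 L, En g t :=
        lintegral_mono_set h2
    _ ≤ (∫⁻ t in (Ioo (-L) 0 ∪ {0}), En g t) + ∫⁻ t in Ioo 0 L, En g t :=
        lintegral_union_le _ _ _
    _ ≤ ((∫⁻ t in Ioo (-L) 0, En g t) + ∫⁻ t in ({0} : Set ℝ), En g t) +
          ∫⁻ t in Ioo 0 L, En g t := by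
        gcongr
        exact lintegral_union_le _ _ _
    _ = 2 * ∫⁻ t in Ioo 0 L, En g t := by
        rw [h1]
        simp [two_mul]

/-! ### the three theorems -/

theorem avg_var {g : ℝ → ℝ} (hg : Measurable g) {M R : ℝ} (hM : ∀ y, |g y| ≤ M)
    (hR : ∀ y, R < |y| → g y = 0) {L : ℝ} (hL : 0 < L) :
    ∫⁻ y, ENNReal.ofReal ((g y - av L g (ix L y)) ^ 2) ≤
      ENNReal.ofReal (1 / L) * ∫⁻ t in Ioo 0 L, En g t := by
  have h1 : ∀ n : ℤ, ∫⁻ y in vJ L n, ENNReal.ofReal ((g y - av L g (ix L y)) ^ 2) =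
      ENNReal.ofReal (1 / (2 * L)) *
        ∫⁻ y in vJ L n, ∫⁻ z in vJ L n, ENNReal.ofReal ((g z - g y) ^ 2) := by
    intro n
    have h2 : ∫⁻ y in vJ L n, ENNReal.ofReal ((g y - av L g (ix L y)) ^ 2) =
        ∫⁻ y in vJ L n, ENNReal.ofReal ((g y - av L g n) ^ 2) := by
      refine setLIntegral_congr_fun (vJ_meas L n) fun y hy => ?_
      rw [(mem_vJ hL).1 hy]
    rw [h2, v_var hg hM hL (vJ_vol hL n), v_dd hg hM hL (vJ_vol hL n) (vJ_vol hL n),
      ← ENNReal.ofReal_mul (by positivity), av_eq hL]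
    congr 1
    field_simp
    ring
  rw [lint_split hL]
  simp_rw [h1]
  rw [ENNReal.tsum_mul_left]
  calc ENNReal.ofReal (1 / (2 * L)) * ∑' n : ℤ, ∫⁻ y in vJ L n, ∫⁻ z in vJ L n,
        ENNReal.ofReal ((g z - g y) ^ 2)
      ≤ ENNReal.ofReal (1 / (2 * L)) * ∫⁻ t in Ioo (-L) L, En g t := by
        gcongr
        refine v_sum hg hL (fun n => n) measurableSet_Ioo ?_
        intro n y hy z hz
        unfold vJ at hy hz
        exact ⟨by nlinarith [hy.2, hz.1], by nlinarith [hy.1, hz.2]⟩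
    _ ≤ ENNReal.ofReal (1 / (2 * L)) * (2 * ∫⁻ t in Ioo 0 L, En g t) := by
        gcongr
        exact En_symm_int g L
    _ = ENNReal.ofReal (1 / L) * ∫⁻ t in Ioo 0 L, En g t := by
        rw [← mul_assoc]
        congr 1
        rw [show (2 : ℝ≥0∞) = ENNReal.ofReal 2 by simp, ← ENNReal.ofReal_mul (by positivity)]
        congr 1
        field_simp

theorem child_sum {g : ℝ → ℝ} (hg : Measurable g) {M R : ℝ} (hM : ∀ y, |g y| ≤ M)
    (hR : ∀ y, R < |y| → g y = 0) {L : ℝ} (hL : 0 < L) :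
    ∑' n : ℤ, ENNReal.ofReal ((av (L / 16) g n - av L g (n / 16)) ^ 2) ≤
      ENNReal.ofReal (16 / L ^ 2) * ∫⁻ t in Ioo 0 L, En g t := by
  have hL16 : 0 < L / 16 := by positivity
  have hix : ∀ (n : ℤ) (y : ℝ), y ∈ vJ (L / 16) n → ix L y = n / 16 := by
    intro n y hy
    rw [mem_vJ hL16] at hy
    unfold ix at hy ⊢
    have h1 : y / L = y / (L / 16) / ((16 : ℕ) : ℝ) := by
      field_simp
      norm_num
    rw [h1, Int.floor_div_natCast, hy]
    norm_num
  have h1 : ∀ n : ℤ, ENNReal.ofReal ((av (L / 16) g n - av L g (n / 16)) ^ 2) ≤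
      ENNReal.ofReal (16 / L) *
        ∫⁻ y in vJ (L / 16) n, ENNReal.ofReal ((g y - av L g (ix L y)) ^ 2) := by
    intro n
    have h2 : ∫⁻ y in vJ (L / 16) n, ENNReal.ofReal ((g y - av L g (ix L y)) ^ 2) =
        ∫⁻ y in vJ (L / 16) n, ENNReal.ofReal ((g y - av L g (n / 16)) ^ 2) := by
      refine setLIntegral_congr_fun (vJ_meas _ n) fun y hy => ?_
      rw [hix n y hy]
    rw [h2, v_var hg hM hL16 (vJ_vol hL16 n), ← ENNReal.ofReal_mul (by positivity), av_eq hL16]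
    refine ENNReal.ofReal_le_ofReal ?_
    have hcs := v_cs hg hM hL16 (vJ_vol hL16 n)
    set A := ∫ y in vJ (L / 16) n, g y ^ 2
    set I := ∫ y in vJ (L / 16) n, g y
    set c := av L g (n / 16)
    have h3 : 16 / L * (A - 2 * c * I + L / 16 * c ^ 2) - (1 / (L / 16) * I - c) ^ 2 =
        (256 / L ^ 2) * (L / 16 * A - I ^ 2) := by
      field_simp
      ring
    have h4 : 0 ≤ (256 / L ^ 2) * (L / 16 * A - I ^ 2) :=
      mul_nonneg (by positivity) (by linarith)
    linarith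
  calc ∑' n : ℤ, ENNReal.ofReal ((av (L / 16) g n - av L g (n / 16)) ^ 2)
      ≤ ∑' n : ℤ, ENNReal.ofReal (16 / L) *
        ∫⁻ y in vJ (L / 16) n, ENNReal.ofReal ((g y - av L g (ix L y)) ^ 2) :=
        ENNReal.tsum_le_tsum h1
    _ = ENNReal.ofReal (16 / L) * ∫⁻ y, ENNReal.ofReal ((g y - av L g (ix L y)) ^ 2) := by
        rw [ENNReal.tsum_mul_left, ← lint_split hL16]
    _ ≤ ENNReal.ofReal (16 / L) * (ENNReal.ofReal (1 / L) * ∫⁻ t in Ioo 0 L, En g t) := by
        gcongr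
        exact avg_var hg hM hR hL
    _ = ENNReal.ofReal (16 / L ^ 2) * ∫⁻ t in Ioo 0 L, En g t := by
        rw [← mul_assoc, ← ENNReal.ofReal_mul (by positivity)]
        congr 2
        field_simp

theorem neighbour_sum {g : ℝ → ℝ} (hg : Measurable g) {M R : ℝ} (hM : ∀ y, |g y| ≤ M)
    (hR : ∀ y, R < |y| → g y = 0) {L : ℝ} (hL : 0 < L) :
    ∑' n : ℤ, ENNReal.ofReal ((av L g n - av L g (n + 1)) ^ 2) ≤
      ENNReal.ofReal (1 / L ^ 2) * ∫⁻ t in Ioo 0 (2 * L), En g t := by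
  have h1 : ∀ n : ℤ, ENNReal.ofReal ((av L g n - av L g (n + 1)) ^ 2) ≤
      ENNReal.ofReal (1 / L ^ 2) *
        ∫⁻ y in vJ L n, ∫⁻ z in vJ L (n + 1), ENNReal.ofReal ((g z - g y) ^ 2) := by
    intro n
    rw [v_dd hg hM hL (vJ_vol hL n) (vJ_vol hL (n + 1)), ← ENNReal.ofReal_mul (by positivity),
      av_eq hL, av_eq hL]
    refine ENNReal.ofReal_le_ofReal ?_
    have hcs := v_cs hg hM hL (vJ_vol hL n)
    have hcs' := v_cs hg hM hL (vJ_vol hL (n + 1))
    set A := ∫ y in vJ L n, g y ^ 2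
    set I := ∫ y in vJ L n, g y
    set A' := ∫ y in vJ L (n + 1), g y ^ 2
    set I' := ∫ y in vJ L (n + 1), g y
    have h3 : 1 / L ^ 2 * (L * A + L * A' - 2 * I * I') - (1 / L * I - 1 / L * I') ^ 2 =
        (1 / L ^ 2) * ((L * A - I ^ 2) + (L * A' - I' ^ 2)) := by
      field_simp
      ring
    have h4 : 0 ≤ (1 / L ^ 2) * ((L * A - I ^ 2) + (L * A' - I' ^ 2)) :=
      mul_nonneg (by positivity) (by linarith)
    linarith
  refine (ENNReal.tsum_le_tsum h1).trans ?_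
  rw [ENNReal.tsum_mul_left]
  gcongr
  refine v_sum hg hL (fun n => n + 1) measurableSet_Ioo ?_
  intro n y hy z hz
  unfold vJ at hy hz
  push_cast at hz
  exact ⟨by linarith [hy.2, hz.1], by nlinarith [hy.1, hz.2]⟩

end Pool.Agent.H270R2.UT
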